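import Pool.Agent.W558.S.Stms

/-! Smooth affine surfaces have dimension two: primes strictly above a nonzero prime are maximal. -/

set_option autoImplicit false
set_option linter.unusedVariables false
set_option linter.unusedSectionVars false

universe u

open Polynomial

namespace Pool.Agent.W973.CHAIN

section gen

variable {k A : Type u} [Field k] [CommRing A] [IsDomain A] [Algebra k A]

/-- `x` is algebraically independent modulo `q`. -/
def AI {n : ℕ} (x : Fin n → A) (q : Ideal A) : Prop :=
  ∀ G : MvPolynomial (Fin n) k, G ≠ 0 → MvPolynomial.aeval x G ∉ q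

theorem aeval_cons {n : ℕ} (x : Fin n → A) (t : A) (G : MvPolynomial (Fin (n + 1)) k) :
    MvPolynomial.aeval (Fin.cons t x : Fin (n + 1) → A) G =
      Polynomial.eval₂ (MvPolynomial.aeval x : MvPolynomial (Fin n) k →ₐ[k] A).toRingHom t
        (MvPolynomial.finSuccEquiv k n G) := by
  let Φ : Polynomial (MvPolynomial (Fin n) k) →ₐ[k] A :=
    Polynomial.eval₂AlgHom (MvPolynomial.aeval x) t (fun _ => mul_comm _ _)
  have h : (MvPolynomial.aeval (Fin.cons t x : Fin (n + 1) → A)) =
      Φ.comp (MvPolynomial.finSuccEquiv k n).toAlgHom := by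
    apply MvPolynomial.algHom_ext
    intro i
    refine Fin.cases ?_ (fun j => ?_) i
    · have e : (Φ.comp (MvPolynomial.finSuccEquiv k n).toAlgHom) (MvPolynomial.X 0) = t := by
        change Polynomial.eval₂ (MvPolynomial.aeval x : MvPolynomial (Fin n) k →ₐ[k] A).toRingHom t
          (MvPolynomial.finSuccEquiv k n (MvPolynomial.X 0)) = t
        rw [MvPolynomial.finSuccEquiv_X_zero, Polynomial.eval₂_X]
      rw [e, MvPolynomial.aeval_X, Fin.cons_zero]
    · have e : (Φ.comp (MvPolynomial.finSuccEquiv k n).toAlgHom) (MvPolynomial.X j.succ) = x j := by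
        change Polynomial.eval₂ (MvPolynomial.aeval x : MvPolynomial (Fin n) k →ₐ[k] A).toRingHom t
          (MvPolynomial.finSuccEquiv k n (MvPolynomial.X j.succ)) = x j
        rw [MvPolynomial.finSuccEquiv_X_succ, Polynomial.eval₂_C]
        exact MvPolynomial.aeval_X x j
      rw [e, MvPolynomial.aeval_X, Fin.cons_succ]
  rw [h]
  rfl

/-- Add one element. -/
theorem AI.cons {n : ℕ} {x : Fin n → A} {p q : Ideal A} (hp : p.IsPrime) (hpq : p ≤ q)
    (hx : AI (k := k) x q) {t : A} (ht : t ∈ q) (htp : t ∉ p) :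
    AI (k := k) (Fin.cons t x : Fin (n + 1) → A) p := by
  intro G hG hmem
  rw [aeval_cons] at hmem
  set H := MvPolynomial.finSuccEquiv k n G with hH
  have hH0 : H ≠ 0 := by
    rw [hH]
    exact (map_ne_zero_iff _ (MvPolynomial.finSuccEquiv k n).injective).2 hG
  obtain ⟨Q, hQ, hQ0⟩ := Polynomial.exists_eq_pow_rootMultiplicity_mul_and_not_dvd H hH0 0
  rw [map_zero, sub_zero] at hQ hQ0
  rw [hQ, Polynomial.eval₂_mul, Polynomial.eval₂_pow, Polynomial.eval₂_X] at hmem
  have h1 := (hp.mem_or_mem hmem).resolve_left (fun h => htp (hp.mem_of_pow_mem _ h))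
  have h2 : Q.coeff 0 ≠ 0 := fun h => hQ0 (Polynomial.X_dvd_iff.2 h)
  apply hx _ h2
  rw [← Q.divX_mul_X_add, Polynomial.eval₂_add, Polynomial.eval₂_mul, Polynomial.eval₂_X,
    Polynomial.eval₂_C] at h1
  exact (q.add_mem_iff_right (q.mul_mem_left _ ht)).1 (hpq h1)

/-- An element which is transcendental modulo a prime which is not maximal. -/
theorem exists_tr {q : Ideal A} (hq : q.IsPrime) (hm : ¬ q.IsMaximal) :
    ∃ a : A, AI (k := k) ![a] q := by
  by_contra hcon
  push Not at hcon
  apply hm
  have halg : Algebra.IsAlgebraic k (A ⧸ q) := by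
    refine ⟨fun y => ?_⟩
    obtain ⟨a, rfl⟩ := Ideal.Quotient.mk_surjective y
    by_contra htr
    apply hcon a
    intro G hG hmem
    have h1 : AlgebraicIndependent k (fun _ : Fin 1 => Ideal.Quotient.mk q a) := by
      rw [algebraicIndependent_unique_type_iff]
      exact htr
    apply hG
    rw [algebraicIndependent_iff] at h1
    apply h1
    have h2 : MvPolynomial.aeval (fun _ : Fin 1 => Ideal.Quotient.mk q a) G =
        Ideal.Quotient.mkₐ k q (MvPolynomial.aeval ![a] G) := by
      have h3 : (Ideal.Quotient.mkₐ k q).comp (MvPolynomial.aeval ![a]) =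
          MvPolynomial.aeval (fun _ : Fin 1 => Ideal.Quotient.mk q a) := by
        apply MvPolynomial.algHom_ext
        intro i
        fin_cases i
        simp
      rw [← h3]
      rfl
    rw [h2]
    exact Ideal.Quotient.eq_zero_iff_mem.2 hmem
  have hint : Algebra.IsIntegral k (A ⧸ q) := Algebra.IsAlgebraic.isIntegral
  exact Ideal.Quotient.maximal_of_isField q
    (isField_of_isIntegral_of_isField' (R := k) (Field.toIsField k))

end gen

theorem main.{v} : Pool.Agent.W558.S_chain.{v} := by
  intro k E _ _ _ htr A hA p q hp hq hp0 hpq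
  by_contra hm
  obtain ⟨a, ha⟩ := exists_tr (k := k) hq hm
  obtain ⟨f, hfq, hfp⟩ := Set.exists_of_ssubset (SetLike.coe_ssubset_coe.2 hpq)
  obtain ⟨y, hy, hy0⟩ := Submodule.exists_mem_ne_zero_of_ne_bot hp0
  have h1 := ha.cons hp hpq.le hfq hfp
  have h2 := h1.cons (Ideal.isPrime_bot : (⊥ : Ideal A).IsPrime) bot_le hy
    (fun h => hy0 (Ideal.mem_bot.1 h))
  have h3 : AlgebraicIndependent k (fun i => ((Fin.cons y (Fin.cons f ![a] : Fin 2 → A) : Fin 3 → A) i : E)) := by
    rw [algebraicIndependent_iff]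
    intro G hG
    by_contra h0
    apply h2 G h0
    rw [Ideal.mem_bot]
    apply Subtype.ext
    have h4 : A.val.comp (MvPolynomial.aeval
        (Fin.cons y (Fin.cons f ![a] : Fin 2 → A) : Fin 3 → A)) = MvPolynomial.aeval
          (fun i => ((Fin.cons y (Fin.cons f ![a] : Fin 2 → A) : Fin 3 → A) i : E)) := by
      apply MvPolynomial.algHom_ext
      intro i
      simp
    rw [← h4] at hG
    exact hG
  have h4 := h3.lift_cardinalMk_le_trdeg
  rw [htr] at h4
  simp only [Cardinal.mk_fin, Cardinal.lift_natCast, Cardinal.lift_ofNat] at h4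
  norm_num at h4

end Pool.Agent.W973.CHAIN
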