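import Pool.Agent.W973.EGSR3

/-!
Subtask EGS-R, part 4: the proof of `S_R`.
-/

open Matrix MeasureTheory Filter Topology
open scoped Matrix.Norms.Frobenius ContDiff
open Pool.Agent.W544.EG

namespace Pool.Agent.W973.EGSR

theorem compact_group {N : ℕ} {G : Subgroup (unitaryGroup (Fin N) ℂ)}
    (hcl : IsClosed (G : Set (unitaryGroup (Fin N) ℂ))) : CompactSpace G := by
  have hU : CompactSpace (unitaryGroup (Fin N) ℂ) := Pool.LatH472.TTL_compact
  exact isCompact_iff_compactSpace.1 hcl.isCompact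

theorem kernel_const {N m : ℕ} {G : Subgroup (unitaryGroup (Fin N) ℂ)}
    (hcl : IsClosed (G : Set (unitaryGroup (Fin N) ℂ)))
    (hconn : IsConnected (G : Set (unitaryGroup (Fin N) ℂ))) (g : LeftInvMetric G m)
    {γ : Fin m → ℝ → G} (hγ : ∀ i, OPG (g.X i) (γ i)) {E : Submodule ℝ (G → ℝ)} (hE : Nice E)
    {u : G → ℝ} (hu : u ∈ E) (h0 : ∀ i x, dX (γ i) u x = 0) (x : G) : u x = u 1 := by
  obtain ⟨F, hF, hF'⟩ := hE.smooth u hu
  obtain ⟨X, hX, hXx⟩ := Pool.LatH472.TTL Pool.LatH472.CST1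
    (Pool.LatH472.CST2 Pool.LatH472.CST1) (Fin N) G hcl hconn
    (x : unitaryGroup (Fin N) ℂ) x.2
  have hXL : X ∈ LieAlg G := fun t => hX.2 t
  obtain ⟨δ, hδ⟩ := exists_opg hXL
  have hXs : X ∈ Submodule.span ℝ (Set.range g.X) := by
    have : X ∈ (Submodule.span ℝ (Set.range g.X) : Set (Mat N)) := by rw [g.span_eq]; exact hXL
    exact this
  obtain ⟨c, hc⟩ := (Submodule.mem_span_range_iff_exists_fun ℝ).1 hXs
  have h1 : ∀ y, dX δ u y = 0 := by
    intro y
    rw [dX_formula hδ hF hF' y, ← hc, Finset.mul_sum, map_sum]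
    refine Finset.sum_eq_zero fun i _ => ?_
    rw [Matrix.mul_smul, map_smul, ← dX_formula (hγ i) hF hF' y, h0, smul_zero]
  have h2 : ∀ t, HasDerivAt (fun t => u (1 * δ t)) 0 t := by
    intro t
    have := dX_spec hE hδ hu 1 t
    rwa [h1] at this
  have h3 := is_const_of_deriv_eq_zero (f := fun t => u (1 * δ t))
    (fun t => (h2 t).differentiableAt) (fun t => (h2 t).deriv) 1 0
  have h4 : δ 1 = x := mt_injective (by rw [hδ.exp, one_smul, hXx])
  simpa [h4, hδ.zero] using h3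

theorem iterated_two {N : ℕ} {G : Subgroup (unitaryGroup (Fin N) ℂ)} {X : Mat N} {γ : ℝ → G}
    (h : OPG X γ) {E : Submodule ℝ (G → ℝ)} (hE : Nice E) {u : G → ℝ} (hu : u ∈ E)
    {F : Mat N → ℝ} (hF' : ∀ x : G, u x = F (mt x)) (x : G) :
    iteratedDeriv 2 (fun t : ℝ => F (mt x * NormedSpace.exp (t • X))) 0 = dX γ (dX γ u) x := by
  have h1 : (fun t : ℝ => F (mt x * NormedSpace.exp (t • X))) = fun t => u (x * γ t) :=
    funext fun t => by rw [hF', mt_mul, h.exp]
  rw [h1, iteratedDeriv_succ, iteratedDeriv_one]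
  have h2 : deriv (fun t => u (x * γ t)) = fun t => dX γ u (x * γ t) :=
    funext fun t => (dX_spec hE h hu x t).deriv
  rw [h2, (dX_spec hE h (dX_mem hE h hu) x 0).deriv, h.zero, mul_one]

theorem approx {N : ℕ} {G : Subgroup (unitaryGroup (Fin N) ℂ)} [CompactSpace G] (f₀ : C(G, ℝ))
    {η : ℝ} (hη : 0 < η) : ∃ (h : G → ℝ) (E₀ : Submodule ℝ (G → ℝ)), Nice E₀ ∧ h ∈ E₀ ∧
      ∀ x, |h x - f₀ x| ≤ η := by
  obtain ⟨h, hh⟩ :=
    ContinuousMap.exists_mem_subalgebra_near_continuousMap_of_separatesPoints (niceAlg G)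
      niceAlg_sep f₀ η hη
  obtain ⟨E₀, hE₀, hhE₀⟩ := h.2
  refine ⟨_, E₀, hE₀, hhE₀, fun x => ?_⟩
  have h1 := (ContinuousMap.norm_coe_le_norm ((h : C(G, ℝ)) - f₀) x).trans hh.le
  rw [ContinuousMap.sub_apply, Real.norm_eq_abs] at h1
  exact h1

theorem s_R : S_R := by
  intro N m G hcl hconn g _ _ μ _ _ _ f hf hlip V hV hvar
  have hG : CompactSpace G := compact_group hcl
  have hX : ∀ i, g.X i ∈ LieAlg G := fun i => by
    rw [← g.span_eq]; exact Submodule.subset_span ⟨i, rfl⟩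
  choose γ hγ using fun i => exists_opg (hX i)
  set c₀ : ℝ := ∫ z, f z ∂μ with hc₀
  set f₀ : G → ℝ := fun x => f x - c₀ with hf₀
  have hf₀c : Continuous f₀ := hf.sub continuous_const
  have hf₀int : ∫ x, f₀ x ∂μ = 0 := by
    rw [hf₀, int_sub μ hf continuous_const, ← hc₀]
    simp
  have hlip₀ : ∀ i x t, |f₀ (x * γ i t) - f₀ x| ≤ |t| := by
    intro i x t
    have h1 := hlip x (x * γ i t) i t (by
      show mt (x * γ i t) = mt x * _
      rw [mt_mul, (hγ i).exp])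
    have h2 : f₀ (x * γ i t) - f₀ x = f (x * γ i t) - f x := by simp [hf₀]
    rw [h2]
    exact h1
  have hη : 0 < √(V / 2) := Real.sqrt_pos.2 (by linarith)
  obtain ⟨h, E₀, hE₀, hhE₀, hh'⟩ := approx ⟨f₀, hf₀c⟩ hη
  replace hh' : ∀ x, |h x - f₀ x| ≤ √(V / 2) := hh'
  have hE : Nice (E₀ ⊔ Submodule.span ℝ {(1 : G → ℝ)}) := hE₀.sup nice_one
  set E := E₀ ⊔ Submodule.span ℝ {(1 : G → ℝ)} with hEdef
  have hfin : FiniteDimensional ℝ E := Module.Finite.iff_fg.2 hE.fin
  let e : E := ⟨1, Submodule.mem_sup_right (Submodule.mem_span_singleton_self _)⟩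
  let hh₀ : E := ⟨h, Submodule.mem_sup_left hhE₀⟩
  obtain ⟨F, hF⟩ := exists_repr (form μ hE) (form_def μ hE) (intL μ hE hf₀c)
  have hFe : form μ hE F e = 0 := by
    rw [hF, intL_apply]
    have : ∀ x, f₀ x * (e : G → ℝ) x = f₀ x := fun x => mul_one _
    simp only [this]
    exact hf₀int
  have hhc : Continuous h := hE₀.continuous hhE₀
  have hFF : V / 2 ≤ form μ hE F F := by
    have h1 := form_nonneg μ hE (F - hh₀)
    have h2 : form μ hE (F - hh₀) (F - hh₀) =
        form μ hE F F - 2 * form μ hE F hh₀ + form μ hE hh₀ hh₀ := by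
      rw [map_sub, map_sub, LinearMap.sub_apply, LinearMap.sub_apply, form_symm μ hE hh₀ F]
      ring
    have h3 : form μ hE F hh₀ = ∫ x, f₀ x * h x ∂μ := by rw [hF]; rfl
    have h4 : form μ hE hh₀ hh₀ = ∫ x, h x * h x ∂μ := rfl
    have h5 : ∫ x, (f₀ x ^ 2 - (2 * (f₀ x * h x) - h x * h x)) ∂μ ≤ V / 2 := by
      have h6 : ∫ x, (f₀ x ^ 2 - (2 * (f₀ x * h x) - h x * h x)) ∂μ ≤ ∫ _x : G, V / 2 ∂μ := by
        refine integral_mono (integrable_cont μ (by fun_prop)) (integrable_cont μ continuous_const)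
          fun x => ?_
        show f₀ x ^ 2 - (2 * (f₀ x * h x) - h x * h x) ≤ V / 2
        have h7 := hh' x
        have h8 : |h x - f₀ x| ^ 2 ≤ (√(V / 2)) ^ 2 := by
          exact pow_le_pow_left₀ (abs_nonneg _) h7 2
        rw [sq_abs, Real.sq_sqrt (by linarith)] at h8
        nlinarith
      simpa using h6
    rw [int_sub μ (by fun_prop) (by fun_prop), int_sub μ (by fun_prop) (by fun_prop),
      integral_const_mul] at h5
    have h9 : V ≤ ∫ x, f₀ x ^ 2 ∂μ := hvar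
    rw [h2, h3, h4] at h1
    linarith
  have hF0 : F ≠ 0 := by
    intro h0
    rw [h0] at hFF
    simp only [map_zero] at hFF
    linarith
  obtain ⟨lam, u, hlam, hu0, hu1, hu2⟩ := rayleigh_skew_form (form μ hE) (form_symm μ hE)
    (form_nonneg μ hE) (form_def μ hE) (fun i => AX hE (hγ i)) (fun i => form_skew μ hE (hγ i)) e
    (fun i => by
      apply Subtype.ext
      ext x
      show deriv (fun t => (1 : G → ℝ) (x * γ i t)) 0 = 0
      simp)
    (fun u hu => by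
      refine ⟨(u : G → ℝ) 1, ?_⟩
      apply Subtype.ext
      ext x
      have h1 : ∀ i x, dX (γ i) (u : G → ℝ) x = 0 := fun i x => by
        have := congrArg (fun v : E => (v : G → ℝ) x) (hu i)
        exact this
      have h2 := kernel_const hcl hconn g hγ hE u.2 h1 x
      rw [h2]
      show _ = (u : G → ℝ) 1 * 1
      rw [mul_one])
    F hFe hF0
  refine ⟨lam, hlam, ?_, ?_⟩
  · have h1 : ∑ i, form μ hE (AX hE (hγ i) F) (AX hE (hγ i) F) ≤ ∑ _i : Fin m, (1 : ℝ) :=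
      Finset.sum_le_sum fun i _ => form_proj_le μ hE (hγ i) hf₀c (hlip₀ i) F hF
    have h2 : ∑ _i : Fin m, (1 : ℝ) = m := by simp
    have h3 : lam * (V / 2) ≤ lam * form μ hE F F := mul_le_mul_of_nonneg_left hFF hlam.le
    linarith
  · obtain ⟨Fu, hFu, hFu'⟩ := hE.smooth u u.2
    refine ⟨Fu, hFu, ?_, ?_⟩
    · by_contra hcon
      push Not at hcon
      apply hu0
      apply Subtype.ext
      ext x
      rw [hFu']
      exact hcon _ x.2
    · intro x hx
      have h1 : ∀ i, iteratedDeriv 2 (fun t : ℝ => Fu ((x : Mat N) *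
          NormedSpace.exp (t • g.X i))) 0 = dX (γ i) (dX (γ i) u) ⟨x, hx⟩ := fun i =>
        iterated_two (hγ i) hE u.2 hFu' ⟨x, hx⟩
      have h2 := congrArg (fun v : E => (v : G → ℝ) ⟨x, hx⟩) hu1
      have h3 : ((-∑ i, AX hE (hγ i) (AX hE (hγ i) u) : E) : G → ℝ) ⟨x, hx⟩ =
          -∑ i, dX (γ i) (dX (γ i) u) ⟨x, hx⟩ := by
        rw [Submodule.coe_neg, Submodule.coe_sum, Pi.neg_apply, Finset.sum_apply]
        rfl
      simp only [h1]
      rw [← h3]
      refine h2.trans ?_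
      show lam * (u : G → ℝ) ⟨x, hx⟩ = _
      rw [hFu']

end Pool.Agent.W973.EGSR
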