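import Pool.Agent.W973.UG3
import Pool.Agent.H790R3.RB.TFAM

/-! Uniform gain (RE-UG), part 4: persistence of the base point condition, and the theorem. -/

set_option autoImplicit false

open Topology Filter Metric Set MeasureTheory Polynomial
open Pool.Agent.H790R3.RB (CV hF cr ND wr rt pol)
open Pool.Agent.W757.QR (nu de fx fr d1 d2 wn hv hd RM pre)
open Pool.Agent.W757.RD
open Pool.Agent.W40.RQAF (fr_meas d1_meas wn_ne Q_ne af_mem)

namespace Pool.Agent.W973.UG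

variable {d : ℕ}

theorem prod_ge {δ : ℝ} (hδ : 0 ≤ δ) (ζ : ℂ) (s : Multiset ℂ) (h : ∀ r ∈ s, δ ≤ ‖ζ - r‖) :
    δ ^ s.card ≤ ‖(s.map fun r => ζ - r).prod‖ := by
  induction s using Multiset.induction_on with
  | empty => simp
  | cons a s ih =>
    rw [Multiset.card_cons, Multiset.map_cons, Multiset.prod_cons, norm_mul, pow_succ']
    exact mul_le_mul (h a (Multiset.mem_cons_self a s))
      (ih fun r hr => h r (Multiset.mem_cons_of_mem hr)) (by positivity) (norm_nonneg _)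

theorem nu_monic {x : CV d} (hx : Nrm x) : (nu x).Monic ∧ (nu x).natDegree = d := by
  have h1 : (nu x).coeff d = 1 := by
    have := Pool.Agent.H790R3.RB.PQ.pol_coeff x 0 (Fin.last d)
    rw [Fin.val_last, hx.1] at this
    exact this
  have h2 : (nu x).natDegree ≤ d := Pool.Agent.H790R3.RB.PQ.pol_natDegree x 0
  have h3 : (nu x).natDegree = d := by
    refine le_antisymm h2 (le_natDegree_of_ne_zero ?_)
    rw [h1]
    exact one_ne_zero
  exact ⟨by rw [Monic, leadingCoeff, h3, h1], h3⟩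

/-- A root near an almost root of a monic polynomial. -/
theorem exists_root {P : ℂ[X]} (hP : P.Monic) {ζ : ℂ} {δ : ℝ} (hδ : 0 ≤ δ)
    (h : ‖P.eval ζ‖ < δ ^ P.natDegree) : ∃ r : ℂ, P.eval r = 0 ∧ ‖ζ - r‖ < δ := by
  by_contra hcon
  push Not at hcon
  have hs : P.Splits := IsAlgClosed.splits P
  have h1 := prod_ge hδ ζ P.roots fun r hr => hcon r ((mem_roots hP.ne_zero).1 hr)
  rw [← hs.eval_eq_prod_roots_of_monic hP, ← hs.natDegree_eq_card_roots] at h1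
  linarith

/-- The base point condition is open. -/
theorem Gz_open {x₀ : CV d} (hG : Gz x₀) :
    ∀ᶠ x in 𝓝 x₀, Nrm x → Gz x := by
  obtain ⟨ζ, h0, h1, h2, h3, h4⟩ := hG
  have ev1 : ∀ᶠ q in 𝓝 (x₀, ζ), q.2 ≠ 0 := continuous_snd.continuousAt.eventually_ne h0
  have ev2 : ∀ᶠ q in 𝓝 (x₀, ζ), q.2 ≠ 1 := continuous_snd.continuousAt.eventually_ne h1
  have ev3 : ∀ᶠ q in 𝓝 (x₀, ζ), pv 1 0 q ≠ 0 := (pv_cont 1 0).continuousAt.eventually_ne h3
  have ev4 : ∀ᶠ q in 𝓝 (x₀, ζ), pv 0 1 q ≠ 0 := (pv_cont 0 1).continuousAt.eventually_ne h4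
  obtain ⟨δ, hδ, h5⟩ := Metric.eventually_nhds_iff.1 (((ev1.and ev2).and ev3).and ev4)
  have ev5 : ∀ᶠ x in 𝓝 x₀, ‖(nu x).eval ζ‖ < δ ^ d := by
    have hc : Continuous fun x : CV d => ‖(nu x).eval ζ‖ :=
      ((pv_cont (d := d) 0 0).comp (Continuous.prodMk_left ζ)).norm
    have h6 : ‖(nu x₀).eval ζ‖ < δ ^ d := by
      rw [h2, norm_zero]
      positivity
    exact hc.continuousAt.eventually_lt continuousAt_const h6
  have ev6 : ∀ᶠ x in 𝓝 x₀, dist x x₀ < δ := Metric.eventually_nhds_iff.2 ⟨δ, hδ, fun _ h => h⟩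
  filter_upwards [ev5, ev6] with x k1 k2 hN
  obtain ⟨hm, hdeg⟩ := nu_monic hN
  obtain ⟨r, hr, hr2⟩ := exists_root hm hδ.le (by rw [hdeg]; exact k1)
  have h7 : dist (x, r) (x₀, ζ) < δ := by
    rw [Prod.dist_eq, max_lt_iff]
    refine ⟨k2, ?_⟩
    rw [dist_comm, dist_eq_norm]
    exact hr2
  obtain ⟨⟨⟨m1, m2⟩, m3⟩, m4⟩ := h5 h7
  exact ⟨r, m1, m2, hr, m3, m4⟩

theorem et_smul (x ξ : CV d) (a : ℂ) (z : ℂ) : et x (a • ξ) z = a * et x ξ z := by
  have h : ∀ i : Fin 2, pol (a • ξ) i = C a * pol ξ i := by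
    intro i
    unfold pol
    rw [Finset.mul_sum]
    refine Finset.sum_congr rfl fun j _ => ?_
    rw [C_mul_monomial]
    rfl
  have h0 : nu (a • ξ) = C a * nu ξ := h 0
  have h1 : de (a • ξ) = C a * de ξ := h 1
  unfold et
  rw [h0, h1, eval_mul, eval_mul, eval_C]
  ring

theorem Dv_smul (β : ℝ) (v : ℂ → ℂ) (a : ℂ) (z : ℂ) :
    Dv β (fun z => a * v z) z = a * Dv β v z := by
  unfold Dv
  rw [deriv_const_mul_field]
  ring

/-- Part 1. -/
theorem partOne (hUGA : StUGA) (hMU : StMU) {β : ℝ} {x₀ : CV d} (hβ1 : 1 / 2 < β) (hβ2 : β < 1)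
    (hd : 2 ≤ d) (hND : ND x₀) (hN : Nrm x₀) (hG : Gz x₀) :
    ∃ c₀ ε₀ σ : ℝ, 0 < c₀ ∧ 0 < ε₀ ∧ 0 < σ ∧ ∀ x ξ : CV d, ‖x - x₀‖ < σ →
      ξ (0, Fin.last d) = 0 → ξ (1, Fin.last d) = 0 → ∀ (W K : Set ℂ) (v : ℂ → ℂ), IsOpen W →
      MeasurableSet K → K ⊆ W → mu β Kᶜ ≤ ENNReal.ofReal ε₀ → DifferentiableOn ℂ v W →
      (∀ᵐ z : ℂ, z ∈ K → fx x z ∈ K) →
      (∀ z ∈ W, (de x).eval z ≠ 0 → fx x z ∈ W →
        v (fx x z) - d1 (nu x) (de x) z * v z = et x ξ z) →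
      ENNReal.ofReal (c₀ * ‖ξ‖ ^ 2) ≤ ∫⁻ z in K, ENNReal.ofReal (‖Dv β v z‖ ^ 2) ∂mu β := by
  obtain ⟨σ₀, hσ₀, hσ⟩ := Metric.eventually_nhds_iff.1 (Pool.Agent.H790R3.RB.FAM.ND_open hND)
  by_contra hcon
  push Not at hcon
  have hp : ∀ n : ℕ, (0 : ℝ) < (1 / 2) ^ n := fun n => by positivity
  choose x ξ hx hξ0 hξ1 W K v hW hKm hKW hmu hv hfK hrel hlt using
    fun n : ℕ => hcon ((1 / 2) ^ n) ((1 / 2) ^ n) (min ((1 / 2) ^ n) σ₀) (hp n) (hp n)
      (lt_min (hp n) hσ₀)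
  have hξne : ∀ n, ‖ξ n‖ ≠ 0 := by
    intro n h0
    have := hlt n
    rw [h0] at this
    simp at this
  have hξpos : ∀ n, 0 < ‖ξ n‖ := fun n => lt_of_le_of_ne (norm_nonneg _) (hξne n).symm
  let a : ℕ → ℂ := fun n => ((‖ξ n‖⁻¹ : ℝ) : ℂ)
  have ha : ∀ n, ‖a n‖ = ‖ξ n‖⁻¹ := by
    intro n
    change ‖((‖ξ n‖⁻¹ : ℝ) : ℂ)‖ = _
    rw [Complex.norm_real, Real.norm_of_nonneg (inv_nonneg.2 (norm_nonneg _))]
  let ξ' : ℕ → CV d := fun n => a n • ξ n
  have hξ' : ∀ n, ξ' n ∈ sphere (0 : CV d) 1 := by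
    intro n
    rw [mem_sphere_zero_iff_norm]
    change ‖a n • ξ n‖ = 1
    rw [norm_smul, ha, inv_mul_cancel₀ (hξne n)]
  obtain ⟨ξ₀, hξ₀, φ, hφ, hφt⟩ := (isCompact_sphere (0 : CV d) 1).tendsto_subseq hξ'
  have hle : ∀ n, ((1 : ℝ) / 2) ^ (φ n) ≤ (1 / 2) ^ n := fun n =>
    pow_le_pow_of_le_one (by norm_num) (by norm_num) (hφ.id_le n)
  have hxt : Tendsto (fun n => x (φ n)) atTop (𝓝 x₀) := by
    rw [tendsto_iff_norm_sub_tendsto_zero]
    refine squeeze_zero (fun n => norm_nonneg _) (fun n => ?_)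
      (tendsto_pow_atTop_nhds_zero_of_lt_one (r := (1 : ℝ) / 2) (by norm_num) (by norm_num))
    exact ((hx (φ n)).le.trans (min_le_left _ _)).trans (hle n)
  have hNDx : ∀ n, ND (x n) := fun n => hσ (by
    rw [dist_eq_norm]
    exact lt_of_lt_of_le (hx n) (min_le_right _ _))
  obtain ⟨hchi, huga⟩ := hUGA β d x₀ hβ1 hβ2 hd hND hN hG
  have hlast : ∀ i : Fin 2, (∀ n, ξ n (i, Fin.last d) = 0) → ξ₀ (i, Fin.last d) = 0 := by
    intro i hi
    have h1 : Tendsto (fun n => ξ' (φ n) (i, Fin.last d)) atTop (𝓝 (ξ₀ (i, Fin.last d))) :=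
      ((continuous_apply (i, Fin.last d)).tendsto ξ₀).comp hφt
    have h2 : ∀ n, ξ' (φ n) (i, Fin.last d) = 0 := by
      intro n
      change a (φ n) * ξ (φ n) (i, Fin.last d) = 0
      rw [hi, mul_zero]
    simp only [h2] at h1
    exact (tendsto_nhds_unique h1 tendsto_const_nhds)
  have hzero : ξ₀ = 0 := by
    refine huga ξ₀ (hlast 0 hξ0) (hlast 1 hξ1) ?_
    refine limit_rel (x := fun n => x (φ n)) (ξ := fun n => ξ' (φ n)) (W := fun n => W (φ n))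
      (K := fun n => K (φ n)) (v := fun n z => a (φ n) * v (φ n) z) (hMU β hβ1 hβ2).2 hd hND
      (fun n => hNDx _) hxt hφt hchi (fun n => hW _) (fun n => hKm _) (fun n => hKW _) ?_ ?_
      (fun n => hfK _) ?_ ?_
    · intro n
      exact (hmu (φ n)).trans (ENNReal.ofReal_le_ofReal (hle n))
    · intro n
      exact (hv (φ n)).const_mul _
    · intro n z hz hQ hf
      change a (φ n) * v (φ n) (fx (x (φ n)) z) - d1 (nu (x (φ n))) (de (x (φ n))) z *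
        (a (φ n) * v (φ n) z) = et (x (φ n)) (a (φ n) • ξ (φ n)) z
      rw [et_smul, ← hrel (φ n) z hz hQ hf]
      ring
    · intro n
      have h1 : ∀ z, ENNReal.ofReal (‖Dv β (fun z => a (φ n) * v (φ n) z) z‖ ^ 2) =
          ENNReal.ofReal (‖ξ (φ n)‖⁻¹ ^ 2) * ENNReal.ofReal (‖Dv β (v (φ n)) z‖ ^ 2) := by
        intro z
        rw [Dv_smul, norm_mul, mul_pow, ha, ENNReal.ofReal_mul (by positivity)]
      simp only [h1]
      rw [lintegral_const_mul' _ _ ENNReal.ofReal_ne_top]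
      refine (mul_le_mul_right (hlt (φ n)).le _).trans ?_
      rw [← ENNReal.ofReal_mul (by positivity)]
      apply ENNReal.ofReal_le_ofReal
      have h2 := hξne (φ n)
      have h3 : ‖ξ (φ n)‖⁻¹ ^ 2 * ((1 / 2) ^ φ n * ‖ξ (φ n)‖ ^ 2) = (1 / 2) ^ φ n := by
        field_simp
      rw [h3]
      exact hle n
  rw [hzero] at hξ₀
  simp at hξ₀

theorem task (hUGA : StUGA) (hMU : StMU) : StUG := by
  intro β d x₀ hβ1 hβ2 hd hND hN hG
  obtain ⟨c₀, ε₀, σ₁, hc, hε, hσ₁, h1⟩ := partOne hUGA hMU hβ1 hβ2 hd hND hN hG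
  obtain ⟨σ₂, hσ₂, h2⟩ := Metric.eventually_nhds_iff.1
    ((Pool.Agent.H790R3.RB.FAM.ND_open hND).and (Gz_open hG))
  refine ⟨c₀, ε₀, min σ₁ σ₂, hc, hε, lt_min hσ₁ hσ₂, ?_⟩
  intro x ξ hx hNx hξ0 hξ1 W K v hW hK hKW hmu hv hfK hrel
  have hp1 := h1 x ξ (lt_of_lt_of_le hx (min_le_left _ _)) hξ0 hξ1 W K v hW hK hKW hmu hv hfK hrel
  refine ⟨hp1, fun hint => ?_⟩
  obtain ⟨hNDx, hGx⟩ := h2 (show dist x x₀ < σ₂ by
    rw [dist_eq_norm]; exact lt_of_lt_of_le hx (min_le_right _ _))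
  have hR := rm_of hd hNDx
  have hξ : ξ = 0 := by
    rw [hint, nonpos_iff_eq_zero, ENNReal.ofReal_eq_zero] at hp1
    have h3 : ‖ξ‖ ^ 2 ≤ 0 := by
      by_contra hcon
      push Not at hcon
      have := mul_pos hc hcon
      linarith
    have h4 : ‖ξ‖ = 0 := by
      have := sq_nonneg ‖ξ‖
      exact pow_eq_zero_iff (two_ne_zero) |>.1 (le_antisymm h3 this)
    exact norm_eq_zero.1 h4
  obtain ⟨hchi, -⟩ := hUGA β d x hβ1 hβ2 hd hNDx hNx (hGx hNx)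
  have a1 : ∀ᵐ z : ℂ, chi β x z ≠ 0 := by
    rw [ae_iff]
    simp only [ne_eq, not_not]
    exact hchi.measure_zero _
  have a2 : ∀ᵐ z : ℂ, z ∈ K → Dv β v z = 0 := by
    have hpm : Measurable (fun z => phi β K v z * ENNReal.ofReal (rho β z)) :=
      (phi_meas hW hK hKW hv).mul (rho_meas β).ennreal_ofReal
    rw [phi_int hW hK hKW hv, lintegral_eq_zero_iff hpm] at hint
    have a3 : ∀ᵐ z : ℂ, z ∉ ({0, 1} : Set ℂ) := by
      rw [ae_iff]
      simp only [not_not]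
      exact (toFinite ({0, 1} : Set ℂ)).measure_zero _
    filter_upwards [hint, a3] with z k1 k2 hz
    have k3 : phi β K v z * ENNReal.ofReal (rho β z) = 0 := k1
    have hz0 : z ≠ 0 := fun h => k2 (by rw [h]; simp)
    have hz1 : z ≠ 1 := fun h => k2 (by rw [h]; simp)
    rw [phi_mem hz, ← ENNReal.ofReal_mul (by positivity), ENNReal.ofReal_eq_zero] at k3
    have h5 := rho_pos β hz0 hz1
    by_contra hne
    have h6 : 0 < ‖Dv β v z‖ ^ 2 := pow_pos (norm_pos_iff.2 hne) 2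
    have := mul_pos h6 h5
    linarith
  have a3 : ∀ᵐ z : ℂ, fx x z ∈ K → Dv β v (fx x z) = 0 := ae_pre hR a2
  have a4 : ∀ᵐ z : ℂ, (de x).eval z ≠ 0 := by
    rw [ae_iff]
    simp only [ne_eq, not_not]
    have h5 : ({z : ℂ | (de x).eval z = 0}).Finite := by
      refine (de x).roots.toFinset.finite_toSet.subset ?_
      intro z hz
      rw [Finset.mem_coe, Multiset.mem_toFinset, mem_roots (Q_ne hR)]
      exact hz
    exact h5.measure_zero _
  have het : ∀ z, et x ξ z = 0 := by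
    intro z
    have := et_smul x ξ 0 z
    rw [zero_smul, zero_mul] at this
    rw [hξ]
    exact this
  have hdet : ∀ z, deriv (et x ξ) z = 0 := by
    intro z
    have : et x ξ = fun _ => 0 := funext het
    rw [this]
    simp
  filter_upwards [a1, a2, a3, a4, hfK] with z k1 k2 k3 k4 k5 hz
  have h5 := diff_rel (β := β) hW hv hrel (hKW hz) k4 (hKW (k5 hz))
  rw [k2 hz, k3 (k5 hz), het, hdet] at h5
  have h6 : chi β x z * v z = 0 := by rw [h5]; ring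
  exact (mul_eq_zero.1 h6).resolve_left k1

end Pool.Agent.W973.UG
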