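import Pool.Agent.W951.BP.Stm

/-!
# The analytic estimates for the second moment: the ranges `2 ^ (-r / 2) < s / T ≤ 3 / 10`,
`3 / 10 < s / T ≤ 1 - ζ` and `1 - ζ < s / T`
-/

namespace Pool.Agent.W973.BpAN

open Pool.Agent.W951.BP Finset

theorem choose_le_three_pow (n r : ℕ) : ((n.choose r : ℕ) : ℝ) ≤ (3 * n / r) ^ r := by
  rcases Nat.eq_zero_or_pos r with rfl | hr
  · simp
  have hr' : (0 : ℝ) < r := by exact_mod_cast hr
  have hf : (0 : ℝ) < (r.factorial : ℝ) := by exact_mod_cast r.factorial_pos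
  have h1 : ((n.choose r : ℕ) : ℝ) ≤ (n : ℝ) ^ r / (r.factorial : ℝ) := Nat.choose_le_pow_div r n
  have h2 : (r : ℝ) ^ r / (r.factorial : ℝ) ≤ 3 ^ r := by
    have h3 := Real.pow_div_factorial_le_exp (r : ℝ) hr'.le r
    have h4 : Real.exp (r : ℝ) = Real.exp 1 ^ r := by rw [← Real.exp_nat_mul]; ring_nf
    have h5 : Real.exp 1 ≤ 3 := by
      have := Real.exp_one_lt_d9
      linarith
    calc (r : ℝ) ^ r / (r.factorial : ℝ) ≤ Real.exp (r : ℝ) := h3
      _ = Real.exp 1 ^ r := h4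
      _ ≤ 3 ^ r := pow_le_pow_left₀ (Real.exp_pos _).le h5 r
  calc ((n.choose r : ℕ) : ℝ) ≤ (n : ℝ) ^ r / (r.factorial : ℝ) := h1
    _ = ((n : ℝ) / r) ^ r * ((r : ℝ) ^ r / (r.factorial : ℝ)) := by
        rw [div_pow]
        field_simp
    _ ≤ ((n : ℝ) / r) ^ r * 3 ^ r := mul_le_mul_of_nonneg_left h2 (by positivity)
    _ = (3 * n / r) ^ r := by
        rw [← mul_pow]
        congr 1
        ring

theorem pr_le {T v s : ℕ} (hs : s ≤ T) (hv : 1 ≤ v) :
    pr T v s ≤ (T.choose s : ℝ) / (v : ℝ) ^ s := by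
  have hv0 : (1 : ℝ) ≤ v := by exact_mod_cast hv
  have hvp : (0 : ℝ) < v := by linarith
  unfold pr
  rw [div_le_div_iff₀ (by positivity) (by positivity)]
  have h1 : ((v : ℝ) - 1) ^ (T - s) ≤ (v : ℝ) ^ (T - s) :=
    pow_le_pow_left₀ (by linarith) (by linarith) _
  have h2 : (v : ℝ) ^ (T - s) * (v : ℝ) ^ s = (v : ℝ) ^ T := by
    rw [← pow_add]
    congr 1
    omega
  calc (T.choose s : ℝ) * ((v : ℝ) - 1) ^ (T - s) * (v : ℝ) ^ s
      ≤ (T.choose s : ℝ) * (v : ℝ) ^ (T - s) * (v : ℝ) ^ s := by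
        gcongr
    _ = (T.choose s : ℝ) * ((v : ℝ) ^ (T - s) * (v : ℝ) ^ s) := by ring
    _ = (T.choose s : ℝ) * (v : ℝ) ^ T := by rw [h2]

theorem qq_nonneg {T v s : ℕ} (hs : s ≤ T) : 0 ≤ qq T v s := by
  unfold qq
  have h1 : ((s : ℝ) / T) ≤ 1 := by
    apply div_le_one_of_le₀
    · exact_mod_cast hs
    · positivity
  have h0 : 0 ≤ ((s : ℝ) / T) := by positivity
  have h2 : ((s : ℝ) / T) ^ 2 ≤ 1 := pow_le_one₀ h0 h1
  have h3 : 0 ≤ (1 - ((s : ℝ) / T) ^ 2) / v := div_nonneg (by linarith) (by positivity)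
  positivity

theorem qq_le {T v s : ℕ} : qq T v s ≤ ((s : ℝ) / T) ^ 2 + 1 / v := by
  unfold qq
  have h3 : (1 - ((s : ℝ) / T) ^ 2) / v ≤ 1 / v := by
    gcongr
    nlinarith [sq_nonneg ((s : ℝ) / T)]
  linarith

theorem qq_le_one {T v s : ℕ} (hs : s ≤ T) (hv : 1 ≤ v) : qq T v s ≤ 1 := by
  unfold qq
  have h1 : ((s : ℝ) / T) ≤ 1 := by
    apply div_le_one_of_le₀
    · exact_mod_cast hs
    · positivity
  have h0 : 0 ≤ ((s : ℝ) / T) := by positivity
  have h2 : ((s : ℝ) / T) ^ 2 ≤ 1 := pow_le_one₀ h0 h1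
  have hv0 : (1 : ℝ) ≤ v := by exact_mod_cast hv
  have h3 : (1 - ((s : ℝ) / T) ^ 2) / v ≤ (1 - ((s : ℝ) / T) ^ 2) :=
    div_le_self (by linarith) hv0
  linarith

/-- `a exp (-c r)` is small for large `r` -/
theorem exp_small {c : ℝ} (hc : 0 < c) {δ : ℝ} (hδ : 0 < δ) :
    ∃ r₀ : ℕ, ∀ r : ℕ, r₀ ≤ r → Real.exp (-c * r) ≤ δ := by
  obtain ⟨N, hN⟩ := exists_nat_gt (1 / (δ * c))
  refine ⟨N, fun r hr => ?_⟩
  have h1 : (N : ℝ) ≤ r := by exact_mod_cast hr
  have h2 : 1 / (δ * c) < r := lt_of_lt_of_le hN h1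
  have hr0 : (0 : ℝ) < r := lt_trans (by positivity) h2
  have h3 : 1 < r * (δ * c) := by
    rwa [div_lt_iff₀ (by positivity)] at h2
  have h4 : c * r + 1 ≤ Real.exp (c * r) := Real.add_one_le_exp _
  have h5 : Real.exp (-c * r) = 1 / Real.exp (c * r) := by
    rw [neg_mul, Real.exp_neg, one_div]
  rw [h5, div_le_iff₀ (Real.exp_pos _)]
  nlinarith

theorem sum_pow_le {T : ℕ} {a : ℝ} (ha : 0 ≤ a) (ha2 : a ≤ 1 / 2) (S : Finset ℕ) (f : ℕ → ℝ)
    (hS : S ⊆ range T) (hf : ∀ s ∈ S, 1 ≤ s ∧ f s ≤ a ^ s) : ∑ s ∈ S, f s ≤ 4 * a := by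
  have key : ∀ s ∈ S, f s ≤ 2 * a * (1 / 2) ^ s := by
    intro s hs
    obtain ⟨h1, h2⟩ := hf s hs
    refine h2.trans ?_
    obtain ⟨u, rfl⟩ : ∃ u, s = u + 1 := ⟨s - 1, by omega⟩
    have h3 : a ^ u ≤ (1 / 2) ^ u := pow_le_pow_left₀ ha ha2 _
    rw [pow_succ, pow_succ]
    nlinarith [pow_nonneg ha u]
  calc ∑ s ∈ S, f s ≤ ∑ s ∈ S, 2 * a * (1 / 2) ^ s := sum_le_sum key
    _ ≤ ∑ s ∈ range T, 2 * a * (1 / 2) ^ s := by
        apply sum_le_sum_of_subset_of_nonneg hS
        intros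
        positivity
    _ = 2 * a * ∑ s ∈ range T, (1 / 2 : ℝ) ^ s := by rw [mul_sum]
    _ ≤ 2 * a * 2 := by
        have := sum_geometric_two_le T
        gcongr
    _ = 4 * a := by ring

theorem t_AN2 : S_AN2 := by
  intro k hk ε hε
  obtain ⟨r₀, hr₀⟩ := exp_small (c := 3 / 10) (by norm_num)
    (δ := min (1 / 6) (ε / 12)) (lt_min (by norm_num) (by positivity))
  refine ⟨r₀, fun r hr T hT => ?_⟩
  have hE := hr₀ r hr
  have hE1 : Real.exp (-(3 / 10) * r) ≤ 1 / 6 := hE.trans (min_le_left _ _)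
  have hE2 : Real.exp (-(3 / 10) * r) ≤ ε / 12 := hE.trans (min_le_right _ _)
  have main : ∑ s ∈ (range T).filter (fun s : ℕ => 1 < ((s : ℝ) / T) ^ 2 * 2 ^ r ∧
      (s : ℝ) / T ≤ 3 / 10), tm k r T s ≤ 4 * (3 * Real.exp (-(3 / 10) * r)) := by
    apply sum_pow_le (T := T) (by positivity) (by linarith) _ _ (filter_subset _ _)
    intro s hs
    rw [mem_filter, mem_range] at hs
    obtain ⟨hsT, hz1, hz2⟩ := hs
    have hT0 : 0 < T := by omega
    have hT0' : (0 : ℝ) < T := by exact_mod_cast hT0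
    have hs1 : 1 ≤ s := by
      rcases Nat.eq_zero_or_pos s with rfl | h
      · norm_num at hz1
      · exact h
    refine ⟨hs1, ?_⟩
    have hs0 : (0 : ℝ) < s := by exact_mod_cast hs1
    set z : ℝ := (s : ℝ) / T with hz
    have hz0 : 0 < z := by positivity
    set v : ℝ := (2 : ℝ) ^ r with hv
    have hv0 : 0 < v := by positivity
    have hvc : (((2 ^ r : ℕ)) : ℝ) = v := by rw [hv]; push_cast; rfl
    have hsz : (s : ℝ) = z * T := by rw [hz]; field_simp
    -- the bound for the probability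
    have h1 : pr T (2 ^ r) s ≤ (3 / (z * v)) ^ s := by
      refine (pr_le hsT.le (Nat.one_le_two_pow)).trans ?_
      rw [hvc]
      calc (T.choose s : ℝ) / v ^ s ≤ (3 * T / s) ^ s / v ^ s := by
            gcongr
            exact choose_le_three_pow _ _
        _ = (3 / (z * v)) ^ s := by
            rw [← div_pow]
            congr 1
            rw [hz]
            field_simp
    have hsq : 1 / (z * v) ≤ 1 / √v := by
      have h2 : 1 < z ^ 2 * v := hz1
      have h3 : √v ≤ z * v := by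
        rw [Real.sqrt_le_left (by positivity)]
        nlinarith
      exact one_div_le_one_div_of_le (Real.sqrt_pos.2 hv0) h3
    have hsv : 1 / √v = Real.exp (-(Real.log 2 / 2) * r) := by
      rw [hv]
      have : √((2 : ℝ) ^ r) = Real.exp (Real.log 2 / 2 * r) := by
        have h : Real.exp (Real.log 2 / 2 * r) ^ 2 = (2 : ℝ) ^ r := by
          rw [← Real.exp_nat_mul]
          rw [show ((2 : ℕ) : ℝ) * (Real.log 2 / 2 * r) = r * Real.log 2 by push_cast; ring]
          rw [Real.exp_nat_mul, Real.exp_log (by norm_num)]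
        rw [← h, Real.sqrt_sq (Real.exp_pos _).le]
      rw [this, neg_mul, Real.exp_neg, one_div]
    -- the bound for the power
    have hq : qq T (2 ^ r) s ≤ 2 * z ^ 2 := by
      refine qq_le.trans ?_
      rw [hvc]
      have : 1 / v ≤ z ^ 2 := by
        rw [div_le_iff₀ hv0]
        exact hz1.le
      have h5 : ((s : ℝ) / T) ^ 2 = z ^ 2 := rfl
      linarith
    have hq0 : 0 ≤ qq T (2 ^ r) s := qq_nonneg hsT.le
    have hz9 : z ^ 2 ≤ 9 / 100 := by nlinarith
    have hqk : qq T (2 ^ r) s ^ k ≤ 8 * z ^ 6 := by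
      calc qq T (2 ^ r) s ^ k ≤ (2 * z ^ 2) ^ k := pow_le_pow_left₀ hq0 hq _
        _ ≤ (2 * z ^ 2) ^ 3 := pow_le_pow_of_le_one (by positivity) (by linarith) hk
        _ = 8 * z ^ 6 := by ring
    have hz5 : z ^ 5 ≤ 243 / 100000 := by
      calc z ^ 5 ≤ (3 / 10) ^ 5 := pow_le_pow_left₀ hz0.le hz2 _
        _ = 243 / 100000 := by norm_num
    have h2 : (1 + qq T (2 ^ r) s ^ k) ^ (r * T) ≤ Real.exp (1 / 50 * r) ^ s := by
      calc (1 + qq T (2 ^ r) s ^ k) ^ (r * T) ≤ (Real.exp (8 * z ^ 6)) ^ (r * T) := by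
            apply pow_le_pow_left₀ (by positivity)
            have := Real.add_one_le_exp (8 * z ^ 6)
            linarith
        _ = Real.exp (((r * T : ℕ) : ℝ) * (8 * z ^ 6)) := by rw [Real.exp_nat_mul]
        _ ≤ Real.exp ((s : ℝ) * (1 / 50 * r)) := by
            apply Real.exp_le_exp.2
            push_cast
            have : (r : ℝ) * T * (8 * z ^ 6) = r * (z * T) * (8 * z ^ 5) := by ring
            rw [this, ← hsz]
            have h6 : 8 * z ^ 5 ≤ 1 / 50 := by linarith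
            have h7 : (0 : ℝ) ≤ r * s := by positivity
            nlinarith [mul_le_mul_of_nonneg_left h6 h7]
        _ = Real.exp (1 / 50 * r) ^ s := by rw [Real.exp_nat_mul]
    unfold tm
    calc pr T (2 ^ r) s * (1 + qq T (2 ^ r) s ^ k) ^ (r * T)
        ≤ (3 / (z * v)) ^ s * Real.exp (1 / 50 * r) ^ s := by
          gcongr
      _ = (3 / (z * v) * Real.exp (1 / 50 * r)) ^ s := by rw [mul_pow]
      _ ≤ (3 * Real.exp (-(3 / 10) * r)) ^ s := by
          apply pow_le_pow_left₀ (by positivity)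
          have h8 : 3 / (z * v) = 3 * (1 / (z * v)) := by ring
          rw [h8, mul_assoc]
          apply mul_le_mul_of_nonneg_left _ (by norm_num)
          calc 1 / (z * v) * Real.exp (1 / 50 * r)
              ≤ Real.exp (-(Real.log 2 / 2) * r) * Real.exp (1 / 50 * r) := by
                apply mul_le_mul_of_nonneg_right _ (Real.exp_pos _).le
                rw [← hsv]; exact hsq
            _ = Real.exp (-(Real.log 2 / 2) * r + 1 / 50 * r) := by rw [← Real.exp_add]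
            _ ≤ Real.exp (-(3 / 10) * r) := by
                apply Real.exp_le_exp.2
                have h9 := Real.log_two_gt_d9
                have h10 : (0 : ℝ) ≤ r := by positivity
                nlinarith
  linarith

/-- the elementary inequality behind the middle range -/
theorem base_le {z ζ : ℝ} (hζ : 0 < ζ) (hz1 : 3 / 10 < z) (hz2 : z ≤ 1 - ζ) {q : ℝ}
    (hq : q ≤ z ^ 6 + 1 / 50 * ζ) : 1 + q ≤ (2 : ℝ) ^ z * Real.exp (-(1 / 100 * ζ)) := by
  have hlog := Real.log_two_lt_d9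
  have hlog0 := Real.log_two_gt_d9
  have hzl1 : z ≤ 1 := by linarith
  have h2z : 2 - 2 * Real.log 2 * (1 - z) ≤ (2 : ℝ) ^ z := by
    have e1 : (2 : ℝ) ^ z = 2 * Real.exp ((z - 1) * Real.log 2) := by
      rw [Real.rpow_def_of_pos (by norm_num)]
      rw [show Real.log 2 * z = Real.log 2 + (z - 1) * Real.log 2 by ring, Real.exp_add,
        Real.exp_log (by norm_num)]
    rw [e1]
    have := Real.add_one_le_exp ((z - 1) * Real.log 2)
    linarith
  have h2z2 : (2 : ℝ) ^ z ≤ 2 := by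
    calc (2 : ℝ) ^ z ≤ (2 : ℝ) ^ (1 : ℝ) := Real.rpow_le_rpow_of_exponent_le (by norm_num) hzl1
      _ = 2 := by norm_num
  have hkey : 1 + z ^ 6 ≤ (2 : ℝ) ^ z - 1 / 25 * ζ := by
    have e1 : 1 / 25 ≤ 1 + z + z ^ 2 + z ^ 3 + z ^ 4 + z ^ 5 - 2 * Real.log 2 := by
      have f2 : (3 / 10 : ℝ) ^ 2 ≤ z ^ 2 := pow_le_pow_left₀ (by norm_num) hz1.le _
      have f3 : (3 / 10 : ℝ) ^ 3 ≤ z ^ 3 := pow_le_pow_left₀ (by norm_num) hz1.le _
      have f4 : (3 / 10 : ℝ) ^ 4 ≤ z ^ 4 := pow_le_pow_left₀ (by norm_num) hz1.le _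
      have f5 : (3 / 10 : ℝ) ^ 5 ≤ z ^ 5 := pow_le_pow_left₀ (by norm_num) hz1.le _
      norm_num at f2 f3 f4 f5
      linarith
    have e2 : (1 - z) * (1 + z + z ^ 2 + z ^ 3 + z ^ 4 + z ^ 5 - 2 * Real.log 2) =
        2 - 2 * Real.log 2 * (1 - z) - 1 - z ^ 6 := by ring
    have e3 : ζ ≤ 1 - z := by linarith
    have e4 : ζ * (1 / 25) ≤
        (1 - z) * (1 + z + z ^ 2 + z ^ 3 + z ^ 4 + z ^ 5 - 2 * Real.log 2) :=
      mul_le_mul e3 e1 (by norm_num) (by linarith)
    linarith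
  have e1 : 1 + q ≤ (2 : ℝ) ^ z - 1 / 50 * ζ := by linarith
  have e2 : (2 : ℝ) ^ z * (1 - 1 / 100 * ζ) ≤ (2 : ℝ) ^ z * Real.exp (-(1 / 100 * ζ)) := by
    have := Real.add_one_le_exp (-(1 / 100 * ζ))
    apply mul_le_mul_of_nonneg_left _ (by positivity)
    linarith
  have e3 : (2 : ℝ) ^ z * (1 / 100 * ζ) ≤ 2 * (1 / 100 * ζ) :=
    mul_le_mul_of_nonneg_right h2z2 (by positivity)
  have e5 : (2 : ℝ) ^ z * (1 - 1 / 100 * ζ) = (2 : ℝ) ^ z - (2 : ℝ) ^ z * (1 / 100 * ζ) := by ring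
  linarith

theorem cube_le {z b : ℝ} (hz0 : 0 ≤ z) (hz1 : z ≤ 1) (hb0 : 0 ≤ b) (hb : b ≤ 1) :
    (z ^ 2 + b) ^ 3 ≤ z ^ 6 + 7 * b := by
  have hz2' : z ^ 2 ≤ 1 := pow_le_one₀ hz0 hz1
  have hz20 : 0 ≤ z ^ 2 := by positivity
  have e1 : (z ^ 2 + b) ^ 3 = z ^ 6 + b * (3 * (z ^ 2 * z ^ 2) + 3 * (z ^ 2 * b) + b * b)
    := by ring
  rw [e1]
  have e2 : z ^ 2 * z ^ 2 ≤ 1 := mul_le_one₀ hz2' hz20 hz2'
  have e3 : z ^ 2 * b ≤ 1 := mul_le_one₀ hz2' hb0 hb
  have e4 : b * b ≤ 1 := mul_le_one₀ hb hb0 hb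
  have e5 : b * (3 * (z ^ 2 * z ^ 2) + 3 * (z ^ 2 * b) + b * b) ≤ b * 7 :=
    mul_le_mul_of_nonneg_left (by linarith) hb0
  linarith

theorem mul_pow_le {a : ℝ} (ha0 : 0 ≤ a) (ha2 : a ≤ 1 / 2) {T : ℕ} (hT0 : 0 < T) :
    T * a ^ T ≤ 2 * a := by
  obtain ⟨u, rfl⟩ : ∃ u, T = u + 1 := ⟨T - 1, by omega⟩
  have h3 : a ^ u ≤ (1 / 2) ^ u := pow_le_pow_left₀ ha0 ha2 _
  have h4 : ((u + 1 : ℕ) : ℝ) ≤ 2 ^ (u + 1) := by
    exact_mod_cast (Nat.lt_two_pow_self).le
  have h5 : (2 : ℝ) ^ (u + 1) * (1 / 2) ^ u = 2 := by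
    rw [pow_succ, mul_assoc, mul_comm (2 : ℝ), ← mul_assoc, ← mul_pow]; norm_num
  calc ((u + 1 : ℕ) : ℝ) * a ^ (u + 1) ≤ 2 ^ (u + 1) * (a ^ u * a) := by
        rw [pow_succ a]; gcongr
    _ ≤ 2 ^ (u + 1) * ((1 / 2) ^ u * a) := by gcongr
    _ = 2 * a := by rw [← mul_assoc, h5]

theorem t_AN3 : S_AN3 := by
  intro k hk ζ ε hζ hε
  set c : ℝ := 1 / 100 * ζ with hc
  have hc0 : 0 < c := by positivity
  obtain ⟨r₁, hr₁⟩ := exp_small (c := c) hc0
    (δ := min (1 / 4) (ε / 4)) (lt_min (by norm_num) (by positivity))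
  obtain ⟨r₂, hr₂⟩ := exp_small (c := Real.log 2) (Real.log_pos (by norm_num))
    (δ := ζ / 350) (by positivity)
  refine ⟨max r₁ r₂, fun r hr T hT => ?_⟩
  have hE := hr₁ r ((le_max_left _ _).trans hr)
  have hE1 : Real.exp (-c * r) ≤ 1 / 4 := hE.trans (min_le_left _ _)
  have hE2 : Real.exp (-c * r) ≤ ε / 4 := hE.trans (min_le_right _ _)
  have hF := hr₂ r ((le_max_right _ _).trans hr)
  set v : ℝ := (2 : ℝ) ^ r with hv
  have hv0 : 0 < v := by positivity
  have hv1 : 1 ≤ v := one_le_pow₀ (by norm_num)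
  have hvc : (((2 ^ r : ℕ)) : ℝ) = v := by rw [hv]; push_cast; rfl
  have hvF : 1 / v ≤ ζ / 350 := by
    have : Real.exp (-Real.log 2 * r) = 1 / v := by
      rw [neg_mul, Real.exp_neg, mul_comm, Real.exp_nat_mul, Real.exp_log (by norm_num), one_div]
    rw [← this]; exact hF
  set a : ℝ := 2 * Real.exp (-c * r) with ha
  have ha0 : 0 ≤ a := by positivity
  have ha2 : a ≤ 1 / 2 := by rw [ha]; linarith
  have haε : 2 * a ≤ ε := by rw [ha]; linarith
  have hterm : ∀ s ∈ (range T).filter (fun s : ℕ => 3 / 10 < (s : ℝ) / T ∧ (s : ℝ) / T ≤ 1 - ζ),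
      tm k r T s ≤ a ^ T := by
    intro s hs
    rw [mem_filter, mem_range] at hs
    obtain ⟨hsT, hz1, hz2⟩ := hs
    have hT0 : 0 < T := by omega
    have hT0' : (0 : ℝ) < T := by exact_mod_cast hT0
    set z : ℝ := (s : ℝ) / T with hz
    have hz0 : 0 < z := by linarith
    have hzl1 : z ≤ 1 := by linarith
    have hsz : (s : ℝ) = z * T := by rw [hz]; field_simp
    have hq : qq T (2 ^ r) s ≤ z ^ 2 + 1 / v := by
      refine qq_le.trans ?_
      rw [hvc]
    have hq0 : 0 ≤ qq T (2 ^ r) s := qq_nonneg hsT.le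
    have hq1 : qq T (2 ^ r) s ≤ 1 := qq_le_one hsT.le (Nat.one_le_two_pow)
    have hiv : 1 / v ≤ 1 := by
      rw [div_le_one hv0]; exact hv1
    have hiv0 : 0 < 1 / v := by positivity
    have hqk : qq T (2 ^ r) s ^ k ≤ z ^ 6 + 1 / 50 * ζ := by
      calc qq T (2 ^ r) s ^ k ≤ qq T (2 ^ r) s ^ 3 := pow_le_pow_of_le_one hq0 hq1 hk
        _ ≤ (z ^ 2 + 1 / v) ^ 3 := pow_le_pow_left₀ hq0 hq _
        _ ≤ z ^ 6 + 7 * (1 / v) := cube_le hz0.le hzl1 hiv0.le hiv
        _ ≤ z ^ 6 + 1 / 50 * ζ := by linarith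
    have hbase : 1 + qq T (2 ^ r) s ^ k ≤ (2 : ℝ) ^ z * Real.exp (-c) := base_le hζ hz1 hz2 hqk
    have hpow : (1 + qq T (2 ^ r) s ^ k) ^ (r * T) ≤ v ^ s * Real.exp (-c * r) ^ T := by
      calc (1 + qq T (2 ^ r) s ^ k) ^ (r * T)
          ≤ ((2 : ℝ) ^ z * Real.exp (-c)) ^ (r * T) := pow_le_pow_left₀ (by positivity) hbase _
        _ = ((2 : ℝ) ^ z) ^ (r * T) * Real.exp (-c) ^ (r * T) := by rw [mul_pow]
        _ = v ^ s * Real.exp (-c * r) ^ T := by
            congr 1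
            · rw [← Real.rpow_natCast ((2 : ℝ) ^ z), ← Real.rpow_mul (by norm_num), hv, ← pow_mul,
                ← Real.rpow_natCast (2 : ℝ) (r * s)]
              congr 1
              push_cast
              rw [hsz]; ring
            · rw [pow_mul, ← Real.exp_nat_mul]
              congr 2
              ring
    have hpr : pr T (2 ^ r) s ≤ 2 ^ T / v ^ s := by
      refine (pr_le hsT.le (Nat.one_le_two_pow)).trans ?_
      rw [hvc]
      gcongr
      exact_mod_cast Nat.choose_le_two_pow _ _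
    unfold tm
    calc pr T (2 ^ r) s * (1 + qq T (2 ^ r) s ^ k) ^ (r * T)
        ≤ 2 ^ T / v ^ s * (v ^ s * Real.exp (-c * r) ^ T) := by
          gcongr
      _ = 2 ^ T * Real.exp (-c * r) ^ T := by
          have : v ^ s ≠ 0 := by positivity
          field_simp
      _ = a ^ T := by rw [ha, mul_pow]
  rcases Nat.eq_zero_or_pos T with hT0 | hT0
  · rw [hT0]; simpa using hε.le
  calc ∑ s ∈ (range T).filter (fun s : ℕ => 3 / 10 < (s : ℝ) / T ∧ (s : ℝ) / T ≤ 1 - ζ),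
        tm k r T s
      ≤ ∑ s ∈ (range T).filter (fun s : ℕ => 3 / 10 < (s : ℝ) / T ∧ (s : ℝ) / T ≤ 1 - ζ),
        a ^ T := sum_le_sum hterm
    _ ≤ ∑ s ∈ range T, a ^ T := by
        apply sum_le_sum_of_subset_of_nonneg (filter_subset _ _)
        intros; positivity
    _ = T * a ^ T := by simp
    _ ≤ 2 * a := mul_pow_le ha0 ha2 hT0
    _ ≤ ε := haε

/-- the elementary inequality behind the last range -/
theorem one_sub_pow {y : ℝ} (hy0 : 0 ≤ y) (hy1 : y ≤ 1) (k : ℕ) :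
    k * y * (1 - k * y) ≤ 1 - (1 - y) ^ k := by
  have h1 : 1 + (k : ℝ) * y ≤ (1 + y) ^ k := one_add_mul_le_pow (by linarith) k
  have h2 : (1 - y) ^ k * (1 + y) ^ k ≤ 1 := by
    rw [← mul_pow]
    apply pow_le_one₀
    · nlinarith
    · nlinarith
  have h3 : 0 ≤ (1 - y) ^ k := pow_nonneg (by linarith) k
  have h4 : 0 ≤ (k : ℝ) * y := by positivity
  set x : ℝ := (k : ℝ) * y with hx
  have h5 : (1 - y) ^ k * (1 + x) ≤ 1 := le_trans (mul_le_mul_of_nonneg_left h1 h3) h2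
  have h6 : (1 - y) ^ k ≤ 1 / (1 + x) := by
    rw [le_div_iff₀ (by linarith)]
    exact h5
  have h7 : 1 / (1 + x) ≤ 1 - x + x ^ 2 := by
    rw [div_le_iff₀ (by linarith)]
    have : (1 - x + x ^ 2) * (1 + x) = 1 + x ^ 3 := by ring
    rw [this]
    have : 0 ≤ x ^ 3 := by positivity
    linarith
  nlinarith

theorem t_AN4 : S_AN4 := by
  intro k hk
  have hk0 : (3 : ℝ) ≤ k := by exact_mod_cast hk
  have hkp : (0 : ℝ) < k := by linarith
  refine ⟨1 / (100 * k), by positivity, fun ε hε => ?_⟩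
  set ζ : ℝ := 1 / (100 * k) with hζ
  have hkζ : k * ζ = 1 / 100 := by rw [hζ]; field_simp
  have hζ0 : 0 < ζ := by positivity
  have hζ1 : ζ ≤ 1 / 300 := by nlinarith
  obtain ⟨r₁, hr₁⟩ := exp_small (c := 1 / 10) (by norm_num)
    (δ := min (1 / 2) (ε / 4)) (lt_min (by norm_num) (by positivity))
  refine ⟨max r₁ 7, fun r hr T hT => ?_⟩
  have hE := hr₁ r ((le_max_left _ _).trans hr)
  have hr7 : 7 ≤ r := (le_max_right _ _).trans hr
  have hE1 : Real.exp (-(1 / 10) * r) ≤ 1 / 2 := hE.trans (min_le_left _ _)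
  have hE2 : Real.exp (-(1 / 10) * r) ≤ ε / 4 := hE.trans (min_le_right _ _)
  set v : ℝ := (2 : ℝ) ^ r with hv
  have hv0 : 0 < v := by positivity
  have hv100 : 100 ≤ v := by
    calc (100 : ℝ) ≤ 2 ^ 7 := by norm_num
      _ ≤ v := pow_le_pow_right₀ (by norm_num) hr7
  have hvc : (((2 ^ r : ℕ)) : ℝ) = v := by rw [hv]; push_cast; rfl
  set a : ℝ := Real.exp (-(1 / 10) * r) with ha
  have ha0 : 0 ≤ a := by positivity
  have hTle : (T : ℝ) ≤ v ^ k := by
    have : T ≤ 2 ^ (k * r) := hT ▸ Nat.div_le_self _ _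
    calc (T : ℝ) ≤ ((2 ^ (k * r) : ℕ) : ℝ) := by exact_mod_cast this
      _ = v ^ k := by push_cast; rw [hv, ← pow_mul, mul_comm]
  have hterm : ∀ s ∈ (range T).filter (fun s : ℕ => 1 - ζ < (s : ℝ) / T),
      tm k r T s ≤ a ^ (T - s) := by
    intro s hs
    rw [mem_filter, mem_range] at hs
    obtain ⟨hsT, hz1⟩ := hs
    obtain ⟨w, hw⟩ : ∃ w, T = s + w := ⟨T - s, by omega⟩
    have hw0 : 0 < w := by omega
    have hTs : T - s = w := by omega
    rw [hTs]
    have hT0 : 0 < T := by omega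
    have hT0' : (0 : ℝ) < T := by exact_mod_cast hT0
    set x : ℝ := (w : ℝ) / T with hx
    have hx0 : 0 < x := by positivity
    have hwx : (w : ℝ) = x * T := by rw [hx]; field_simp
    have hzx : (s : ℝ) / T = 1 - x := by
      have : (s : ℝ) = T - w := by rw [hw]; push_cast; ring
      rw [this, hx]; field_simp
    rw [hzx] at hz1
    have hxζ : x < ζ := by linarith
    set y : ℝ := x * (2 - x) * (1 - 1 / v) with hy
    have hiv : 1 / v ≤ 1 / 100 := one_div_le_one_div_of_le (by norm_num) hv100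
    have hiv0 : 0 < 1 / v := by positivity
    have hq : qq T (2 ^ r) s = 1 - y := by
      unfold qq
      rw [hvc, hzx, hy]
      field_simp
      ring
    have hy0 : 0 ≤ y := by
      rw [hy]
      apply mul_nonneg (mul_nonneg hx0.le (by linarith)) (by linarith)
    have hy2 : y ≤ 2 * x := by
      rw [hy]
      calc x * (2 - x) * (1 - 1 / v) ≤ x * (2 - x) * 1 := by
            apply mul_le_mul_of_nonneg_left (by linarith)
            exact mul_nonneg hx0.le (by linarith)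
        _ ≤ 2 * x := by nlinarith
    have hylow : 197 / 100 * x ≤ y := by
      rw [hy]
      have e1 : 199 / 100 * (99 / 100) ≤ (2 - x) * (1 - 1 / v) :=
        mul_le_mul (by linarith) (by linarith) (by norm_num) (by linarith)
      have e2 : 197 / 100 ≤ (2 - x) * (1 - 1 / v) := le_trans (by norm_num) e1
      calc 197 / 100 * x = x * (197 / 100) := by ring
        _ ≤ x * ((2 - x) * (1 - 1 / v)) := mul_le_mul_of_nonneg_left e2 hx0.le
        _ = x * (2 - x) * (1 - 1 / v) := by ring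
    have hky : k * y ≤ 1 / 50 := by
      calc k * y ≤ k * (2 * ζ) := by
            apply mul_le_mul_of_nonneg_left _ hkp.le
            linarith
        _ = 1 / 50 := by rw [mul_left_comm, hkζ]; norm_num
    have h1q : 96 / 100 * (2 * (k * x)) ≤ 1 - (1 - y) ^ k := by
      refine le_trans ?_ (one_sub_pow hy0 (by nlinarith) k)
      have e1 : k * y * (49 / 50) ≤ k * y * (1 - k * y) := by
        apply mul_le_mul_of_nonneg_left (by linarith)
        positivity
      have e2 : k * (197 / 100 * x) ≤ k * y := mul_le_mul_of_nonneg_left hylow hkp.le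
      have e3 : 0 ≤ k * x := by positivity
      linarith
    have hpow : ((1 + qq T (2 ^ r) s ^ k) / 2) ^ (r * T) ≤
        Real.exp (-(96 / 100 * k * r)) ^ w := by
      rw [hq]
      calc ((1 + (1 - y) ^ k) / 2) ^ (r * T)
          ≤ (Real.exp (-(96 / 100 * (k * x)))) ^ (r * T) := by
            apply pow_le_pow_left₀
            · have : 0 ≤ (1 - y) ^ k := pow_nonneg (by nlinarith) k
              linarith
            · have := Real.add_one_le_exp (-(96 / 100 * (k * x)))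
              linarith
        _ = Real.exp (-(96 / 100 * k * r)) ^ w := by
            rw [← Real.exp_nat_mul, ← Real.exp_nat_mul]
            congr 1
            push_cast
            rw [hwx]; ring
    have hpr : pr T (2 ^ r) s * 2 ^ (r * T) ≤ (v ^ (k + 1)) ^ w := by
      unfold pr
      rw [hvc]
      have e1 : (2 : ℝ) ^ (r * T) = v ^ T := by rw [hv, ← pow_mul]
      rw [e1, div_mul_cancel₀ _ (by positivity), hTs]
      have e2 : (T.choose s : ℝ) ≤ (T : ℝ) ^ w := by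
        have : T.choose s = T.choose w := by
          rw [hw, Nat.choose_symm_add]
        rw [this]
        exact_mod_cast Nat.choose_le_pow T w
      calc (T.choose s : ℝ) * (v - 1) ^ w ≤ (v ^ k) ^ w * v ^ w := by
            apply mul_le_mul
            · exact e2.trans (pow_le_pow_left₀ (by positivity) hTle _)
            · exact pow_le_pow_left₀ (by linarith) (by linarith) _
            · exact pow_nonneg (by linarith) _
            · positivity
        _ = (v ^ (k + 1)) ^ w := by rw [← mul_pow, pow_succ v k]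
    have hv2 : v ^ (k + 1) = Real.exp ((k + 1) * r * Real.log 2) := by
      rw [hv, ← pow_mul]
      rw [show ((k : ℝ) + 1) * r * Real.log 2 = ((r * (k + 1) : ℕ) : ℝ) * Real.log 2 by
        push_cast; ring]
      rw [Real.exp_nat_mul, Real.exp_log (by norm_num)]
    unfold tm
    calc pr T (2 ^ r) s * (1 + qq T (2 ^ r) s ^ k) ^ (r * T)
        = pr T (2 ^ r) s * 2 ^ (r * T) * ((1 + qq T (2 ^ r) s ^ k) / 2) ^ (r * T) := by
          rw [div_pow]
          field_simp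
      _ ≤ (v ^ (k + 1)) ^ w * Real.exp (-(96 / 100 * k * r)) ^ w := by
          apply mul_le_mul hpr hpow _ (by positivity)
          have := qq_nonneg (v := 2 ^ r) hsT.le
          positivity
      _ = (v ^ (k + 1) * Real.exp (-(96 / 100 * k * r))) ^ w := by rw [mul_pow]
      _ ≤ a ^ w := by
          apply pow_le_pow_left₀ (by positivity)
          rw [hv2, ← Real.exp_add, ha]
          apply Real.exp_le_exp.2
          have hlog := Real.log_two_lt_d9
          have hr0 : (0 : ℝ) ≤ r := by positivity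
          have e1 : (k + 1) * r * Real.log 2 ≤ (k + 1) * r * (6932 / 10000) := by
            apply mul_le_mul_of_nonneg_left (by linarith)
            positivity
          have e2 : 3 * (r : ℝ) ≤ k * r := mul_le_mul_of_nonneg_right hk0 hr0
          nlinarith
  have hrefl : ∑ s ∈ range T, (2 * a * (1 / 2) ^ (T - s)) ≤ 4 * a := by
    rw [← mul_sum]
    have e1 : ∑ s ∈ range T, (1 / 2 : ℝ) ^ (T - s) ≤ ∑ s ∈ range T, (1 / 2 : ℝ) ^ (T - 1 - s) := by
      apply sum_le_sum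
      intro s _
      apply pow_le_pow_of_le_one (by norm_num) (by norm_num)
      omega
    rw [sum_range_reflect (fun j => (1 / 2 : ℝ) ^ j) T] at e1
    have e2 := sum_geometric_two_le T
    nlinarith
  calc ∑ s ∈ (range T).filter (fun s : ℕ => 1 - ζ < (s : ℝ) / T), tm k r T s
      ≤ ∑ s ∈ (range T).filter (fun s : ℕ => 1 - ζ < (s : ℝ) / T), 2 * a * (1 / 2) ^ (T - s) := by
        apply sum_le_sum
        intro s hs
        refine (hterm s hs).trans ?_
        have hsT := mem_range.1 (mem_filter.1 hs).1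
        obtain ⟨u, hu⟩ : ∃ u, T - s = u + 1 := ⟨T - s - 1, by omega⟩
        rw [hu]
        have h3 : a ^ u ≤ (1 / 2) ^ u := pow_le_pow_left₀ ha0 hE1 _
        rw [pow_succ, pow_succ]
        nlinarith [pow_nonneg ha0 u]
    _ ≤ ∑ s ∈ range T, 2 * a * (1 / 2) ^ (T - s) := by
        apply sum_le_sum_of_subset_of_nonneg (filter_subset _ _)
        intros; positivity
    _ ≤ 4 * a := hrefl
    _ ≤ ε := by linarith

end Pool.Agent.W973.BpAN
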