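import Mathlib

/-!
Subtask Bellows-S1 (for helper576): if a function is constant along all `C^1` arcs inside a real
algebraic set (intersected with an open set), then its image on that set is countable.
-/

open MvPolynomial Set

namespace Pool.Agent.W973

variable {ι : Type} [Fintype ι]

theorem hasFDerivAt_eval (p : MvPolynomial ι ℝ) (x : ι → ℝ) :
    HasFDerivAt (fun x : ι → ℝ => eval x p)
      (∑ j, (eval x (pderiv j p)) • (ContinuousLinearMap.proj j : (ι → ℝ) →L[ℝ] ℝ)) x := by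
  classical
  induction p using MvPolynomial.induction_on with
  | C a => simpa using hasFDerivAt_const a x
  | add p q hp hq =>
    simp only [map_add, add_smul, Finset.sum_add_distrib]
    exact hp.add hq
  | mul_X p i hp =>
    have h := hp.mul (hasFDerivAt_apply (𝕜 := ℝ) i x)
    simp only [map_mul, eval_X]
    refine h.congr_fderiv ?_
    ext v
    simp only [Derivation.leibniz, pderiv_X, smul_eq_mul, map_add, map_mul, eval_X,
      add_apply, smul_apply, sum_apply,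
      ContinuousLinearMap.proj_apply, smul_eq_mul, Finset.mul_sum]
    simp only [add_mul, Finset.sum_add_distrib]
    congr 1
    · rw [Finset.sum_eq_single i]
      · simp
      · intro b _ hb
        simp [hb.symm]
      · simp
    · refine Finset.sum_congr rfl fun j _ => ?_
      ring

theorem hasDerivAt_eval_comp (p : MvPolynomial ι ℝ) (γ : ℝ → ι → ℝ) (γ' : ι → ℝ) (s : ℝ)
    (h : HasDerivAt γ γ' s) :
    HasDerivAt (fun s => eval (γ s) p) (∑ j, eval (γ s) (pderiv j p) * γ' j) s := by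
  have h1 := (hasFDerivAt_eval p (γ s)).comp_hasDerivAt s h
  have h2 : (∑ j, (eval (γ s) (pderiv j p)) • (ContinuousLinearMap.proj j : (ι → ℝ) →L[ℝ] ℝ)) γ'
      = ∑ j, eval (γ s) (pderiv j p) * γ' j := by
    simp
  rw [h2] at h1
  exact h1

theorem continuous_eval_poly (p : MvPolynomial ι ℝ) :
    Continuous (fun x : ι → ℝ => eval x p) :=
  continuous_iff_continuousAt.2 fun x => (hasFDerivAt_eval p x).continuousAt

theorem contDiff_eval_poly (p : MvPolynomial ι ℝ) {n : WithTop ℕ∞} :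
    ContDiff ℝ n (fun x : ι → ℝ => eval x p) := by
  induction p using MvPolynomial.induction_on with
  | C a => simpa using contDiff_const
  | add p q hp hq =>
    simp only [map_add]
    exact hp.add hq
  | mul_X p i hp =>
    simp only [map_mul, eval_X]
    exact hp.mul (contDiff_apply ℝ ℝ i)

/-- The Jacobian minor of the polynomials `F` with respect to the coordinates `J`. -/
noncomputable def minor {ρ : ℕ} (F : Fin ρ → MvPolynomial ι ℝ) (J : Fin ρ → ι) :
    MvPolynomial ι ℝ :=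
  Matrix.det (Matrix.of fun a b : Fin ρ => pderiv (J b) (F a))

omit [Fintype ι] in
theorem minor_cons {ρ : ℕ} (F : Fin ρ → MvPolynomial ι ℝ) (J : Fin ρ → ι)
    (h : MvPolynomial ι ℝ) : ∃ c : Fin ρ → MvPolynomial ι ℝ, ∀ j : ι,
      minor (Fin.cons h F : Fin (ρ+1) → MvPolynomial ι ℝ) (Fin.cons j J : Fin (ρ+1) → ι) =
        pderiv j h * minor F J + ∑ l, c l * pderiv j (F l) := by
  refine ⟨fun l => (-1) ^ ((l.succ : Fin (ρ+1)) : ℕ) * Matrix.det (Matrix.of fun a b : Fin ρ =>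
    pderiv (J b) ((Fin.cons h F : Fin (ρ+1) → MvPolynomial ι ℝ) (l.succ.succAbove a))), ?_⟩
  intro j
  unfold minor
  rw [Matrix.det_succ_column_zero, Fin.sum_univ_succ]
  have e0 : (Matrix.of fun a b : Fin (ρ+1) => pderiv ((Fin.cons j J : Fin (ρ+1) → ι) b)
      ((Fin.cons h F : Fin (ρ+1) → MvPolynomial ι ℝ) a)).submatrix (Fin.succAbove 0) Fin.succ =
      Matrix.of fun a b : Fin ρ => pderiv (J b) (F a) := by
    ext1 a b
    simp only [Matrix.submatrix_apply, Matrix.of_apply, Fin.zero_succAbove, Fin.cons_succ]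
  have e1 : ∀ l : Fin ρ, (Matrix.of fun a b : Fin (ρ+1) =>
      pderiv ((Fin.cons j J : Fin (ρ+1) → ι) b)
      ((Fin.cons h F : Fin (ρ+1) → MvPolynomial ι ℝ) a)).submatrix (Fin.succAbove l.succ) Fin.succ =
      Matrix.of fun a b : Fin ρ =>
        pderiv (J b) ((Fin.cons h F : Fin (ρ+1) → MvPolynomial ι ℝ) (l.succ.succAbove a)) := by
    intro l
    ext1 a b
    simp only [Matrix.submatrix_apply, Matrix.of_apply, Fin.cons_succ]
  rw [e0]
  have e2 : ∀ l : Fin ρ, (Matrix.of fun a b : Fin (ρ+1) =>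
      pderiv ((Fin.cons j J : Fin (ρ+1) → ι) b)
      ((Fin.cons h F : Fin (ρ+1) → MvPolynomial ι ℝ) a)) l.succ 0 = pderiv j (F l) := by
    intro l
    simp only [Matrix.of_apply, Fin.cons_zero, Fin.cons_succ]
  have e3 : (Matrix.of fun a b : Fin (ρ+1) =>
      pderiv ((Fin.cons j J : Fin (ρ+1) → ι) b)
      ((Fin.cons h F : Fin (ρ+1) → MvPolynomial ι ℝ) a)) 0 0 = pderiv j h := by
    simp only [Matrix.of_apply, Fin.cons_zero]
  rw [e3, Fin.val_zero, pow_zero, one_mul]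
  refine congrArg₂ (· + ·) rfl (Finset.sum_congr rfl fun l _ => ?_)
  rw [e1, e2]
  exact mul_right_comm _ _ _

/-- The linear ODE argument: a polynomial of the ideal `I` vanishes along the arc. -/
theorem ode_zero (I : Ideal (MvPolynomial ι ℝ)) {ρ : ℕ} (F : Fin ρ → MvPolynomial ι ℝ)
    (J : Fin ρ → ι)
    (hmax : ∀ (h : MvPolynomial ι ℝ) (j : ι), h ∈ I →
      minor (Fin.cons h F : Fin (ρ+1) → MvPolynomial ι ℝ) (Fin.cons j J : Fin (ρ+1) → ι) ∈ I)
    (γ γ' : ℝ → ι → ℝ) (hγ : ∀ s ∈ Icc (0:ℝ) 1, HasDerivAt γ (γ' s) s)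
    (hγ' : ContinuousOn γ' (Icc 0 1)) (h0 : ∀ p ∈ I, eval (γ 0) p = 0)
    (hFl : ∀ s ∈ Icc (0:ℝ) 1, ∀ l, eval (γ s) (F l) = 0)
    (hΔ : ∀ s ∈ Icc (0:ℝ) 1, eval (γ s) (minor F J) ≠ 0) :
    ∀ s ∈ Icc (0:ℝ) 1, ∀ p ∈ I, eval (γ s) p = 0 := by
  classical
  -- derivative of `F l` along the arc is zero
  have hF' : ∀ s ∈ Icc (0:ℝ) 1, ∀ l, ∑ j, eval (γ s) (pderiv j (F l)) * γ' s j = 0 := by
    intro s hs l
    have h1 : HasDerivWithinAt (fun s => eval (γ s) (F l))
        (∑ j, eval (γ s) (pderiv j (F l)) * γ' s j) (Icc 0 1) s :=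
      (hasDerivAt_eval_comp (F l) γ (γ' s) s (hγ s hs)).hasDerivWithinAt
    have h2 : HasDerivWithinAt (fun s => eval (γ s) (F l)) 0 (Icc 0 1) s := by
      refine (hasDerivWithinAt_const s (Icc (0:ℝ) 1) (0:ℝ)).congr ?_ ?_
      · intro t ht
        exact hFl t ht l
      · exact hFl s hs l
    exact (uniqueDiffOn_Icc (zero_lt_one' ℝ) s hs).eq_deriv _ h1 h2
  -- generators
  obtain ⟨n, g, hg⟩ := Submodule.fg_iff_exists_fin_generating_family.1 (IsNoetherian.noetherian I)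
  have hgI : ∀ a, g a ∈ I := fun a => hg ▸ Submodule.subset_span (mem_range_self a)
  have hA : ∀ a j, ∃ A : Fin n → MvPolynomial ι ℝ,
      minor (Fin.cons (g a) F : Fin (ρ+1) → MvPolynomial ι ℝ) (Fin.cons j J : Fin (ρ+1) → ι) =
        ∑ b, A b * g b := by
    intro a j
    have h1 := hmax (g a) j (hgI a)
    rw [← hg] at h1
    obtain ⟨A, hA⟩ := (Submodule.mem_span_range_iff_exists_fun _).1 h1
    exact ⟨A, by simpa using hA.symm⟩
  choose A hA using hA
  set H : ℝ → Fin n → ℝ := fun s a => eval (γ s) (g a) with hHdef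
  set H' : ℝ → Fin n → ℝ := fun s a => ∑ j, eval (γ s) (pderiv j (g a)) * γ' s j with hH'def
  have hHd : ∀ s ∈ Icc (0:ℝ) 1, HasDerivAt H (H' s) s := by
    intro s hs
    rw [hasDerivAt_pi]
    intro a
    exact hasDerivAt_eval_comp (g a) γ (γ' s) s (hγ s hs)
  have hkey : ∀ s ∈ Icc (0:ℝ) 1, ∀ a, eval (γ s) (minor F J) * H' s a =
      ∑ j, ∑ b, eval (γ s) (A a j b) * γ' s j * H s b := by
    intro s hs a
    obtain ⟨c, hc⟩ := minor_cons F J (g a)
    have h1 : ∀ j, eval (γ s) (pderiv j (g a)) * eval (γ s) (minor F J) * γ' s j =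
        ∑ b, eval (γ s) (A a j b) * γ' s j * H s b
          - ∑ l, eval (γ s) (c l) * (eval (γ s) (pderiv j (F l)) * γ' s j) := by
      intro j
      have h2 := hc j
      rw [hA] at h2
      have h3 := congrArg (eval (γ s)) h2
      simp only [map_sum, map_mul, map_add] at h3
      have h4 : eval (γ s) (pderiv j (g a)) * eval (γ s) (minor F J) =
        ∑ b, eval (γ s) (A a j b) * eval (γ s) (g b)
          - ∑ l, eval (γ s) (c l) * eval (γ s) (pderiv j (F l)) := by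
        rw [h3]; ring
      rw [h4, sub_mul, Finset.sum_mul, Finset.sum_mul]
      congr 1
      · refine Finset.sum_congr rfl fun b _ => ?_
        simp only [hHdef]
        ring
      · refine Finset.sum_congr rfl fun b _ => ?_
        ring
    calc eval (γ s) (minor F J) * H' s a
        = ∑ j, eval (γ s) (pderiv j (g a)) * eval (γ s) (minor F J) * γ' s j := by
          simp only [hH'def, Finset.mul_sum]
          refine Finset.sum_congr rfl fun b _ => ?_
          ring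
      _ = ∑ j, ∑ b, eval (γ s) (A a j b) * γ' s j * H s b
          - ∑ l, eval (γ s) (c l) * ∑ j, (eval (γ s) (pderiv j (F l)) * γ' s j) := by
          rw [Finset.sum_congr rfl fun j _ => h1 j, Finset.sum_sub_distrib]
          congr 1
          rw [Finset.sum_comm]
          simp only [Finset.mul_sum]
      _ = ∑ j, ∑ b, eval (γ s) (A a j b) * γ' s j * H s b := by
          have h5 : ∑ l, eval (γ s) (c l) * ∑ j, (eval (γ s) (pderiv j (F l)) * γ' s j) = 0 :=
            Finset.sum_eq_zero fun l _ => by rw [hF' s hs l, mul_zero]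
          rw [h5, sub_zero]
  have hγc : ContinuousOn γ (Icc 0 1) := fun s hs => (hγ s hs).continuousAt.continuousWithinAt
  have hevc : ∀ p : MvPolynomial ι ℝ, ContinuousOn (fun s => eval (γ s) p) (Icc 0 1) :=
    fun p => (continuous_eval_poly p).comp_continuousOn hγc
  have hγjc : ∀ j, ContinuousOn (fun s => γ' s j) (Icc 0 1) :=
    fun j => (continuous_apply j).comp_continuousOn hγ'
  -- the bound
  set κ : ℝ → ℝ := fun s => |eval (γ s) (minor F J)|⁻¹ *
    ∑ a, ∑ j, ∑ b, |eval (γ s) (A a j b)| * |γ' s j| with hκ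
  have hκc : ContinuousOn κ (Icc 0 1) := by
    refine ContinuousOn.mul ?_ ?_
    · refine ContinuousOn.inv₀ (hevc _).abs ?_
      intro s hs
      exact abs_ne_zero.2 (hΔ s hs)
    · refine continuousOn_finsetSum _ fun a _ => continuousOn_finsetSum _ fun j _ =>
        continuousOn_finsetSum _ fun b _ => ?_
      exact (hevc _).abs.mul (hγjc j).abs
  obtain ⟨K, hK⟩ := isCompact_Icc.exists_bound_of_continuousOn hκc
  have hbound : ∀ s ∈ Ico (0:ℝ) 1, ‖H' s‖ ≤ K * ‖H s‖ := by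
    intro s hs
    have hs' : s ∈ Icc (0:ℝ) 1 := ⟨hs.1, hs.2.le⟩
    have hκ0 : 0 ≤ κ s := by
      simp only [hκ]
      positivity
    have hKs : κ s ≤ K := (le_abs_self _).trans (by simpa using hK s hs')
    refine le_trans ?_ (mul_le_mul_of_nonneg_right hKs (norm_nonneg _))
    rw [pi_norm_le_iff_of_nonneg (by positivity)]
    intro a
    have h1 := hkey s hs' a
    have h2 : H' s a = (eval (γ s) (minor F J))⁻¹ *
        ∑ j, ∑ b, eval (γ s) (A a j b) * γ' s j * H s b := by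
      rw [← h1, inv_mul_cancel_left₀ (hΔ s hs')]
    rw [h2, Real.norm_eq_abs, abs_mul, abs_inv]
    simp only [hκ]
    rw [mul_assoc]
    refine mul_le_mul_of_nonneg_left ?_ (by positivity)
    calc |∑ j, ∑ b, eval (γ s) (A a j b) * γ' s j * H s b|
        ≤ ∑ j, ∑ b, |eval (γ s) (A a j b)| * |γ' s j| * ‖H s‖ := by
          refine (Finset.abs_sum_le_sum_abs _ _).trans (Finset.sum_le_sum fun j _ => ?_)
          refine (Finset.abs_sum_le_sum_abs _ _).trans (Finset.sum_le_sum fun b _ => ?_)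
          rw [abs_mul, abs_mul]
          refine mul_le_mul_of_nonneg_left ?_ (by positivity)
          simpa using norm_le_pi_norm (H s) b
      _ = (∑ j, ∑ b, |eval (γ s) (A a j b)| * |γ' s j|) * ‖H s‖ := by
          simp only [Finset.sum_mul]
      _ ≤ (∑ a, ∑ j, ∑ b, |eval (γ s) (A a j b)| * |γ' s j|) * ‖H s‖ := by
          refine mul_le_mul_of_nonneg_right ?_ (norm_nonneg _)
          exact Finset.single_le_sum (f := fun a => ∑ j, ∑ b, |eval (γ s) (A a j b)| * |γ' s j|)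
            (fun a _ => by positivity) (Finset.mem_univ a)
  have hzero := eq_zero_of_abs_deriv_le_mul_abs_self_of_eq_zero_right (f := H) (f' := H')
    (K := K) (a := 0) (b := 1)
    (fun s hs => (hHd s hs).continuousAt.continuousWithinAt)
    (fun s hs => (hHd s ⟨hs.1, hs.2.le⟩).hasDerivWithinAt)
    (by ext a; exact h0 _ (hgI a)) hbound
  intro s hs p hp
  rw [← hg] at hp
  obtain ⟨c, hc⟩ := (Submodule.mem_span_range_iff_exists_fun _).1 hp
  rw [← hc]
  simp only [smul_eq_mul, map_sum, map_mul]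
  refine Finset.sum_eq_zero fun a _ => ?_
  have : H s a = 0 := by rw [hzero s hs]; rfl
  simp only [hHdef] at this
  rw [this, mul_zero]

theorem local_const (I : Ideal (MvPolynomial ι ℝ)) {U : Set (ι → ℝ)}
    (hU : IsOpen U) (f : (ι → ℝ) → ℝ)
    (hf : ∀ γ γ' : ℝ → (ι → ℝ), (∀ s ∈ Set.Icc (0:ℝ) 1, HasDerivAt γ (γ' s) s) →
      ContinuousOn γ' (Set.Icc 0 1) →
      (∀ s ∈ Set.Icc (0:ℝ) 1, γ s ∈ U ∧ ∀ p ∈ I, eval (γ s) p = 0) →
      f (γ 0) = f (γ 1))
    {ρ : ℕ} (F : Fin ρ → MvPolynomial ι ℝ) (J : Fin ρ → ι) (hJ : Function.Injective J)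
    (hF : ∀ l, F l ∈ I)
    (hmax : ∀ (h : MvPolynomial ι ℝ) (j : ι), h ∈ I →
      minor (Fin.cons h F : Fin (ρ+1) → MvPolynomial ι ℝ) (Fin.cons j J : Fin (ρ+1) → ι) ∈ I)
    (y : ι → ℝ) (hyU : y ∈ U) (hy : ∀ p ∈ I, eval y p = 0)
    (hΔ : eval y (minor F J) ≠ 0) :
    ∀ᶠ y' in nhds y, (∀ p ∈ I, eval y' p = 0) → f y = f y' := by
  classical
  set Ψ : (ι → ℝ) → (ι → ℝ) :=
    fun x j => if h : ∃ l, J l = j then eval x (F h.choose) else x j with hΨ
  have hΨJ : ∀ x l, Ψ x (J l) = eval x (F l) := by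
    intro x l
    have h : ∃ l', J l' = J l := ⟨l, rfl⟩
    have h' : h.choose = l := hJ h.choose_spec
    simp only [hΨ, dif_pos h, h']
  have hΨn : ∀ x j, (¬ ∃ l, J l = j) → Ψ x j = x j := by
    intro x j h
    simp only [hΨ, dif_neg h]
  have hΨc : ContDiff ℝ 1 Ψ := by
    rw [contDiff_pi]
    intro j
    by_cases h : ∃ l, J l = j
    · obtain ⟨l, rfl⟩ := h
      simp only [hΨJ]
      exact contDiff_eval_poly _
    · simp only [hΨn _ _ h]
      exact contDiff_apply ℝ ℝ j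
  -- the derivative
  obtain ⟨L, hL⟩ : ∃ L, HasFDerivAt Ψ L y :=
    ⟨_, (hΨc.differentiable (by norm_num)).differentiableAt.hasFDerivAt⟩
  have hLJ : ∀ v l, L v (J l) = ∑ i, eval y (pderiv i (F l)) * v i := by
    intro v l
    have h1 := (hasFDerivAt_pi'.1 hL) (J l)
    simp only [hΨJ] at h1
    have h2 := h1.unique (hasFDerivAt_eval (F l) y)
    have h3 := DFunLike.congr_fun h2 v
    simpa using h3
  have hLn : ∀ v j, (¬ ∃ l, J l = j) → L v j = v j := by
    intro v j h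
    have h1 := (hasFDerivAt_pi'.1 hL) j
    simp only [hΨn _ _ h] at h1
    have h2 := h1.unique (hasFDerivAt_apply j y)
    have h3 := DFunLike.congr_fun h2 v
    simpa using h3
  have hLinj : Function.Injective L.toLinearMap := by
    rw [← LinearMap.ker_eq_bot, LinearMap.ker_eq_bot']
    intro v hv
    have hv' : ∀ j, L v j = 0 := fun j => by
      have := congrFun hv j
      simpa using this
    have hvn : ∀ j, (¬ ∃ l, J l = j) → v j = 0 := fun j h => by rw [← hLn v j h, hv']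
    have hsum : ∀ l, ∑ b, eval y (pderiv (J b) (F l)) * v (J b) = 0 := by
      intro l
      have h1 := hLJ v l
      rw [hv'] at h1
      rw [h1, ← Finset.sum_image (s := Finset.univ) (g := J)
        (f := fun i => eval y (pderiv i (F l)) * v i) (fun a _ b _ hab => hJ hab)]
      refine Finset.sum_subset (Finset.subset_univ _) fun i _ hi => ?_
      rw [hvn i ?_, mul_zero]
      rintro ⟨l', hl'⟩
      exact hi (Finset.mem_image.2 ⟨l', Finset.mem_univ _, hl'⟩)
    have hu : (fun b => v (J b)) = 0 := by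
      refine Matrix.eq_zero_of_mulVec_eq_zero
        (M := Matrix.of fun a b : Fin ρ => eval y (pderiv (J b) (F a))) ?_ ?_
      · have h2 : eval y (minor F J) =
            Matrix.det (Matrix.of fun a b : Fin ρ => eval y (pderiv (J b) (F a))) := by
          unfold minor
          rw [RingHom.map_det]
          rfl
        rwa [← h2]
      · ext l
        simpa [Matrix.mulVec, dotProduct] using hsum l
    ext j
    by_cases h : ∃ l, J l = j
    · obtain ⟨l, rfl⟩ := h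
      exact congrFun hu l
    · exact hvn j h
  set e : (ι → ℝ) ≃L[ℝ] (ι → ℝ) :=
    (LinearEquiv.ofInjectiveEndo L.toLinearMap hLinj).toContinuousLinearEquiv with he
  have heL : (e : (ι → ℝ) →L[ℝ] (ι → ℝ)) = L := by
    ext1 v
    rfl
  have hfd : HasFDerivAt Ψ (e : (ι → ℝ) →L[ℝ] (ι → ℝ)) y := by rw [heL]; exact hL
  have hcd : ContDiffAt ℝ 1 Ψ y := hΨc.contDiffAt
  have h1ne : (1 : WithTop ℕ∞) ≠ 0 := one_ne_zero
  set Φ := hcd.toOpenPartialHomeomorph Ψ hfd h1ne with hΦ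
  have hΦc : ∀ x, Φ x = Ψ x := fun x => rfl
  have hys : y ∈ Φ.source := hcd.mem_toOpenPartialHomeomorph_source hfd h1ne
  have hinv : ContDiffAt ℝ 1 Φ.symm (Ψ y) := hcd.to_localInverse hfd h1ne
  have hsy : Φ.symm (Ψ y) = y := Φ.left_inv hys
  have hyt : Ψ y ∈ Φ.target := Φ.map_source hys
  have hcs : ContinuousAt Φ.symm (Ψ y) := Φ.continuousAt_symm hyt
  have hN : ∀ᶠ z in nhds (Ψ y), z ∈ Φ.target ∧ ContDiffAt ℝ 1 Φ.symm z ∧ Φ.symm z ∈ U ∧
      eval (Φ.symm z) (minor F J) ≠ 0 := by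
    refine (Φ.open_target.eventually_mem hyt).and ((hinv.eventually (by simp)).and
      (Filter.Eventually.and ?_ ?_))
    · exact hcs.eventually (by rw [hsy]; exact hU.mem_nhds hyU)
    · have h3 : ContinuousAt (fun z => eval (Φ.symm z) (minor F J)) (Ψ y) :=
        ContinuousAt.comp (g := fun x => eval x (minor F J))
          (continuous_eval_poly _).continuousAt hcs
      refine h3.eventually_ne ?_
      simpa [hsy] using hΔ
  obtain ⟨r, hr, hball⟩ := Metric.eventually_nhds_iff_ball.1 hN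
  have hO : ∀ᶠ y' in nhds y, y' ∈ Φ.source ∧ Ψ y' ∈ Metric.ball (Ψ y) r := by
    refine (Φ.open_source.eventually_mem hys).and ?_
    exact hΨc.continuous.continuousAt.eventually (Metric.ball_mem_nhds _ hr)
  filter_upwards [hO] with y' hy' hy'I
  obtain ⟨hy's, hy'b⟩ := hy'
  set ℓ : ℝ → (ι → ℝ) := fun s => Ψ y + s • (Ψ y' - Ψ y) with hℓ
  have hℓb : ∀ s ∈ Icc (0:ℝ) 1, ℓ s ∈ Metric.ball (Ψ y) r := fun s hs =>
    (convex_ball _ _).add_smul_sub_mem (Metric.mem_ball_self hr) hy'b hs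
  have hℓd : ∀ s, HasDerivAt ℓ (Ψ y' - Ψ y) s := by
    intro s
    have h7 := ((hasDerivAt_id s).smul_const (Ψ y' - Ψ y)).const_add (Ψ y)
    rw [one_smul] at h7
    exact h7
  have hγd : ∀ s ∈ Icc (0:ℝ) 1, HasDerivAt (fun s => Φ.symm (ℓ s))
      ((fderiv ℝ Φ.symm (ℓ s)) (Ψ y' - Ψ y)) s := by
    intro s hs
    have h4 := (hball (ℓ s) (hℓb s hs)).2.1
    exact (h4.differentiableAt one_ne_zero).hasFDerivAt.comp_hasDerivAt s (hℓd s)
  have hγ'c : ContinuousOn (fun s => (fderiv ℝ Φ.symm (ℓ s)) (Ψ y' - Ψ y)) (Icc 0 1) := by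
    intro s hs
    have h4 := (hball (ℓ s) (hℓb s hs)).2.1
    have h5 : ContinuousAt (fderiv ℝ Φ.symm) (ℓ s) :=
      (h4.fderiv_right (m := 0) (by simp)).continuousAt
    have h6 : ContinuousAt (fun s => fderiv ℝ Φ.symm (ℓ s)) s :=
      ContinuousAt.comp (g := fderiv ℝ Φ.symm) h5 (hℓd s).continuousAt
    exact (h6.clm_apply continuousAt_const).continuousWithinAt
  have hΨγ : ∀ s ∈ Icc (0:ℝ) 1, Ψ (Φ.symm (ℓ s)) = ℓ s := fun s hs =>
    Φ.right_inv (hball (ℓ s) (hℓb s hs)).1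
  have hγ0 : Φ.symm (ℓ 0) = y := by simp [hℓ, hsy]
  have hγ1 : Φ.symm (ℓ 1) = y' := by
    have : ℓ 1 = Ψ y' := by simp [hℓ]
    rw [this]
    exact Φ.left_inv hy's
  have hFl : ∀ s ∈ Icc (0:ℝ) 1, ∀ l, eval (Φ.symm (ℓ s)) (F l) = 0 := by
    intro s hs l
    rw [← hΨJ, hΨγ s hs]
    simp only [hℓ, Pi.add_apply, Pi.smul_apply, Pi.sub_apply, hΨJ, hy _ (hF l), hy'I _ (hF l)]
    simp
  have hzero := ode_zero I F J hmax (fun s => Φ.symm (ℓ s)) _ hγd hγ'c
    (by simpa only [hγ0] using hy) hFl (fun s hs => (hball (ℓ s) (hℓb s hs)).2.2.2)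
  have := hf (fun s => Φ.symm (ℓ s)) _ hγd hγ'c
    (fun s hs => ⟨(hball (ℓ s) (hℓb s hs)).2.2.1, hzero s hs⟩)
  simpa only [hγ0, hγ1] using this

theorem countable_image_ideal {U : Set (ι → ℝ)} (hU : IsOpen U) (f : (ι → ℝ) → ℝ)
    (P : Set (MvPolynomial ι ℝ))
    (hf : ∀ γ γ' : ℝ → (ι → ℝ), (∀ s ∈ Set.Icc (0:ℝ) 1, HasDerivAt γ (γ' s) s) →
      ContinuousOn γ' (Set.Icc 0 1) →
      (∀ s ∈ Set.Icc (0:ℝ) 1, γ s ∈ U ∧ ∀ p ∈ P, eval (γ s) p = 0) →
      f (γ 0) = f (γ 1)) (I : Ideal (MvPolynomial ι ℝ)) (hPI : P ⊆ I) :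
    (f '' {x | x ∈ U ∧ ∀ p ∈ I, eval x p = 0}).Countable := by
  classical
  revert hPI
  refine WellFoundedGT.induction (motive := fun I : Ideal (MvPolynomial ι ℝ) => P ⊆ I →
    (f '' {x | x ∈ U ∧ ∀ p ∈ I, eval x p = 0}).Countable) I ?_
  intro I ih hPI
  by_cases hI : I = ⊤
  · have : {x | x ∈ U ∧ ∀ p ∈ I, eval x p = 0} = ∅ := by
      ext x
      simp only [Set.mem_ofPred_eq, mem_empty_iff_false, iff_false, not_and]
      intro _ h
      have := h 1 (by rw [hI]; trivial)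
      simp at this
    rw [this]
    simp
  -- choose `ρ` maximal
  let Q : ℕ → Prop := fun ρ => ∃ (F : Fin ρ → MvPolynomial ι ℝ) (J : Fin ρ → ι),
    (∀ l, F l ∈ I) ∧ minor F J ∉ I
  have hQ0 : Q 0 := ⟨Fin.elim0, Fin.elim0, fun l => l.elim0, by
    simpa [minor] using fun h => hI ((Ideal.eq_top_iff_one I).2 h)⟩
  have hQJ : ∀ {ρ : ℕ} (F : Fin ρ → MvPolynomial ι ℝ) (J : Fin ρ → ι), minor F J ∉ I →
      Function.Injective J := by
    intro ρ F J h a b hab
    by_contra hne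
    apply h
    unfold minor
    rw [Matrix.det_zero_of_column_eq hne (fun k => by simp [hab])]
    exact I.zero_mem
  have hQb : ∀ ρ, Q ρ → ρ ≤ Fintype.card ι := by
    rintro ρ ⟨F, J, _, h⟩
    simpa using Fintype.card_le_of_injective J (hQJ F J h)
  obtain ⟨ρ, ⟨F, J, hF, hΔI⟩, hρ⟩ : ∃ ρ, Q ρ ∧ ∀ k, k ≤ Fintype.card ι → Q k → k ≤ ρ :=
    ⟨Nat.findGreatest Q (Fintype.card ι),
      Nat.findGreatest_spec (P := Q) (Nat.zero_le (Fintype.card ι)) hQ0,
      fun k hk hQ => Nat.le_findGreatest hk hQ⟩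
  have hmax : ∀ (h : MvPolynomial ι ℝ) (j : ι), h ∈ I →
      minor (Fin.cons h F : Fin (ρ+1) → MvPolynomial ι ℝ) (Fin.cons j J : Fin (ρ+1) → ι) ∈ I := by
    intro h j hh
    by_contra hcon
    have hQ1 : Q (ρ+1) := ⟨_, _, fun l => by
      refine Fin.cases ?_ (fun l => ?_) l
      · simpa using hh
      · simpa using hF l, hcon⟩
    have h1 := hρ _ (hQb _ hQ1) hQ1
    omega
  have hJ := hQJ F J hΔI
  have hsplit : {x | x ∈ U ∧ ∀ p ∈ I, eval x p = 0} ⊆
      {x | x ∈ U ∧ ∀ p ∈ I ⊔ Ideal.span {minor F J}, eval x p = 0} ∪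
      {x | (x ∈ U ∧ ∀ p ∈ I, eval x p = 0) ∧ eval x (minor F J) ≠ 0} := by
    intro x hx
    by_cases h : eval x (minor F J) = 0
    · left
      refine ⟨hx.1, fun p hp => ?_⟩
      obtain ⟨a, ha, b, hb, rfl⟩ := Submodule.mem_sup.1 hp
      obtain ⟨c, rfl⟩ := Ideal.mem_span_singleton'.1 hb
      rw [map_add, map_mul, h, hx.2 a ha, mul_zero, add_zero]
    · right
      exact ⟨hx, h⟩
  refine Countable.mono (image_mono hsplit) ?_
  rw [image_union]
  refine Countable.union ?_ ?_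
  · refine ih _ ?_ (hPI.trans (le_sup_left (a := I)))
    refine lt_of_le_of_ne le_sup_left fun h => hΔI ?_
    rw [h]
    exact Ideal.mem_sup_right (Ideal.subset_span rfl)
  · obtain ⟨t, hts, htc, ht⟩ := TopologicalSpace.countable_cover_nhdsWithin
      (s := {x | (x ∈ U ∧ ∀ p ∈ I, eval x p = 0) ∧ eval x (minor F J) ≠ 0})
      (f := fun y => {y' | (∀ p ∈ I, eval y' p = 0) → f y = f y'}) (by
        intro y hy
        refine mem_nhdsWithin_of_mem_nhds ?_
        refine local_const I hU f ?_ F J hJ hF hmax y hy.1.1 hy.1.2 hy.2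
        intro γ γ' h1 h2 h3
        exact hf γ γ' h1 h2 fun s hs => ⟨(h3 s hs).1, fun p hp => (h3 s hs).2 p (hPI hp)⟩)
    refine Countable.mono ?_ (htc.image f)
    rintro _ ⟨x, hx, rfl⟩
    obtain ⟨y, hyt, hy⟩ := mem_iUnion₂.1 (ht hx)
    exact ⟨y, hyt, hy hx.1.2⟩

/-- **Bellows-S1.** -/
theorem countable_image {ι : Type} [Fintype ι] (P : Set (MvPolynomial ι ℝ)) {U : Set (ι → ℝ)}
    (hU : IsOpen U) (f : (ι → ℝ) → ℝ)
    (hf : ∀ γ γ' : ℝ → (ι → ℝ), (∀ s ∈ Set.Icc (0:ℝ) 1, HasDerivAt γ (γ' s) s) →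
      ContinuousOn γ' (Set.Icc 0 1) →
      (∀ s ∈ Set.Icc (0:ℝ) 1, γ s ∈ U ∧ ∀ p ∈ P, MvPolynomial.eval (γ s) p = 0) →
      f (γ 0) = f (γ 1)) :
    (f '' {x | x ∈ U ∧ ∀ p ∈ P, MvPolynomial.eval x p = 0}).Countable := by
  have h := countable_image_ideal hU f P hf (Ideal.span P) Ideal.subset_span
  refine Countable.mono (image_mono ?_) h
  intro x hx
  refine ⟨hx.1, fun p hp => ?_⟩
  have h1 : Ideal.span P ≤ RingHom.ker (eval x) := Ideal.span_le.2 fun q hq => hx.2 q hq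
  exact h1 hp

end Pool.Agent.W973

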