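import Pool.Agent.W709.VC.Defs

/-!
Task VC-RECT: the residue theorem on a rectangle of width `2 π` with the kernel `cot (z/2) / 2`.
-/

set_option autoImplicit false

namespace Pool.Agent.W973.VcRect

open Filter MeasureTheory Complex
open scoped Real Topology

/-- the kernel -/
noncomputable def ker (w z : ℂ) : ℂ := Complex.cos ((z - w) / 2) / (2 * Complex.sin ((z - w) / 2))

/-! ### the zeros of the sine -/

theorem sin_ne {w z : ℂ} (h0 : 0 < w.re) (h1 : w.re < 2 * π) (hz0 : 0 ≤ z.re) (hz1 : z.re ≤ 2 * π)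
    (h : z ≠ w) : Complex.sin ((z - w) / 2) ≠ 0 := by
  intro hs
  rw [Complex.sin_eq_zero_iff] at hs
  obtain ⟨k, hk⟩ := hs
  have h2 : z - w = 2 * π * k := by linear_combination 2 * hk
  have h3 : z.re - w.re = 2 * π * k := by
    have := congrArg Complex.re h2
    have h4 : (2 * (π : ℂ) * (k : ℂ)) = ((2 * π * k : ℝ) : ℂ) := by push_cast; ring
    rw [h4] at this
    simpa using this
  have hpi := Real.pi_pos
  have hk0 : k = 0 := by
    have h5 : (k : ℝ) < 1 := by
      by_contra h6
      push Not at h6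
      nlinarith
    have h6 : (-1 : ℝ) < k := by
      by_contra h7
      push Not at h7
      nlinarith
    have h7 : k < 1 := by exact_mod_cast h5
    have h8 : -1 < k := by exact_mod_cast h6
    omega
  rw [hk0] at h2
  apply h
  have : z - w = 0 := by rw [h2]; simp
  exact sub_eq_zero.mp this

theorem sin_ne_im {w z : ℂ} (h : z.im ≠ w.im) : Complex.sin ((z - w) / 2) ≠ 0 := by
  intro hs
  rw [Complex.sin_eq_zero_iff] at hs
  obtain ⟨k, hk⟩ := hs
  have h2 : z - w = 2 * π * k := by linear_combination 2 * hk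
  have := congrArg Complex.im h2
  have h4 : (2 * (π : ℂ) * (k : ℂ)) = ((2 * π * k : ℝ) : ℂ) := by push_cast; ring
  rw [h4] at this
  simp only [Complex.sub_im, Complex.ofReal_im] at this
  exact h (sub_eq_zero.mp this)

/-! ### the integral of the kernel over a period -/

theorem mean1 {a : ℂ} (ha : ‖a‖ < 1) :
    ∫ x in (0:ℝ)..(2 * π), (1 + a * Complex.exp (x * I)) / (1 - a * Complex.exp (x * I)) =
      2 * π := by
  have hd : DifferentiableOn ℂ (fun z : ℂ => (1 + a * z) / (1 - a * z)) (Metric.closedBall 0 |1|) := by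
    intro z hz
    have h1 : 1 - a * z ≠ 0 := by
      intro h
      have h2 : a * z = 1 := (sub_eq_zero.mp h).symm
      have h3 : ‖a‖ * ‖z‖ = 1 := by rw [← norm_mul, h2, norm_one]
      have h4 : ‖z‖ ≤ 1 := by simpa using hz
      nlinarith [norm_nonneg a, norm_nonneg z]
    apply DifferentiableAt.differentiableWithinAt
    apply DifferentiableAt.div
    · fun_prop
    · fun_prop
    · exact h1
  have h1 : Real.circleAverage (fun z : ℂ => (1 + a * z) / (1 - a * z)) 0 1 = 1 := by
    have h2 := DiffContOnCl.circleAverage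
      (DifferentiableOn.diffContOnCl (hd.mono (by
        exact Metric.closure_ball_subset_closedBall)))
    simpa using h2
  unfold Real.circleAverage at h1
  have h2 : ∫ x in (0:ℝ)..(2 * π), (1 + a * Complex.exp (x * I)) / (1 - a * Complex.exp (x * I)) =
      ∫ θ in (0:ℝ)..(2 * π), (fun z : ℂ => (1 + a * z) / (1 - a * z)) (circleMap 0 1 θ) := by
    apply intervalIntegral.integral_congr
    intro x _
    simp [circleMap]
  rw [h2]
  have h3 : (2 * π : ℝ) ≠ 0 := by positivity
  rw [inv_smul_eq_iff₀ h3] at h1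
  rw [h1]
  simp

theorem mean2 {a : ℂ} (ha : ‖a‖ < 1) :
    ∫ x in (0:ℝ)..(2 * π), (1 + a * Complex.exp (-(x * I))) / (1 - a * Complex.exp (-(x * I))) =
      2 * π := by
  rw [← mean1 ha]
  have h1 := intervalIntegral.integral_comp_sub_left (a := 0) (b := 2 * π)
    (fun x : ℝ => (1 + a * Complex.exp (x * I)) / (1 - a * Complex.exp (x * I))) (2 * π)
  rw [sub_self, sub_zero] at h1
  rw [← h1]
  apply intervalIntegral.integral_congr
  intro x _
  have h2 : Complex.exp (((2 * π - x : ℝ) : ℂ) * I) = Complex.exp (-(x * I)) := by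
    have h3 : ((2 * π - x : ℝ) : ℂ) * I = -(x * I) + 2 * π * I := by push_cast; ring
    rw [h3, Complex.exp_add, Complex.exp_two_pi_mul_I, mul_one]
  simp only [h2]

theorem ker_low {w z : ℂ} (h : z.im < w.im) : ker w z = I / 2 *
    ((1 + Complex.exp (-((z - w) * I))) / (1 - Complex.exp (-((z - w) * I)))) := by
  have h1 := sin_ne_im (w := w) (z := z) h.ne
  have h2 : 1 - Complex.exp (-((z - w) * I)) ≠ 0 := by
    intro h3
    have h4 := congrArg norm (sub_eq_zero.mp h3)
    rw [norm_one, Complex.norm_exp] at h4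
    have h5 : (-((z - w) * I)).re = z.im - w.im := by simp
    rw [h5] at h4
    have h6 : Real.exp (z.im - w.im) < Real.exp 0 := Real.exp_lt_exp.mpr (by linarith)
    rw [Real.exp_zero] at h6
    linarith
  unfold ker
  have e1 : Complex.exp (-((z - w) * I)) = Complex.exp (-((z - w) / 2 * I)) ^ 2 := by
    rw [← Complex.exp_nat_mul]
    congr 1
    push_cast
    ring
  have e2 : Complex.exp ((z - w) / 2 * I) * Complex.exp (-((z - w) / 2 * I)) = 1 := by
    rw [← Complex.exp_add, add_neg_cancel, Complex.exp_zero]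
  rw [e1] at h2 ⊢
  have c1 : Complex.cos ((z - w) / 2) =
    (Complex.exp ((z - w) / 2 * I) + Complex.exp (-((z - w) / 2 * I))) / 2 := by
    rw [Complex.cos]
    congr 3
    ring
  have s1 : Complex.sin ((z - w) / 2) =
    (Complex.exp (-((z - w) / 2 * I)) - Complex.exp ((z - w) / 2 * I)) * I / 2 := by
    rw [Complex.sin]
    congr 5
    ring
  rw [s1] at h1 ⊢
  rw [c1]
  generalize Complex.exp ((z - w) / 2 * I) = p at *
  generalize Complex.exp (-((z - w) / 2 * I)) = r at *
  have h6 : 2 * ((r - p) * I / 2) ≠ 0 := mul_ne_zero two_ne_zero h1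
  rw [div_eq_iff h6]
  have h7 : r - p ≠ 0 := by
    intro h8
    apply h1
    rw [h8]
    simp
  have hp : p ≠ 0 := by
    intro h8
    rw [h8, zero_mul] at e2
    exact zero_ne_one e2
  have hr : r = p⁻¹ := eq_inv_of_mul_eq_one_right e2
  field_simp
  linear_combination (p * r ^ 2 + p - r - r ^ 3) * I_sq + (-2 * r) * e2

theorem ker_high {w z : ℂ} (h : w.im < z.im) : ker w z = -(I / 2 *
    ((1 + Complex.exp ((z - w) * I)) / (1 - Complex.exp ((z - w) * I)))) := by
  have h1 : ker w z = -ker z w := by
    unfold ker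
    have e1 : (w - z) / 2 = -((z - w) / 2) := by ring
    rw [e1, Complex.cos_neg, Complex.sin_neg, mul_neg, div_neg, neg_neg]
  rw [h1, ker_low h]
  have e2 : -((w - z) * I) = (z - w) * I := by ring
  rw [e2]

theorem int_low {w : ℂ} {c : ℝ} (h : c < w.im) :
    ∫ x in (0:ℝ)..(2 * π), ker w (x + c * I) = I * π := by
  have h1 : ∫ x in (0:ℝ)..(2 * π), ker w (x + c * I) = ∫ x in (0:ℝ)..(2 * π), I / 2 *
      ((1 + Complex.exp (-((c * I - w) * I)) * Complex.exp (-(x * I))) /
        (1 - Complex.exp (-((c * I - w) * I)) * Complex.exp (-(x * I)))) := by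
    apply intervalIntegral.integral_congr
    intro x _
    have h2 : ((x : ℂ) + c * I).im < w.im := by simpa using h
    have e : Complex.exp (-(((x : ℂ) + c * I - w) * I)) =
        Complex.exp (-((c * I - w) * I)) * Complex.exp (-(x * I)) := by
      rw [← Complex.exp_add]
      congr 1
      ring
    beta_reduce
    rw [ker_low h2, e]
  have h3 : ‖Complex.exp (-((c * I - w) * I))‖ < 1 := by
    rw [Complex.norm_exp]
    have h5 : (-((c * I - w) * I)).re = c - w.im := by simp
    rw [h5]
    have h6 : Real.exp (c - w.im) < Real.exp 0 := Real.exp_lt_exp.mpr (by linarith)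
    rwa [Real.exp_zero] at h6
  rw [h1, intervalIntegral.integral_const_mul, mean2 h3]
  ring

theorem int_high {w : ℂ} {c : ℝ} (h : w.im < c) :
    ∫ x in (0:ℝ)..(2 * π), ker w (x + c * I) = -(I * π) := by
  have h1 : ∫ x in (0:ℝ)..(2 * π), ker w (x + c * I) = ∫ x in (0:ℝ)..(2 * π), -(I / 2) *
      ((1 + Complex.exp ((c * I - w) * I) * Complex.exp (x * I)) /
        (1 - Complex.exp ((c * I - w) * I) * Complex.exp (x * I))) := by
    apply intervalIntegral.integral_congr
    intro x _
    have h2 : w.im < ((x : ℂ) + c * I).im := by simpa using h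
    have e : Complex.exp (((x : ℂ) + c * I - w) * I) =
        Complex.exp ((c * I - w) * I) * Complex.exp (x * I) := by
      rw [← Complex.exp_add]
      congr 1
      ring
    beta_reduce
    rw [ker_high h2, e, neg_mul]
  have h3 : ‖Complex.exp ((c * I - w) * I)‖ < 1 := by
    rw [Complex.norm_exp]
    have h5 : ((c * I - w) * I).re = w.im - c := by simp
    rw [h5]
    have h6 : Real.exp (w.im - c) < Real.exp 0 := Real.exp_lt_exp.mpr (by linarith)
    rwa [Real.exp_zero] at h6
  rw [h1, intervalIntegral.integral_const_mul, mean1 h3]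
  ring

theorem ker_per (w z : ℂ) : ker w (z + 2 * π) = ker w z := by
  unfold ker
  have e1 : (z + 2 * π - w) / 2 = (z - w) / 2 + π := by ring
  rw [e1, Complex.cos_add_pi, Complex.sin_add_pi]
  rw [mul_neg, neg_div_neg_eq]

/-- the kernel is continuous on the sides -/
theorem ker_cont {w : ℂ} {g : ℝ → ℂ} (hg : Continuous g) {s : Set ℝ}
    (h : ∀ x ∈ s, Complex.sin ((g x - w) / 2) ≠ 0) : ContinuousOn (fun x => ker w (g x)) s := by
  unfold ker
  apply ContinuousOn.div
  · fun_prop
  · fun_prop
  · intro x hx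
    exact mul_ne_zero two_ne_zero (h x hx)

theorem rect_ker {w : ℂ} {h : ℝ} (h2 : |w.im| < h) :
    Pool.Agent.W709.VC.rect (ker w) 0 (2 * π) (-h) h = 2 * π * I := by
  rw [abs_lt] at h2
  unfold Pool.Agent.W709.VC.rect
  rw [int_low (by linarith [h2.1]), int_high h2.2]
  have h3 : ∫ y in (-h)..h, ker w (((2 * π : ℝ) : ℂ) + y * I) =
      ∫ y in (-h)..h, ker w (((0 : ℝ) : ℂ) + y * I) := by
    apply intervalIntegral.integral_congr
    intro y _
    have h4 := ker_per w (((0 : ℝ) : ℂ) + y * I)
    show ker w (((2 * π : ℝ) : ℂ) + y * I) = ker w (((0 : ℝ) : ℂ) + y * I)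
    rw [← h4]
    congr 1
    push_cast
    ring
  rw [h3]
  ring

/-- the regular part -/
noncomputable def reg (f : ℂ → ℂ) (w z : ℂ) : ℂ :=
  dslope f w z * Complex.cos ((z - w) / 2) / dslope Complex.sin 0 ((z - w) / 2)

theorem dslope_diff {f : ℂ → ℂ} (hf : Differentiable ℂ f) (w : ℂ) :
    Differentiable ℂ (dslope f w) := by
  have h1 : DifferentiableOn ℂ (dslope f w) Set.univ :=
    (differentiableOn_dslope (Filter.univ_mem)).mpr hf.differentiableOn
  exact differentiableOn_univ.mp h1

theorem reg_eq {f : ℂ → ℂ} {w z : ℂ} (h : z ≠ w) :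
    reg f w z = (f z - f w) * ker w z := by
  unfold reg ker
  have h1 : (z - w) / 2 ≠ 0 := div_ne_zero (sub_ne_zero.mpr h) two_ne_zero
  rw [dslope_of_ne _ h, dslope_of_ne _ h1, slope_def_field, slope_def_field, Complex.sin_zero,
    sub_zero, sub_zero]
  have h2 : z - w ≠ 0 := sub_ne_zero.mpr h
  field_simp

theorem dsin_ne {w z : ℂ} (h0 : 0 < w.re) (h1 : w.re < 2 * π) (hz0 : 0 ≤ z.re)
    (hz1 : z.re ≤ 2 * π) : dslope Complex.sin 0 ((z - w) / 2) ≠ 0 := by
  by_cases h : z = w
  · rw [h, sub_self, zero_div, dslope_same, Complex.deriv_sin, Complex.cos_zero]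
    exact one_ne_zero
  · have h2 : (z - w) / 2 ≠ 0 := div_ne_zero (sub_ne_zero.mpr h) two_ne_zero
    rw [dslope_of_ne _ h2, slope_def_field, Complex.sin_zero, sub_zero, sub_zero]
    exact div_ne_zero (sin_ne h0 h1 hz0 hz1 h) h2

theorem rect_reg {f : ℂ → ℂ} {w : ℂ} {h : ℝ} (hf : Differentiable ℂ f) (h0 : 0 < w.re)
    (h1 : w.re < 2 * π) :
    Pool.Agent.W709.VC.rect (reg f w) 0 (2 * π) (-h) h = 0 := by
  have h2 := integral_boundary_rect_eq_zero_of_differentiableOn (reg f w) (⟨0, -h⟩ : ℂ)
    (⟨2 * π, h⟩ : ℂ) (by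
      intro z hz
      rw [mem_reProdIm] at hz
      have h3 := hz.1
      rw [Set.uIcc_of_le (by positivity)] at h3
      apply DifferentiableAt.differentiableWithinAt
      unfold reg
      apply DifferentiableAt.div
      · exact (dslope_diff hf w z).mul (by fun_prop)
      · exact (dslope_diff Complex.differentiable_sin 0 _).comp z (by fun_prop)
      · exact dsin_ne h0 h1 h3.1 h3.2)
  unfold Pool.Agent.W709.VC.rect
  simpa only [smul_eq_mul] using h2

theorem rect : Pool.Agent.W709.VC.S_RECT := by
  intro f w h hf h0 h1 h2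
  have h2' := abs_lt.mp h2
  have hpi := Real.pi_pos
  have e0 : (fun z => f z * (Complex.cos ((z - w) / 2) / (2 * Complex.sin ((z - w) / 2)))) =
      fun z => f z * ker w z := rfl
  rw [e0]
  have e1 := rect_reg (h := h) hf h0 h1
  have e2 := rect_ker h2
  -- a side
  have side : ∀ (g : ℝ → ℂ), Continuous g → ∀ a b : ℝ,
      (∀ x ∈ Set.uIcc a b, Complex.sin ((g x - w) / 2) ≠ 0) →
      ∫ x in a..b, f (g x) * ker w (g x) = (∫ x in a..b, reg f w (g x)) +
        f w * ∫ x in a..b, ker w (g x) := by
    intro g hg a b hs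
    have hk := ker_cont hg hs
    have hne : ∀ x ∈ Set.uIcc a b, g x ≠ w := by
      intro x hx he
      apply hs x hx
      rw [he, sub_self, zero_div, Complex.sin_zero]
    have hr : ContinuousOn (fun x => (f (g x) - f w) * ker w (g x)) (Set.uIcc a b) :=
      ContinuousOn.mul (by
        exact ((hf.continuous.comp hg).sub continuous_const).continuousOn) hk
    have e3 : ∫ x in a..b, reg f w (g x) = ∫ x in a..b, (f (g x) - f w) * ker w (g x) :=
      intervalIntegral.integral_congr fun x hx => reg_eq (hne x hx)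
    rw [e3, ← intervalIntegral.integral_const_mul, ← intervalIntegral.integral_add
      hr.intervalIntegrable (hk.intervalIntegrable.const_mul _)]
    apply intervalIntegral.integral_congr
    intro x _
    show f (g x) * ker w (g x) = (f (g x) - f w) * ker w (g x) + f w * ker w (g x)
    ring
  unfold Pool.Agent.W709.VC.rect at e1 e2 ⊢
  rw [side (fun x : ℝ => (x : ℂ) + ((-h : ℝ) : ℂ) * I) (by fun_prop) 0 (2 * π) (by
      intro x _
      apply sin_ne_im
      simp
      linarith [h2'.1]),
    side (fun x : ℝ => (x : ℂ) + (h : ℂ) * I) (by fun_prop) 0 (2 * π) (by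
      intro x _
      apply sin_ne_im
      simp
      linarith [h2'.2]),
    side (fun y : ℝ => ((2 * π : ℝ) : ℂ) + (y : ℂ) * I) (by fun_prop) (-h) h (by
      intro y _
      apply sin_ne h0 h1
      · simp
        positivity
      · simp
      · intro he
        have := congrArg Complex.re he
        simp at this
        linarith),
    side (fun y : ℝ => ((0 : ℝ) : ℂ) + (y : ℂ) * I) (by fun_prop) (-h) h (by
      intro y _
      apply sin_ne h0 h1
      · simp
      · simp
        positivity
      · intro he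
        have := congrArg Complex.re he
        simp at this
        linarith)]
  linear_combination e1 + f w * e2

end Pool.Agent.W973.VcRect
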