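import Pool.Agent.W749.JI.Stm
import Pool.Agent.W375.MT.Jet

/-!
# JI-LIN: independent affine linear conditions on the coordinates in `C`
-/

set_option autoImplicit false

namespace Pool.Agent.W973.JILin

open Pool.Agent.W428.MOT
open Pool.Agent.W375.MT (chi_empty)

/-- the statement for `q` equations -/
def Lin (q : ℕ) : Prop :=
  ∀ {K : Type} [Field K] {R : Type} [CommRing R] (M : Meas K R) {ι : Type} [Fintype ι]
    [DecidableEq ι] (C : Finset ι) (S : Set (Pt K ι))
    (D : Fin q → ι → Pt K ι → AlgebraicClosure K) (h : Fin q → Pt K ι → AlgebraicClosure K),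
    Constr S → (∀ p v, IsPF (D p v)) → (∀ p, IsPF (h p)) →
    (∀ z w : Pt K ι, (∀ i, i ∉ C → w i = z i) →
      (z ∈ S → w ∈ S) ∧ (∀ p v, D p v w = D p v z) ∧ ∀ p, h p w = h p z) →
    (∀ z ∈ S, ∀ l : Fin q → AlgebraicClosure K, (∀ v ∈ C, ∑ p, l p * D p v z = 0) →
      ∀ p, l p = 0) →
    M.χ ι (S ∩ {z | ∀ p, ∑ v ∈ C, D p v z * z v + h p z = 0}) * M.L ^ q = M.χ ι S

section Pivot

variable {K : Type} [Field K] {R : Type} [CommRing R] {ι : Type} [Fintype ι] [DecidableEq ι]

/-- the coefficients after the elimination of `z v` -/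
noncomputable def D' {q : ℕ} (D : Fin (q + 1) → ι → Pt K ι → AlgebraicClosure K) (v : ι)
    (p : Fin q) (w : ι) (z : Pt K ι) : AlgebraicClosure K :=
  D 0 v z * D p.succ w z - D p.succ v z * D 0 w z

/-- the constant terms after the elimination of `z v` -/
noncomputable def h' {q : ℕ} (D : Fin (q + 1) → ι → Pt K ι → AlgebraicClosure K)
    (h : Fin (q + 1) → Pt K ι → AlgebraicClosure K) (v : ι)
    (p : Fin q) (z : Pt K ι) : AlgebraicClosure K :=
  D 0 v z * h p.succ z - D p.succ v z * h 0 z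

omit [Fintype ι] in
theorem elim_eq {q : ℕ} (C : Finset ι) (D : Fin (q + 1) → ι → Pt K ι → AlgebraicClosure K)
    (h : Fin (q + 1) → Pt K ι → AlgebraicClosure K) (v : ι) (hv : v ∈ C) (p : Fin q)
    (z : Pt K ι) :
    ∑ w ∈ C.erase v, D' D v p w z * z w + h' D h v p z =
      D 0 v z * (∑ w ∈ C, D p.succ w z * z w + h p.succ z) -
        D p.succ v z * (∑ w ∈ C, D 0 w z * z w + h 0 z) := by
  have h0 : D' D v p v z * z v = 0 := by
    unfold D'
    ring
  have h1 : ∑ w ∈ C.erase v, D' D v p w z * z w = ∑ w ∈ C, D' D v p w z * z w := by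
    rw [← Finset.add_sum_erase C _ hv, h0, zero_add]
  rw [h1]
  unfold D' h'
  rw [mul_add, mul_add, Finset.mul_sum, Finset.mul_sum]
  have h2 : ∑ w ∈ C, (D 0 v z * D p.succ w z - D p.succ v z * D 0 w z) * z w =
      ∑ w ∈ C, D 0 v z * (D p.succ w z * z w) - ∑ w ∈ C, D p.succ v z * (D 0 w z * z w) := by
    rw [← Finset.sum_sub_distrib]
    refine Finset.sum_congr rfl fun w _ => ?_
    ring
  rw [h2]
  ring

theorem pivot (h1 : S_Free) (h2 : S_Sub) {q : ℕ} (ih : Lin q) (M : Meas K R) (C : Finset ι)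
    (S : Set (Pt K ι)) (D : Fin (q + 1) → ι → Pt K ι → AlgebraicClosure K)
    (h : Fin (q + 1) → Pt K ι → AlgebraicClosure K) (hS : Constr S) (hD : ∀ p v, IsPF (D p v))
    (hh : ∀ p, IsPF (h p))
    (hinv : ∀ z w : Pt K ι, (∀ i, i ∉ C → w i = z i) →
      (z ∈ S → w ∈ S) ∧ (∀ p v, D p v w = D p v z) ∧ ∀ p, h p w = h p z)
    (hind : ∀ z ∈ S, ∀ l : Fin (q + 1) → AlgebraicClosure K,
      (∀ v ∈ C, ∑ p, l p * D p v z = 0) → ∀ p, l p = 0)
    (v : ι) (hv : v ∈ C) (hne : ∀ z ∈ S, D 0 v z ≠ 0) :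
    M.χ ι (S ∩ {z | ∀ p, ∑ v ∈ C, D p v z * z v + h p z = 0}) * M.L ^ (q + 1) = M.χ ι S := by
  have hup : ∀ (z : Pt K ι) (x : AlgebraicClosure K) (i : ι), i ∉ C →
      Function.update z v x i = z i := fun z x i hi =>
    Function.update_of_ne (fun hc : i = v => hi (by rw [hc]; exact hv)) _ _
  have hDu : ∀ p w (z : Pt K ι) (x : AlgebraicClosure K), D p w (Function.update z v x) = D p w z :=
    fun p w z x => (hinv z _ (hup z x)).2.1 p w
  have hhu : ∀ p (z : Pt K ι) (x : AlgebraicClosure K), h p (Function.update z v x) = h p z :=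
    fun p z x => (hinv z _ (hup z x)).2.2 p
  have hSu : ∀ (z : Pt K ι) (x : AlgebraicClosure K), Function.update z v x ∈ S ↔ z ∈ S := by
    intro z x
    constructor
    · intro hz
      exact (hinv _ z fun i hi => (hup z x i hi).symm).1 hz
    · exact (hinv z _ (hup z x)).1
  have hD' : ∀ p w, IsPF (D' D v p w) := fun p w =>
    ((hD 0 v).mul (hD p.succ w)).sub ((hD p.succ v).mul (hD 0 w))
  have hh' : ∀ p, IsPF (h' D h v p) := fun p =>
    ((hD 0 v).mul (hh p.succ)).sub ((hD p.succ v).mul (hh 0))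
  set E' : Set (Pt K ι) :=
    {z | ∀ p, ∑ w ∈ C.erase v, D' D v p w z * z w + h' D h v p z = 0} with hE'
  have hE'c : Constr E' := Constr.all fun p => Constr.eqz
    ((IsPF.sum _ _ fun w _ => (hD' p w).mul (IsPF.coord w)).add (hh' p))
  have hEc : Constr {z : Pt K ι | ∀ p, ∑ v ∈ C, D p v z * z v + h p z = 0} :=
    Constr.all fun p => Constr.eqz
      ((IsPF.sum _ _ fun w _ => (hD p w).mul (IsPF.coord w)).add (hh p))
  have hE'u : ∀ (z : Pt K ι) (x : AlgebraicClosure K), Function.update z v x ∈ E' ↔ z ∈ E' := by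
    intro z x
    have h3 : ∀ p, ∑ w ∈ C.erase v, D' D v p w (Function.update z v x) *
        (Function.update z v x) w + h' D h v p (Function.update z v x) =
        ∑ w ∈ C.erase v, D' D v p w z * z w + h' D h v p z := by
      intro p
      congr 1
      · refine Finset.sum_congr rfl fun w hw => ?_
        rw [Function.update_of_ne (Finset.ne_of_mem_erase hw)]
        simp only [D', hDu]
      · simp only [h', hDu, hhu]
    simp only [hE', Set.mem_ofPred_eq, h3]
  -- the substitution
  set T : Set (Pt K ι) := (S ∩ E') ∩ {z | z v = 0} with hT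
  have hTc : Constr T := (hS.inter hE'c).inter (Constr.eqz (IsPF.coord v))
  have hsub : M.χ ι (S ∩ {z | ∀ p, ∑ v ∈ C, D p v z * z v + h p z = 0}) = M.χ ι T := by
    refine h2 M _ _ v (D 0 v) (fun z => ∑ w ∈ C.erase v, D 0 w z * z w + h 0 z)
      (hS.inter hEc) hTc (hD 0 v)
      ((IsPF.sum _ _ fun w _ => (hD 0 w).mul (IsPF.coord w)).add (hh 0))
      (fun z x => hDu 0 v z x) ?_ (fun z hz => hne z hz.1) (fun z hz => hne z hz.1.1) ?_
    · intro z x
      show ∑ w ∈ C.erase v, D 0 w (Function.update z v x) * (Function.update z v x) w +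
        h 0 (Function.update z v x) = ∑ w ∈ C.erase v, D 0 w z * z w + h 0 z
      rw [hhu]
      congr 1
      refine Finset.sum_congr rfl fun w hw => ?_
      rw [Function.update_of_ne (Finset.ne_of_mem_erase hw), hDu]
    · intro z hz
      have h3 : D 0 v z * z v + (∑ w ∈ C.erase v, D 0 w z * z w + h 0 z) =
          ∑ w ∈ C, D 0 w z * z w + h 0 z := by
        rw [← add_assoc, Finset.add_sum_erase C (fun w => D 0 w z * z w) hv]
      simp only [hT]
      rw [h3, Set.mem_inter_iff, Set.mem_inter_iff, Set.mem_inter_iff, hSu, hE'u]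
      simp only [Set.mem_ofPred_eq, Function.update_self]
      constructor
      · rintro ⟨h4, h5⟩
        refine ⟨⟨h4, fun p => ?_⟩, h5 0⟩
        rw [elim_eq C D h v hv p z, h5, h5, mul_zero, mul_zero, sub_zero]
      · rintro ⟨⟨h4, h5⟩, h6⟩
        refine ⟨h4, fun p => ?_⟩
        refine Fin.cases h6 (fun p => ?_) p
        have h7 := h5 p
        rw [elim_eq C D h v hv p z, h6, mul_zero, sub_zero] at h7
        exact (mul_eq_zero.1 h7).resolve_left hz
  -- the free coordinate
  have hfree : M.χ ι (S ∩ E') = M.χ ι T * M.L := by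
    have h3 := h1 M (S ∩ E') ∅ {v} (fun _ => 0) (Finset.disjoint_empty_left _) (hS.inter hE'c) ?_
    · simpa [hT] using h3
    · intro z w hw hz
      have h4 : w = Function.update z v (w v) := by
        funext i
        by_cases hi : i = v
        · subst hi
          rw [Function.update_self]
        · rw [Function.update_of_ne hi]
          exact hw i (Finset.notMem_empty _) (by simpa using hi)
      rw [h4]
      exact ⟨(hSu z _).2 hz.1, (hE'u z _).2 hz.2⟩
  -- the induction hypothesis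
  have hih : M.χ ι (S ∩ E') * M.L ^ q = M.χ ι S := by
    refine ih M (C.erase v) S (D' D v) (h' D h v) hS hD' hh' ?_ ?_
    · intro z w hw
      obtain ⟨h3, h4, h5⟩ := hinv z w fun i hi => hw i fun hc => hi (Finset.mem_of_mem_erase hc)
      refine ⟨h3, fun p x => ?_, fun p => ?_⟩
      · simp only [D', h4]
      · simp only [h', h4, h5]
    · intro z hz l hl
      have h3 := hind z hz (Fin.cons (-∑ p, l p * D p.succ v z) fun p => D 0 v z * l p) ?_
      · intro p
        have h4 := h3 p.succ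
        rw [Fin.cons_succ] at h4
        exact (mul_eq_zero.1 h4).resolve_left (hne z hz)
      · intro w hw
        rw [Fin.sum_univ_succ]
        simp only [Fin.cons_zero, Fin.cons_succ]
        by_cases hwv : w = v
        · subst hwv
          rw [neg_mul, Finset.sum_mul, neg_add_eq_zero]
          refine Finset.sum_congr rfl fun p _ => ?_
          ring
        · have h4 := hl w (Finset.mem_erase.2 ⟨hwv, hw⟩)
          have h5 : -(∑ p, l p * D p.succ v z) * D 0 w z + ∑ p, D 0 v z * l p * D p.succ w z =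
              ∑ p, l p * D' D v p w z := by
            rw [neg_mul, Finset.sum_mul, neg_add_eq_sub, ← Finset.sum_sub_distrib]
            refine Finset.sum_congr rfl fun p _ => ?_
            unfold D'
            ring
          rw [h5, h4]
  rw [hsub, pow_succ', ← mul_assoc, ← hfree, hih]

theorem step (h1 : S_Free) (h2 : S_Sub) {q : ℕ} (ih : Lin q) (M : Meas K R) (C : Finset ι)
    (D : Fin (q + 1) → ι → Pt K ι → AlgebraicClosure K)
    (h : Fin (q + 1) → Pt K ι → AlgebraicClosure K) (hD : ∀ p v, IsPF (D p v))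
    (hh : ∀ p, IsPF (h p)) (B : Finset ι) (hBC : B ⊆ C) :
    ∀ S : Set (Pt K ι), Constr S →
    (∀ z w : Pt K ι, (∀ i, i ∉ C → w i = z i) →
      (z ∈ S → w ∈ S) ∧ (∀ p v, D p v w = D p v z) ∧ ∀ p, h p w = h p z) →
    (∀ z ∈ S, ∀ l : Fin (q + 1) → AlgebraicClosure K,
      (∀ v ∈ C, ∑ p, l p * D p v z = 0) → ∀ p, l p = 0) →
    (∀ z ∈ S, ∀ v ∈ C, v ∉ B → D 0 v z = 0) →
    M.χ ι (S ∩ {z | ∀ p, ∑ v ∈ C, D p v z * z v + h p z = 0}) * M.L ^ (q + 1) = M.χ ι S := by
  have hEc : Constr {z : Pt K ι | ∀ p, ∑ v ∈ C, D p v z * z v + h p z = 0} :=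
    Constr.all fun p => Constr.eqz
      ((IsPF.sum _ _ fun w _ => (hD p w).mul (IsPF.coord w)).add (hh p))
  induction B using Finset.induction_on with
  | empty =>
    intro S hS hinv hind h0
    have hSe : S = ∅ := by
      rw [Set.eq_empty_iff_forall_notMem]
      intro z hz
      have h3 := hind z hz (Fin.cons 1 fun _ => 0) (fun v hv => by
        rw [Fin.sum_univ_succ]
        simp [h0 z hz v hv]) 0
      rw [Fin.cons_zero] at h3
      exact one_ne_zero h3
    subst hSe
    rw [Set.empty_inter, chi_empty, zero_mul]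
  | insert v B hvB ihB =>
    intro S hS hinv hind h0
    have hvC : v ∈ C := hBC (Finset.mem_insert_self _ _)
    have hne : Constr {z : Pt K ι | D 0 v z ≠ 0} := Constr.ne (hD 0 v) IsPF.zero
    have heq : Constr {z : Pt K ι | D 0 v z = 0} := Constr.eqz (hD 0 v)
    have h3 := pivot h1 h2 ih M C (S ∩ {z | D 0 v z ≠ 0}) D h (hS.inter hne) hD hh
      (fun z w hw => ⟨fun hz => ⟨(hinv z w hw).1 hz.1, by
        show D 0 v w ≠ 0
        rw [(hinv z w hw).2.1]
        exact hz.2⟩, (hinv z w hw).2⟩) (fun z hz => hind z hz.1) v hvC (fun z hz => hz.2)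
    have h4 := ihB (fun x hx => hBC (Finset.mem_insert_of_mem hx)) (S ∩ {z | D 0 v z = 0})
      (hS.inter heq)
      (fun z w hw => ⟨fun hz => ⟨(hinv z w hw).1 hz.1, by
        show D 0 v w = 0
        rw [(hinv z w hw).2.1]
        exact hz.2⟩, (hinv z w hw).2⟩) (fun z hz => hind z hz.1) (fun z hz x hx hxB => by
          by_cases hxv : x = v
          · subst hxv
            exact hz.2
          · exact h0 z hz.1 x hx fun hc => hxB ((Finset.mem_insert.1 hc).resolve_left hxv))
    have h5 : ∀ X : Set (Pt K ι), Constr X →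
        M.χ ι X = M.χ ι (X ∩ {z | D 0 v z ≠ 0}) + M.χ ι (X ∩ {z | D 0 v z = 0}) := by
      intro X hX
      rw [← M.add _ _ (hX.inter hne) (hX.inter heq)]
      · congr 1
        ext z
        simp only [Set.mem_union, Set.mem_inter_iff, Set.mem_ofPred_eq]
        tauto
      · rw [Set.disjoint_left]
        rintro z ⟨_, h6⟩ ⟨_, h7⟩
        exact h6 h7
    rw [h5 _ (hS.inter hEc), h5 S hS, add_mul, ← h3, ← h4]
    rw [Set.inter_right_comm, Set.inter_right_comm S _ {z | D 0 v z = 0}]

end Pivot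

theorem all (h1 : S_Free) (h2 : S_Sub) : ∀ q, Lin q := by
  intro q
  induction q with
  | zero =>
    intro K _ R _ M ι _ _ C S D h _ _ _ _ _
    have h3 : S ∩ {z : Pt K ι | ∀ p : Fin 0, ∑ v ∈ C, D p v z * z v + h p z = 0} = S := by
      ext z
      simp
    rw [h3, pow_zero, mul_one]
  | succ q ih =>
    intro K _ R _ M ι _ _ C S D h hS hD hh hinv hind
    exact step h1 h2 ih M C D h hD hh C subset_rfl S hS hinv hind
      (fun z _ v hv hv' => absurd hv hv')

theorem main (h1 : Pool.Agent.W428.MOT.S_Free) (h2 : Pool.Agent.W428.MOT.S_Sub) :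
    Pool.Agent.W749.JI.S_Lin := by
  intro K _ R _ M ι _ _ C q S D h
  exact all h1 h2 q M C S D h

end Pool.Agent.W973.JILin
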