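import Pool.Agent.W709.VC.Defs

/-!
Task VC-DC: the Laplace method by dominated convergence.
-/

set_option autoImplicit false

namespace Pool.Agent.W973.VcDc

open Filter MeasureTheory
open scoped Real Topology

theorem dc : Pool.Agent.W709.VC.S_DC := by
  intro K c x₀ u w C c' hc hu hw hc' hK hb hl
  obtain ⟨I, hI⟩ : ∃ I : ℂ, I = ∫ s : ℝ, Complex.exp (-c * (s : ℂ) ^ 2) := ⟨_, rfl⟩
  have hI0 : I ≠ 0 := by
    rw [hI, integral_gaussian_complex hc]
    have h1 : (π : ℂ) / c ≠ 0 := by
      apply div_ne_zero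
      · exact_mod_cast Real.pi_ne_zero
      · intro h
        rw [h] at hc
        simp at hc
    rw [Complex.cpow_def_of_ne_zero h1]
    exact Complex.exp_ne_zero _
  obtain ⟨F, hF⟩ : ∃ F : ℕ → ℝ → ℂ, F = fun (N : ℕ) (s : ℝ) =>
    (Set.Ioc (Real.sqrt N * (u - x₀)) (Real.sqrt N * (w - x₀))).indicator
      (fun s => K N (x₀ + s / Real.sqrt N)) s := ⟨_, rfl⟩
  have key : Tendsto (fun N => ∫ s, F N s) atTop (𝓝 I) := by
    rw [hI]
    refine tendsto_integral_filter_of_dominated_convergence
      (fun s => |C| * Real.exp (-c' * s ^ 2)) ?_ ?_ ?_ ?_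
    · filter_upwards [hK] with N hN
      rw [hF]
      refine AEStronglyMeasurable.indicator ?_ measurableSet_Ioc
      exact (hN.comp (by fun_prop)).aestronglyMeasurable
    · filter_upwards [hb, eventually_gt_atTop 0] with N hN hN0
      refine Eventually.of_forall fun s => ?_
      have hN1 : (0 : ℝ) < N := by exact_mod_cast hN0
      have hs : 0 < Real.sqrt N := Real.sqrt_pos.mpr hN1
      rw [hF]
      show ‖(Set.Ioc (Real.sqrt N * (u - x₀)) (Real.sqrt N * (w - x₀))).indicator
        (fun s => K N (x₀ + s / Real.sqrt N)) s‖ ≤ _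
      by_cases h : s ∈ Set.Ioc (Real.sqrt N * (u - x₀)) (Real.sqrt N * (w - x₀))
      · rw [Set.indicator_of_mem h]
        have h1 : u ≤ x₀ + s / Real.sqrt N := by
          have : u - x₀ ≤ s / Real.sqrt N := by
            rw [le_div_iff₀ hs, mul_comm]
            exact h.1.le
          linarith
        have h2 : x₀ + s / Real.sqrt N ≤ w := by
          have : s / Real.sqrt N ≤ w - x₀ := by
            rw [div_le_iff₀ hs, mul_comm]
            exact h.2
          linarith
        refine (hN _ h1 h2).trans ?_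
        have h3 : -c' * N * (x₀ + s / Real.sqrt N - x₀) ^ 2 = -c' * s ^ 2 := by
          rw [add_sub_cancel_left, div_pow, Real.sq_sqrt hN1.le]
          field_simp
        rw [h3]
        exact mul_le_mul_of_nonneg_right (le_abs_self _) (Real.exp_pos _).le
      · rw [Set.indicator_of_notMem h, norm_zero]
        positivity
    · exact (integrable_exp_neg_mul_sq hc').const_mul _
    · refine Eventually.of_forall fun s => ?_
      have h1 := hl s
      refine h1.congr' ?_
      have h2 : Tendsto (fun N : ℕ => Real.sqrt N) atTop atTop :=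
        Real.tendsto_sqrt_atTop.comp tendsto_natCast_atTop_atTop
      have h3 : Tendsto (fun N : ℕ => Real.sqrt N * (u - x₀)) atTop atBot :=
        h2.atTop_mul_const_of_neg (by linarith)
      have h4 : Tendsto (fun N : ℕ => Real.sqrt N * (w - x₀)) atTop atTop :=
        h2.atTop_mul_const (by linarith)
      filter_upwards [h3.eventually_lt_atBot s, h4.eventually_ge_atTop s] with N h5 h6
      rw [hF]
      show _ = (Set.Ioc (Real.sqrt N * (u - x₀)) (Real.sqrt N * (w - x₀))).indicator
        (fun s => K N (x₀ + s / Real.sqrt N)) s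
      have h7 : s ∈ Set.Ioc (Real.sqrt N * (u - x₀)) (Real.sqrt N * (w - x₀)) := ⟨h5, h6⟩
      rw [Set.indicator_of_mem h7]
  have hI1 : 0 < ‖I‖ := norm_pos_iff.mpr hI0
  refine ⟨‖I‖ / 2, by positivity, ?_⟩
  have h1 := key.norm.eventually (lt_mem_nhds (show ‖I‖ / 2 < ‖I‖ by linarith))
  filter_upwards [h1, eventually_gt_atTop 0] with N hN hN0
  have hN1 : (0 : ℝ) < N := by exact_mod_cast hN0
  have hs : 0 < Real.sqrt N := Real.sqrt_pos.mpr hN1
  have h2 : ∫ s, F N s = (Real.sqrt N : ℝ) • ∫ x in u..w, K N x := by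
    have h3 : ∫ s, F N s = ∫ s in (Real.sqrt N * (u - x₀))..(Real.sqrt N * (w - x₀)),
        K N (x₀ + s / Real.sqrt N) := by
      rw [hF]
      show ∫ s, (Set.Ioc (Real.sqrt N * (u - x₀)) (Real.sqrt N * (w - x₀))).indicator
        (fun s => K N (x₀ + s / Real.sqrt N)) s = _
      rw [integral_indicator measurableSet_Ioc, intervalIntegral.integral_of_le]
      exact mul_le_mul_of_nonneg_left (by linarith) hs.le
    rw [h3, intervalIntegral.integral_comp_add_div _ hs.ne']
    congr 2
    · field_simp
      ring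
    · field_simp
      ring
  rw [h2, norm_smul, Real.norm_of_nonneg hs.le] at hN
  rw [div_le_iff₀ hs, mul_comm]
  exact hN.le

end Pool.Agent.W973.VcDc
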