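import Pool.Agent.W709.VC.Defs

/-!
Task VC-VC: the vertical segment `b = π - α`.
-/

set_option autoImplicit false

namespace Pool.Agent.W973.VcVc

open Filter MeasureTheory GapVol
open Pool.Agent.W709.VC (ell Lf pot)
open scoped Real Topology

/-! ### elementary facts -/

theorem pos {η : ℝ} (h : 0 < η) (τ : ℝ) : 0 < Real.cosh η + Real.cos τ := by
  have h1 : 1 < Real.cosh η := Real.one_lt_cosh.mpr h.ne'
  have h2 := Real.neg_one_le_cos τ
  linarith

theorem pos2 {η : ℝ} (h : 0 < η) (τ : ℝ) : 0 < 2 * Real.cosh η + 2 * Real.cos τ := by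
  have := pos h τ
  linarith

theorem ell_cont {η : ℝ} (h : 0 < η) : Continuous (ell η) := by
  unfold ell
  exact Continuous.log (by fun_prop) fun τ => (pos2 h τ).ne'

theorem ell_neg (η τ : ℝ) : ell η (-τ) = ell η τ := by
  unfold ell
  rw [Real.cos_neg]

theorem Lf_odd (η x : ℝ) : Lf η (-x) = -Lf η x := by
  unfold Lf
  have h1 := intervalIntegral.integral_comp_neg (a := 0) (b := -x) (fun τ => ell η τ)
  rw [neg_neg, neg_zero] at h1
  have h2 : ∫ τ in (0:ℝ)..(-x), ell η (-τ) = ∫ τ in (0:ℝ)..(-x), ell η τ :=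
    intervalIntegral.integral_congr fun τ _ => ell_neg η τ
  rw [← h2, h1, intervalIntegral.integral_symm]

/-! ### the case `η = 0` -/

theorem ell_zero (τ : ℝ) : ell 0 τ = -2 * g (π / 2 - τ / 2) := by
  unfold ell g
  rw [Real.sin_pi_div_two_sub, Real.cosh_zero]
  have h1 : Real.cos τ = 2 * Real.cos (τ / 2) ^ 2 - 1 := by
    rw [← Real.cos_two_mul]
    congr 1
    ring
  have h2 : 2 * 1 + 2 * Real.cos τ = (2 * Real.cos (τ / 2)) ^ 2 := by
    rw [h1]
    ring
  rw [h2, Real.log_pow]
  push_cast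
  ring

theorem g_int2 (a b : ℝ) : IntervalIntegrable (fun τ => g (π / 2 - τ / 2)) volume a b := by
  have h1 := (EvenVol.LobIneq.g_int_sub (π / 2) (a / 2) (b / 2)).comp_mul_left (c := 1 / 2)
  have h2 : a / 2 / (1 / 2) = a := by ring
  have h3 : b / 2 / (1 / 2) = b := by ring
  rw [h2, h3] at h1
  refine h1.congr fun τ _ => ?_
  show g (π / 2 - 1 / 2 * τ) = g (π / 2 - τ / 2)
  congr 1
  ring

theorem ell_zero_int (a b : ℝ) : IntervalIntegrable (ell 0) volume a b := by
  have h1 := (g_int2 a b).const_mul (-2)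
  refine h1.congr fun τ _ => ?_
  exact (ell_zero τ).symm

theorem Lf_zero (x : ℝ) : Lf 0 x = 4 * lob (π / 2 - x / 2) := by
  unfold Lf
  have h1 : ∫ τ in (0:ℝ)..x, ell 0 τ = ∫ τ in (0:ℝ)..x, -2 * g (π / 2 - τ / 2) :=
    intervalIntegral.integral_congr fun τ _ => ell_zero τ
  have h2 := intervalIntegral.integral_comp_sub_div (a := 0) (b := x) (c := 2)
    (fun u => g u) (by norm_num) (π / 2)
  rw [h1, intervalIntegral.integral_const_mul, h2, zero_div, sub_zero, ← lob_sub, lob_half,
    smul_eq_mul]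
  ring

/-! ### duplication -/

theorem g_dup (s : ℝ) (h1 : Real.sin s ≠ 0) (h2 : Real.sin (π / 2 + s) ≠ 0) :
    g (2 * s) = g s + g (π / 2 + s) := by
  have h3 : Real.sin (π / 2 + s) = Real.cos s := by rw [add_comm, Real.sin_add_pi_div_two]
  rw [h3] at h2
  unfold g
  rw [h3, Real.sin_two_mul, ← neg_add, ← Real.log_mul (by simpa using h1) (by simpa using h2)]
  congr 2
  ring

theorem lob_dup2 (x : ℝ) : lob (2 * x) = 2 * lob x + 2 * lob (π / 2 + x) := by
  have h1 := intervalIntegral.integral_comp_mul_left (a := 0) (b := x) (c := 2)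
    (fun u => g u) (by norm_num)
  rw [mul_zero, ← lob_eq, smul_eq_mul] at h1
  have h2 : ∫ s in (0:ℝ)..x, g (2 * s) = ∫ s in (0:ℝ)..x, (g s + g (π / 2 + s)) := by
    apply intervalIntegral.integral_congr_ae
    filter_upwards [sin_ae_ne, EvenVol.LobIneq.ae_add (π / 2)] with s h3 h4 _
    exact g_dup s h3 h4
  have h3 := intervalIntegral.integral_comp_add_left (a := 0) (b := x) (fun u => g u) (π / 2)
  rw [intervalIntegral.integral_add (g_int 0 x) (EvenVol.LobIneq.g_int_add (π / 2) 0 x), ← lob_eq, h3,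
    ← lob_sub, add_zero, lob_half] at h2
  linarith

/-! ### Jensen's formula -/

theorem Lf_pi {η : ℝ} (h : 0 < η) : Lf η π = π * η := by
  have h1 := circleAverage_log_norm_add_const_eq_posLog (a := (Real.exp η : ℂ))
  unfold Real.circleAverage at h1
  have h2 : Real.posLog ‖(Real.exp η : ℂ)‖ = η := by
    rw [Complex.norm_real, Real.norm_of_nonneg (Real.exp_pos _).le, Real.posLog_eq_log,
      Real.log_exp]
    rw [abs_of_pos (Real.exp_pos _)]
    exact Real.one_le_exp h.le
  rw [h2] at h1
  have h3 : ∀ θ : ℝ, Real.log ‖circleMap 0 1 θ + (Real.exp η : ℂ)‖ = (η + ell η θ) / 2 := by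
    intro θ
    have h4 : Complex.normSq (circleMap 0 1 θ + (Real.exp η : ℂ)) =
        Real.exp η * (2 * Real.cosh η + 2 * Real.cos θ) := by
      have h5 : circleMap 0 1 θ = Real.cos θ + Real.sin θ * Complex.I := by
        simp [circleMap, Complex.exp_mul_I]
      rw [h5, Complex.normSq_apply]
      have h6 : (Real.cos θ + Real.sin θ * Complex.I + (Real.exp η : ℂ)).re =
        Real.cos θ + Real.exp η := by
        simp [-Complex.ofReal_cos, -Complex.ofReal_sin, -Complex.ofReal_exp]
      have h7 : (Real.cos θ + Real.sin θ * Complex.I + (Real.exp η : ℂ)).im =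
        Real.sin θ := by
        simp [-Complex.ofReal_cos, -Complex.ofReal_sin, -Complex.ofReal_exp]
      rw [h6, h7, Real.cosh_eq, Real.exp_neg]
      have h8 := Real.exp_pos η
      field_simp
      have h9 := Real.sin_sq_add_cos_sq θ
      linear_combination h9
    have h5 : ‖circleMap 0 1 θ + (Real.exp η : ℂ)‖ ^ 2 =
        Real.exp η * (2 * Real.cosh η + 2 * Real.cos θ) := by
      rw [← Complex.normSq_eq_norm_sq, h4]
    have h6 := congrArg Real.log h5
    rw [Real.log_pow, Real.log_mul (Real.exp_pos _).ne' (pos2 h θ).ne', Real.log_exp] at h6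
    unfold ell
    rw [Nat.cast_ofNat] at h6
    linarith
  have h4 : ∫ θ in (0:ℝ)..(2 * π), Real.log ‖circleMap 0 1 θ + (Real.exp η : ℂ)‖ =
      ∫ θ in (0:ℝ)..(2 * π), (η + ell η θ) / 2 :=
    intervalIntegral.integral_congr fun θ _ => h3 θ
  rw [h4, inv_smul_eq_iff₀ (by positivity), intervalIntegral.integral_div,
    intervalIntegral.integral_add (intervalIntegrable_const)
      ((ell_cont h).intervalIntegrable _ _), intervalIntegral.integral_const, smul_eq_mul,
    smul_eq_mul, sub_zero] at h1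
  have h5 : ∫ θ in (0:ℝ)..(2 * π), ell η θ = 2 * Lf η π := by
    rw [← intervalIntegral.integral_add_adjacent_intervals (b := π)
      ((ell_cont h).intervalIntegrable _ _) ((ell_cont h).intervalIntegrable _ _)]
    have h6 := intervalIntegral.integral_comp_sub_left (a := 0) (b := π)
      (fun u => ell η u) (2 * π)
    have h7 : 2 * π - π = π := by ring
    rw [h7, sub_zero] at h6
    rw [← h6]
    have h8 : ∫ x in (0:ℝ)..π, ell η (2 * π - x) = ∫ x in (0:ℝ)..π, ell η x := by
      apply intervalIntegral.integral_congr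
      intro x _
      show ell η (2 * π - x) = ell η x
      unfold ell
      rw [Real.cos_two_pi_sub]
    rw [h8]
    unfold Lf
    ring
  rw [h5] at h1
  linarith

theorem Lf_le {h x : ℝ} (hh : 0 < h) (h0 : 0 ≤ x) (h1 : x ≤ π) : Lf h x ≤ Lf 0 x + π * h := by
  have h2 : ∫ τ in x..π, ell 0 τ ≤ ∫ τ in x..π, ell h τ := by
    apply intervalIntegral.integral_mono_on_of_le_Ioo h1 (ell_zero_int _ _)
      ((ell_cont hh).intervalIntegrable _ _)
    intro τ hτ
    unfold ell
    have h3 : -1 < Real.cos τ := by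
      rw [← Real.cos_pi]
      exact Real.strictAntiOn_cos ⟨by linarith [hτ.1], hτ.2.le⟩ ⟨Real.pi_pos.le, le_rfl⟩ hτ.2
    have h4 : 1 ≤ Real.cosh h := Real.one_le_cosh h
    rw [Real.cosh_zero]
    apply Real.log_le_log
    · linarith
    · linarith
  have h3 := intervalIntegral.integral_add_adjacent_intervals
    (ell_zero_int 0 x) (ell_zero_int x π)
  have h4 := intervalIntegral.integral_add_adjacent_intervals
    ((ell_cont hh).intervalIntegrable (μ := volume) 0 x)
    ((ell_cont hh).intervalIntegrable (μ := volume) x π)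
  have h5 := Lf_pi hh
  have h6 : Lf 0 π = 0 := by
    rw [Lf_zero, sub_self, lob_zero, mul_zero]
  unfold Lf at *
  linarith

theorem pot_eq (m α η : ℝ) (h : 0 < η) : pot m α (π - α) η =
    8 * lob (α / 2) + 4 * (m * (π - α) - π) * η + (π * η + Lf η (2 * α - π)) := by
  unfold pot
  have e1 : π - α + α = π := by ring
  have e2 : π - α - α = -(2 * α - π) := by ring
  rw [e1, e2, Lf_odd, Lf_pi h]
  ring

theorem vend : Pool.Agent.W709.VC.S_VEND := by
  intro m α h hm hmα hh h1 h2
  rw [pot_eq m α h hh]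
  have h3 := Lf_le (x := 2 * α - π) hh (by linarith) (by linarith)
  rw [Lf_zero] at h3
  have e1 : π / 2 - (2 * α - π) / 2 = -α + π := by ring
  rw [e1, EvenVol.LobIneq.lob_per (-α), EvenVol.LobIneq.lob_neg] at h3
  have h4 := lob_dup2 (α / 2)
  have e2 : 2 * (α / 2) = α := by ring
  rw [e2] at h4
  have h5 := (abs_le.mp (EvenVol.LobIneq.abs_lob_le (π / 2 + α / 2))).1
  have h6 : 4 * (m * (π - α) - π) * h ≤ 0 := by
    apply mul_nonpos_of_nonpos_of_nonneg _ hh.le
    linarith
  linarith

/-! ### convexity -/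

theorem hasDerivAt_Lf {x η : ℝ} (h : 0 < η) :
    HasDerivAt (fun η => Lf η x) (∫ τ in (0:ℝ)..x, Real.sinh η / (Real.cosh η + Real.cos τ)) η := by
  unfold Lf
  have hs : Set.Ioo (η / 2) (2 * η) ∈ 𝓝 η := Ioo_mem_nhds (by linarith) (by linarith)
  have hp : ∀ y ∈ Set.Ioo (η / 2) (2 * η), 0 < y := fun y hy => by linarith [hy.1]
  refine (intervalIntegral.hasDerivAt_integral_of_dominated_loc_of_deriv_le
    (F := fun η τ => ell η τ) (F' := fun η τ => Real.sinh η / (Real.cosh η + Real.cos τ))
    (bound := fun _ => Real.sinh (2 * η) / (Real.cosh (η / 2) - 1)) hs ?_ ?_ ?_ ?_ ?_ ?_).2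
  · filter_upwards [hs] with y hy
    exact (ell_cont (hp y hy)).aestronglyMeasurable
  · exact (ell_cont h).intervalIntegrable _ _
  · have : Continuous fun τ => Real.sinh η / (Real.cosh η + Real.cos τ) :=
      Continuous.div (by fun_prop) (by fun_prop) fun τ => (pos h τ).ne'
    exact this.aestronglyMeasurable
  · refine Eventually.of_forall fun τ _ y hy => ?_
    have hy0 := hp y hy
    have h1 : Real.cosh (η / 2) ≤ Real.cosh y := by
      rw [Real.cosh_le_cosh, abs_of_pos (by linarith), abs_of_pos hy0]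
      exact hy.1.le
    have h2 : 1 < Real.cosh (η / 2) := Real.one_lt_cosh.mpr (by linarith)
    have h3 := Real.neg_one_le_cos τ
    have h4 : Real.sinh y ≤ Real.sinh (2 * η) := Real.sinh_le_sinh.mpr hy.2.le
    have h5 : 0 < Real.sinh y := Real.sinh_pos_iff.mpr hy0
    rw [Real.norm_of_nonneg (div_nonneg h5.le (pos hy0 τ).le)]
    apply div_le_div₀ (by linarith) h4 (by linarith) (by linarith)
  · exact intervalIntegrable_const
  · refine Eventually.of_forall fun τ _ y hy => ?_
    have hy0 := hp y hy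
    unfold ell
    have h1 : HasDerivAt (fun x => 2 * Real.cosh x + 2 * Real.cos τ) (2 * Real.sinh y) y :=
      ((Real.hasDerivAt_cosh y).const_mul 2).add_const _
    have h2 := h1.log (pos2 hy0 τ).ne'
    refine h2.congr_deriv ?_
    have h3 := (pos hy0 τ).ne'
    rw [← mul_add, mul_div_mul_left _ _ (by norm_num)]

theorem tan_half {η : ℝ} (h : 0 < η) : 0 < Real.tanh (η / 2) ∧
    Real.sinh η = 2 * Real.tanh (η / 2) * Real.cosh (η / 2) ^ 2 ∧
    Real.cosh η = (1 + Real.tanh (η / 2) ^ 2) * Real.cosh (η / 2) ^ 2 ∧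
    (1 - Real.tanh (η / 2) ^ 2) * Real.cosh (η / 2) ^ 2 = 1 := by
  have h1 := Real.cosh_pos (η / 2)
  have h2 : 0 < Real.sinh (η / 2) := Real.sinh_pos_iff.mpr (by linarith)
  have h3 : Real.tanh (η / 2) = Real.sinh (η / 2) / Real.cosh (η / 2) := Real.tanh_eq_sinh_div_cosh _
  have h4 : Real.sinh η = 2 * Real.sinh (η / 2) * Real.cosh (η / 2) := by
    rw [← Real.sinh_two_mul]
    congr 1
    ring
  have h5 : Real.cosh η = Real.cosh (η / 2) ^ 2 + Real.sinh (η / 2) ^ 2 := by
    rw [← Real.cosh_two_mul]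
    congr 1
    ring
  have h6 := Real.cosh_sq (η / 2)
  refine ⟨by rw [h3]; positivity, ?_, ?_, ?_⟩
  · rw [h3, h4]
    field_simp
  · rw [h3, h5]
    field_simp
  · rw [h3]
    field_simp
    linarith

/-- the antiderivative -/
theorem int_eq {x η : ℝ} (h : 0 < η) (hx0 : 0 ≤ x) (hx : x < π) :
    ∫ τ in (0:ℝ)..x, Real.sinh η / (Real.cosh η + Real.cos τ) =
      2 * Real.arctan (Real.tanh (η / 2) * Real.tan (x / 2)) := by
  obtain ⟨t0, t1, t2, t3⟩ := tan_half h
  have hd : ∀ τ ∈ Set.uIcc 0 x, HasDerivAt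
      (fun τ => 2 * Real.arctan (Real.tanh (η / 2) * Real.tan (τ / 2)))
      (Real.sinh η / (Real.cosh η + Real.cos τ)) τ := by
    intro τ hτ
    rw [Set.uIcc_of_le hx0] at hτ
    have hc : 0 < Real.cos (τ / 2) := Real.cos_pos_of_mem_Ioo ⟨by linarith [hτ.1, Real.pi_pos],
      by linarith [hτ.2]⟩
    have h1 : HasDerivAt (fun τ : ℝ => τ / 2) (1 / 2) τ := (hasDerivAt_id τ).div_const 2
    have h2 := (Real.hasDerivAt_tan hc.ne').comp τ h1
    have h3 := (h2.const_mul (Real.tanh (η / 2))).arctan.const_mul 2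
    refine h3.congr_deriv ?_
    have h4 : Real.cos τ = 2 * Real.cos (τ / 2) ^ 2 - 1 := by
      rw [← Real.cos_two_mul]
      congr 1
      ring
    have h5 : Real.tan (τ / 2) = Real.sin (τ / 2) / Real.cos (τ / 2) := Real.tan_eq_sin_div_cos _
    have h6 := Real.sin_sq_add_cos_sq (τ / 2)
    have hp := pos h τ
    simp only [Function.comp_apply]
    rw [h5, t1]
    rw [t2] at hp ⊢
    rw [h4] at hp ⊢
    generalize Real.tanh (η / 2) = t at *
    generalize Real.cosh (η / 2) ^ 2 = C at *
    generalize Real.cos (τ / 2) = c at *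
    generalize Real.sin (τ / 2) = s at *
    have h7 : 1 + (t * (s / c)) ^ 2 ≠ 0 := by positivity
    rw [eq_div_iff hp.ne']
    field_simp
    have h8 : s ^ 2 = 1 - c ^ 2 := by linarith
    rw [h8]
    linear_combination (1 - 2 * c ^ 2) * t3
  have hi : IntervalIntegrable (fun τ => Real.sinh η / (Real.cosh η + Real.cos τ)) volume 0 x :=
    (Continuous.div (by fun_prop) (by fun_prop) fun τ => (pos h τ).ne').intervalIntegrable _ _
  rw [intervalIntegral.integral_eq_sub_of_hasDerivAt hd hi]
  simp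

theorem convex_Lf {x : ℝ} (h0 : 0 ≤ x) (h1 : x ≤ π) :
    ConvexOn ℝ (Set.Ioi 0) (fun η => Lf η x) := by
  rcases h1.lt_or_eq with h1 | rfl
  · apply MonotoneOn.convexOn_of_deriv (convex_Ioi 0)
    · intro η hη
      exact (hasDerivAt_Lf hη).continuousAt.continuousWithinAt
    · intro η hη
      rw [interior_Ioi] at hη
      exact (hasDerivAt_Lf hη).differentiableAt.differentiableWithinAt
    · intro η hη η' hη' hle
      rw [interior_Ioi] at hη hη'
      have ha : 0 < η := hη
      have hb : 0 < η' := hη'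
      rw [(hasDerivAt_Lf ha).deriv, (hasDerivAt_Lf hb).deriv, int_eq ha h0 h1, int_eq hb h0 h1]
      apply mul_le_mul_of_nonneg_left _ (by norm_num)
      apply Real.arctan_strictMono.monotone
      apply mul_le_mul_of_nonneg_right
      · obtain ⟨t0, t1, t2, t3⟩ := tan_half ha
        obtain ⟨r0, r1, r2, r3⟩ := tan_half hb
        have hc : Real.cosh (η / 2) ^ 2 ≤ Real.cosh (η' / 2) ^ 2 := by
          apply pow_le_pow_left₀ (Real.cosh_pos _).le
          rw [Real.cosh_le_cosh, abs_of_pos (by linarith), abs_of_pos (by linarith)]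
          linarith
        have hc0 : 0 < Real.cosh (η / 2) ^ 2 := by
          have := Real.cosh_pos (η / 2)
          positivity
        generalize Real.tanh (η / 2) = t at *
        generalize Real.tanh (η' / 2) = r at *
        generalize Real.cosh (η / 2) ^ 2 = C at *
        generalize Real.cosh (η' / 2) ^ 2 = D at *
        by_contra hlt
        push Not at hlt
        have h5 : r ^ 2 < t ^ 2 := by nlinarith
        have h6 : 0 < 1 - t ^ 2 := by
          by_contra h7
          push Not at h7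
          nlinarith
        nlinarith
      · apply Real.tan_nonneg_of_nonneg_of_le_pi_div_two
        · linarith
        · linarith
  · have h2 : ConvexOn ℝ (Set.Ioi 0) (fun η : ℝ => π * η) := by
      refine ⟨convex_Ioi 0, ?_⟩
      intro a _ b _ s t _ _ _
      simp only [smul_eq_mul]
      apply le_of_eq
      ring
    refine h2.congr ?_
    intro η hη
    exact (Lf_pi hη).symm

theorem vconv : Pool.Agent.W709.VC.S_VCONV := by
  intro m α h η η' hh h1 h2 h3 h4
  have hη : 0 < η := by linarith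
  have hη' : 0 < η' := by linarith
  have hc : ConvexOn ℝ (Set.Ioi 0) (fun η : ℝ => (8 * lob (α / 2) +
      4 * (m * (π - α) - π) * η + π * η) + Lf η (2 * α - π)) := by
    apply ConvexOn.add
    · refine ⟨convex_Ioi 0, ?_⟩
      intro a _ b _ s t _ _ hst
      simp only [smul_eq_mul]
      apply le_of_eq
      linear_combination (8 * lob (α / 2)) * (-hst)
    · exact convex_Lf (by linarith) (by linarith)
  have h5 := hc.le_max_of_mem_Icc (show h ∈ Set.Ioi (0:ℝ) from hh) (show η' ∈ Set.Ioi (0:ℝ) from hη')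
    (show η ∈ Set.Icc h η' from ⟨h1, h2⟩)
  have e : ∀ y, 0 < y → pot m α (π - α) y = (8 * lob (α / 2) +
      4 * (m * (π - α) - π) * y + π * y) + Lf y (2 * α - π) := by
    intro y hy
    rw [pot_eq m α y hy]
    ring
  rw [e h hh, e η hη, e η' hη']
  exact h5

end Pool.Agent.W973.VcVc
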