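import Pool.Agent.H547R7.Stm2

/-!
Subtask PRG-ALS: the list of all bit strings.
-/

set_option autoImplicit false

namespace Pool.Agent.W973.PrgA

open Pool.Agent.H547R7

theorem allS_length (d : ℕ) : (allS d).length = 2 ^ d := by
  induction d with
  | zero => rfl
  | succ d ih =>
    unfold allS
    rw [List.length_append, List.length_map, List.length_map, ih, pow_succ]
    ring

theorem mem_allS (d : ℕ) : ∀ s ∈ allS d, s.length = d := by
  induction d with
  | zero => intro s hs; simpa [allS] using hs
  | succ d ih =>
    intro s hs
    unfold allS at hs
    rw [List.mem_append, List.mem_map, List.mem_map] at hs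
    rcases hs with ⟨t, ht, rfl⟩ | ⟨t, ht, rfl⟩
    · simp [ih t ht]
    · simp [ih t ht]

theorem countP_allS (d : ℕ) (p : List Bool → Bool) : (allS d).countP p =
    (Finset.univ.filter fun s : Fin d → Bool => p (List.ofFn s) = true).card := by
  induction d generalizing p with
  | zero =>
    rw [Finset.card_filter]
    simp [allS]
  | succ d ih =>
    unfold allS
    rw [List.countP_append, List.countP_map, List.countP_map, ih, ih, Finset.card_filter,
      Finset.card_filter, Finset.card_filter,
      ← (Fin.consEquiv fun _ : Fin (d + 1) => Bool).sum_comp, Fintype.sum_prod_type,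
      Fintype.sum_bool, add_comm]
    congr 1
    · apply Finset.sum_congr rfl
      intro s _
      simp [Fin.consEquiv, List.ofFn_succ]
    · apply Finset.sum_congr rfl
      intro s _
      simp [Fin.consEquiv, List.ofFn_succ]

theorem t_ALS : S_ALS := by
  refine ⟨allS_length, mem_allS, ?_⟩
  intro d p
  unfold cp pr
  rw [countP_allS, allS_length]
  simp

end Pool.Agent.W973.PrgA
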