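import Pool.Agent.H547R7.Stm2

/-!
Subtask PRG-COR: the core of the argument (one-sided error of the new list of points).
-/

set_option autoImplicit false

namespace Pool.Agent.W973.PrgC

open Pool.Agent.H547R7

/-! ### counting in lists -/

theorem countP_le_add {α : Type} (l : List α) (p q r : α → Bool)
    (h : ∀ y ∈ l, p y = true → q y = true ∨ r y = true) :
    l.countP p ≤ l.countP q + l.countP r := by
  induction l with
  | nil => simp
  | cons a l ih =>
    have h1 := ih fun y hy => h y (List.mem_cons_of_mem _ hy)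
    have h2 := h a List.mem_cons_self
    simp only [List.countP_cons]
    by_cases hp : p a = true
    · rcases h2 hp with h3 | h3
      · simp only [hp, h3, if_true]; omega
      · simp only [hp, h3, if_true]; omega
    · simp only [hp]; simp; omega

theorem add_le_countP {α : Type} (l : List α) (p q r : α → Bool)
    (h : ∀ y ∈ l, (q y = true ∨ r y = true) → p y = true)
    (hd : ∀ y ∈ l, ¬ (q y = true ∧ r y = true)) :
    l.countP q + l.countP r ≤ l.countP p := by
  induction l with
  | nil => simp
  | cons a l ih =>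
    have h1 := ih (fun y hy => h y (List.mem_cons_of_mem _ hy))
      (fun y hy => hd y (List.mem_cons_of_mem _ hy))
    have h2 := h a List.mem_cons_self
    have h3 := hd a List.mem_cons_self
    simp only [List.countP_cons]
    by_cases hq : q a = true
    · have hr : ¬ r a = true := fun hr => h3 ⟨hq, hr⟩
      have hp := h2 (Or.inl hq)
      simp only [hq, hr, hp, if_true]; simp; omega
    · by_cases hr : r a = true
      · have hp := h2 (Or.inr hr)
        simp only [hq, hr, hp, if_true]; simp; omega
      · simp only [hq, hr]; simp; omega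

theorem countP_range (R : ℕ) (p : ℕ → Bool) :
    (List.range R).countP p = (Finset.univ.filter fun i : Fin R => p i = true).card := by
  induction R with
  | zero => simp
  | succ R ih =>
    rw [List.range_succ, List.countP_append, ih, Finset.card_filter, Finset.card_filter,
      Fin.sum_univ_castSucc]
    simp [List.countP_cons]

theorem wt_vec (n : ℕ) (x : List Bool) (hx : x.length ≤ n) : wtL x = wt (vec n x) := by
  induction x generalizing n with
  | nil => simp [wtL, wt, vec]
  | cons b x ih =>
    obtain ⟨n, rfl⟩ : ∃ k, n = k + 1 := ⟨n - 1, by simp at hx; omega⟩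
    have h1 := ih n (by simpa using hx)
    unfold wtL at *
    rw [List.countP_cons, h1]
    unfold wt vec
    rw [Finset.card_filter, Finset.card_filter, Fin.sum_univ_succ]
    simp only [List.getD_cons_succ, Fin.val_zero, List.getD_cons_zero, Fin.val_succ]
    cases b <;> simp [add_comm]

theorem vec_blkL (e n : ℕ) (y : List Bool) (i : Fin (rr e n)) :
    vec n (blkL n y i) = blk (vecD e n y) i := by
  funext j
  unfold vec blkL blk vecD
  have h1 : ((finProdFinEquiv (i, j) : Fin (rr e n * n)) : ℕ) = j + n * i := rfl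
  rw [h1, List.getD_eq_getElem?_getD, List.getD_eq_getElem?_getD, List.getElem?_take,
    if_pos j.2, List.getElem?_drop]
  congr 2
  ring

theorem wtL_blkL (e n : ℕ) (y : List Bool) (i : Fin (rr e n)) :
    wtL (blkL n y i) = wt (blk (vecD e n y) i) := by
  rw [wt_vec n _ (by simp [blkL]), vec_blkL]

theorem s1L_eq (e n : ℕ) (y : List Bool) :
    s1L e n y = cnt (sl e n fun _ => true) (blk (vecD e n y)) := by
  unfold s1L cnt
  rw [countP_range]
  congr 1
  ext i
  simp only [Finset.mem_filter, Finset.mem_univ, true_and, sl, slice, wtL_blkL,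
    decide_eq_true_eq, Bool.or_eq_true, Bool.and_true]
  omega

theorem s0L_eq (e n : ℕ) (y : List Bool) :
    s0L e n y = cnt (sl e n fun _ => false) (blk (vecD e n y)) := by
  unfold s0L cnt
  rw [countP_range]
  congr 1
  ext i
  simp only [Finset.mem_filter, Finset.mem_univ, true_and, sl, slice, wtL_blkL,
    decide_eq_true_eq, Bool.or_eq_true, Bool.and_false, Bool.false_eq_true, or_false]

theorem pass_iff (e n : ℕ) (y : List Bool) :
    passL e n y = (y.getD 0 false && (tLow e n (vecD e n y) && !tHi0 e n (vecD e n y))) := by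
  unfold passL tLow tHi0
  rw [s1L_eq, s0L_eq]
  by_cases h : cnt (sl e n fun _ => false) (blk (vecD e n y)) < b0 e n
  · have h' : ¬ b0 e n ≤ cnt (sl e n fun _ => false) (blk (vecD e n y)) := by omega
    simp [h, h']
  · have h' : b0 e n ≤ cnt (sl e n fun _ => false) (blk (vecD e n y)) := by omega
    simp [h, h']

/-- number of middle blocks -/
theorem mbL_length (e n : ℕ) (y : List Bool) :
    s0L e n y + (mbL e n y).length = s1L e n y := by
  unfold s0L s1L mbL
  rw [List.length_map, ← List.countP_eq_length_filter, countP_range, countP_range, countP_range,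
    ← Finset.card_union_of_disjoint]
  · congr 1
    ext i
    simp only [Finset.mem_filter, Finset.mem_univ, true_and, Finset.mem_union, decide_eq_true_eq]
    omega
  · rw [Finset.disjoint_filter]
    intro i _ h1 h2
    simp only [decide_eq_true_eq] at h1 h2
    omega

/-- the middle blocks satisfying `C` -/
theorem mbL_countP (e n : ℕ) (C : BF n) (y : List Bool) :
    s0L e n y + (mbL e n y).countP (fun x => C (vec n x)) =
      cnt (sl e n C) (blk (vecD e n y)) := by
  unfold s0L mbL cnt
  rw [List.countP_map, List.countP_filter, countP_range, countP_range,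
    ← Finset.card_union_of_disjoint]
  · congr 1
    ext i
    simp only [Finset.mem_filter, Finset.mem_univ, true_and, Finset.mem_union, decide_eq_true_eq,
      Function.comp_apply, Bool.and_eq_true, sl, slice, Bool.or_eq_true, wtL_blkL, vec_blkL]
    tauto
  · rw [Finset.disjoint_filter]
    intro i _ h1 h2
    simp only [decide_eq_true_eq, Function.comp_apply, Bool.and_eq_true] at h1 h2
    omega

theorem kk_le {e n : ℕ} (he : 8 ≤ e) {y : List Bool} (hy : passL e n y = true) :
    kk e n ≤ (mbL e n y).length := by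
  have h1 := mbL_length e n y
  unfold passL at hy
  simp only [Bool.and_eq_true, decide_eq_true_eq] at hy
  obtain ⟨-, h2, h3, h4⟩ := hy
  have h5 : 4 * e ^ 2 * (n + 1) ≤ 2 * e ^ 3 * (n + 1) := by
    apply Nat.mul_le_mul_right
    nlinarith [Nat.pos_of_ne_zero (show e ≠ 0 by omega), sq_nonneg e]
  unfold a1 at h2
  unfold b0 at h4
  unfold kk
  generalize e ^ 3 * (n + 1) * n = X at *
  generalize 2 * e ^ 3 * (n + 1) = Y at *
  have h6 : 4 * e ^ 2 * (n + 1) = 2 * (2 * e ^ 2 * (n + 1)) := by ring
  rw [h6] at *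
  generalize 2 * e ^ 2 * (n + 1) = Z at *
  omega

/-! ### the new list -/

theorem dL_length {e n : ℕ} (he : 8 ≤ e) (ys : List (List Bool)) :
    (dL e n ys).length = kk e n * ys.countP (passL e n) := by
  induction ys with
  | nil => simp [dL]
  | cons y ys ih =>
    have h1 : dL e n (y :: ys) =
      (if passL e n y = true then (mbL e n y).take (kk e n) else []) ++ dL e n ys := rfl
    rw [h1, List.length_append, ih, List.countP_cons]
    by_cases hy : passL e n y = true
    · rw [if_pos hy, if_pos hy, List.length_take, min_eq_left (kk_le he hy)]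
      ring
    · rw [if_neg hy, if_neg hy]
      simp

theorem dL_countP {e n : ℕ} (p : List Bool → Bool) (bad : List Bool → Bool) (q : ℝ)
    (hq : 0 ≤ q) (ys : List (List Bool))
    (h : ∀ y, passL e n y = true → bad y = false →
      (((mbL e n y).take (kk e n)).countP p : ℝ) ≤ kk e n * q) :
    ((dL e n ys).countP p : ℝ) ≤ kk e n * (q * ys.countP (passL e n) +
      ys.countP (fun y => passL e n y && bad y)) := by
  induction ys with
  | nil => simp [dL]
  | cons y ys ih =>
    have h1 : dL e n (y :: ys) =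
      (if passL e n y = true then (mbL e n y).take (kk e n) else []) ++ dL e n ys := rfl
    rw [h1, List.countP_append, List.countP_cons, List.countP_cons]
    by_cases hy : passL e n y = true
    · rw [if_pos hy, if_pos hy]
      by_cases hb : bad y = true
      · have h2 : (passL e n y && bad y) = true := by simp [hy, hb]
        rw [if_pos h2]
        have h3 : (((mbL e n y).take (kk e n)).countP p : ℝ) ≤ kk e n := by
          have := (List.countP_le_length (p := p) (l := (mbL e n y).take (kk e n))).trans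
            (List.length_take_le _ _)
          exact_mod_cast this
        push_cast
        have h4 : (0 : ℝ) ≤ kk e n * q := by positivity
        nlinarith
      · have hb' : bad y = false := by simpa using hb
        have h2 : ¬ (passL e n y && bad y) = true := by simp [hb']
        rw [if_neg h2]
        have h3 := h y hy hb'
        push_cast
        nlinarith
    · rw [if_neg hy, if_neg hy]
      have h2 : ¬ (passL e n y && bad y) = true := by simp [hy]
      rw [if_neg h2]
      simpa using ih

/-! ### means -/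

theorem sum_mod (A m : ℕ) (f : ℕ → ℝ) :
    ∑ i : Fin (A * m), f (i.val % m) = A * ∑ k ∈ Finset.range m, f k := by
  rw [← finProdFinEquiv.sum_comp, Fintype.sum_prod_type]
  have h1 : ∀ (x : Fin A) (y : Fin m), f ((finProdFinEquiv (x, y)).val % m) = f y := by
    intro x y
    have h2 : ((finProdFinEquiv (x, y) : Fin (A * m)) : ℕ) = y + m * x := rfl
    rw [h2, Nat.add_mul_mod_self_left, Nat.mod_eq_of_lt y.2]
  simp only [h1]
  rw [Finset.sum_const, Finset.card_univ, Fintype.card_fin, nsmul_eq_mul, Finset.sum_range]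

theorem mean (hE : S_EXP) (e n : ℕ) (C : BF n) :
    ∑ i, pr (sl e n C i) = (e : ℝ) ^ 3 * (n + 1) * n + 2 * e ^ 3 * (n + 1) * pr C := by
  have h1 : rr e n = (2 * e ^ 3 * (n + 1)) * (n + 1) := by unfold rr; ring
  have h2 : ∑ i : Fin (rr e n), pr (slice n (i.val % (n + 1)) C) =
      ∑ i : Fin ((2 * e ^ 3 * (n + 1)) * (n + 1)), pr (slice n (i.val % (n + 1)) C) := by
    rw [h1]
  show ∑ i : Fin (rr e n), pr (slice n (i.val % (n + 1)) C) = _
  rw [h2, sum_mod _ _ fun k => pr (slice n k C), hE n C]
  push_cast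
  ring

/-! ### probabilities -/

theorem pr_nonneg {Ω : Type} [Fintype Ω] (p : Ω → Bool) : 0 ≤ pr p := by
  unfold pr; positivity

theorem pr_le_one {Ω : Type} [Fintype Ω] (p : Ω → Bool) : pr p ≤ 1 := by
  unfold pr
  apply div_le_one_of_le₀ _ (by positivity)
  exact_mod_cast Finset.card_filter_le _ _

theorem pr_true {Ω : Type} [Fintype Ω] [Nonempty Ω] : pr (fun _ : Ω => true) = 1 := by
  unfold pr
  simp

theorem pr_false {Ω : Type} [Fintype Ω] : pr (fun _ : Ω => false) = 0 := by
  unfold pr
  simp

theorem pr_or_le {Ω : Type} [Fintype Ω] (p q : Ω → Bool) :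
    pr (fun x => p x || q x) ≤ pr p + pr q := by
  classical
  unfold pr
  rw [← add_div]
  apply div_le_div_of_nonneg_right _ (by positivity)
  have h1 : (Finset.univ.filter fun x => (p x || q x) = true) =
      (Finset.univ.filter fun x => p x = true) ∪ (Finset.univ.filter fun x => q x = true) := by
    ext x
    simp
  rw [h1]
  exact_mod_cast Finset.card_union_le _ _

theorem le_pr_and {Ω : Type} [Fintype Ω] [Nonempty Ω] (p q : Ω → Bool) :
    pr p + pr q - 1 ≤ pr (fun x => p x && q x) := by
  classical
  unfold pr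
  have h0 : (0 : ℝ) < Fintype.card Ω := by
    exact_mod_cast Fintype.card_pos
  rw [← add_div, div_sub_one h0.ne']
  apply div_le_div_of_nonneg_right _ h0.le
  have h1 : (Finset.univ.filter fun x => (p x && q x) = true) =
      (Finset.univ.filter fun x => p x = true) ∩ (Finset.univ.filter fun x => q x = true) := by
    ext x
    simp
  have h2 := Finset.card_union_add_card_inter (Finset.univ.filter fun x => p x = true)
    (Finset.univ.filter fun x => q x = true)
  have h3 : ((Finset.univ.filter fun x => p x = true) ∪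
      (Finset.univ.filter fun x => q x = true)).card ≤ Fintype.card Ω := Finset.card_le_univ _
  rw [h1]
  have h4 : ((Finset.univ.filter fun x => p x = true).card +
      (Finset.univ.filter fun x => q x = true).card : ℝ) ≤ Fintype.card Ω +
      ((Finset.univ.filter fun x => p x = true) ∩
        (Finset.univ.filter fun x => q x = true)).card := by
    exact_mod_cast (by omega)
  linarith

set_option maxHeartbeats 1000000 in
theorem t_COR (hE : S_EXP) (hC : S_CHE) : S_COR := by
  intro e n ys ε C he hn hys hlen hε gLow gHi0 gHi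
  have hE8 : (8 : ℝ) ≤ e := by exact_mod_cast he
  have hN : (1 : ℝ) ≤ n := by exact_mod_cast hn
  have hE0 : (0 : ℝ) < e := by linarith
  have hN0 : (0 : ℝ) < (n : ℝ) + 1 := by linarith
  set a : ℝ := 2 * (e : ℝ) ^ 2 * (n + 1) with ha
  have ha0 : 0 < a := by positivity
  have hr : (rr e n : ℝ) / (4 * a ^ 2) = 1 / (8 * e) := by
    rw [ha]
    unfold rr
    push_cast
    field_simp
    ring
  have hX : 2 * e ^ 2 * (n + 1) ≤ 2 * e ^ 3 * (n + 1) := by
    apply Nat.mul_le_mul_right
    nlinarith [sq_nonneg e]
  have hY : 2 * e ^ 2 * (n + 1) ≤ e ^ 3 * (n + 1) * n := by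
    have h1 : 2 * e ^ 2 ≤ e ^ 3 := by nlinarith [sq_nonneg e]
    calc 2 * e ^ 2 * (n + 1) ≤ e ^ 3 * (n + 1) := Nat.mul_le_mul_right _ h1
      _ ≤ e ^ 3 * (n + 1) * n := Nat.le_mul_of_pos_right _ hn
  have hZ : 4 * e ^ 2 * (n + 1) ≤ 2 * e ^ 3 * (n + 1) := by
    apply Nat.mul_le_mul_right
    nlinarith [sq_nonneg e]
  have ha1 : (a1 e n : ℝ) = (e : ℝ) ^ 3 * (n + 1) * n + 2 * e ^ 3 * (n + 1) - a := by
    unfold a1
    rw [Nat.cast_sub (by omega), ha]
    push_cast
    ring
  have ha00 : (a0 e n : ℝ) = (e : ℝ) ^ 3 * (n + 1) * n - a := by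
    unfold a0
    rw [Nat.cast_sub hY, ha]
    push_cast
    ring
  have hb0 : (b0 e n : ℝ) = (e : ℝ) ^ 3 * (n + 1) * n + a := by
    unfold b0
    rw [ha]
    push_cast
    ring
  have hkk : (kk e n : ℝ) = 2 * (e : ℝ) ^ 2 * (n + 1) * (e - 2) := by
    unfold kk
    rw [Nat.cast_sub hZ]
    push_cast
    ring
  have hkk0 : (0 : ℝ) < kk e n := by
    rw [hkk]
    have : (0 : ℝ) < e - 2 := by linarith
    positivity
  -- Chebyshev
  have m1 := mean hE e n (fun _ => true)
  have m0 := mean hE e n (fun _ => false)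
  have mC := mean hE e n C
  rw [pr_true, mul_one] at m1
  rw [pr_false, mul_zero, add_zero] at m0
  have c1 := (hC n (rr e n) (sl e n fun _ => true) a ha0).2 (a1 e n) (by rw [m1, ha1])
  have c0 := (hC n (rr e n) (sl e n fun _ => false) a ha0).2 (a0 e n) (by rw [m0, ha00])
  have cb := (hC n (rr e n) (sl e n fun _ => false) a ha0).1 (b0 e n) (by rw [m0, hb0])
  obtain ⟨θ, hθ⟩ : ∃ θ : ℕ, θ = ⌈∑ i, pr (sl e n C i) + a⌉₊ := ⟨_, rfl⟩
  have cC := (hC n (rr e n) (sl e n C) a ha0).1 θ (by rw [hθ]; exact Nat.le_ceil _)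
  rw [hr] at c1 c0 cb cC
  have pLow : 1 - 2 / (8 * (e : ℝ)) ≤ pr (tLow e n) := by
    have := le_pr_and (fun z : Fin (rr e n * n) → Bool =>
      decide (a1 e n ≤ cnt (sl e n fun _ => true) (blk z)))
      (fun z => decide (a0 e n ≤ cnt (sl e n fun _ => false) (blk z)))
    have h2 : pr (tLow e n) = pr (fun z : Fin (rr e n * n) → Bool =>
      decide (a1 e n ≤ cnt (sl e n fun _ => true) (blk z)) &&
      decide (a0 e n ≤ cnt (sl e n fun _ => false) (blk z))) := rfl
    have h3 : 2 / (8 * (e : ℝ)) = 1 / (8 * e) + 1 / (8 * e) := by ring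
    rw [h2, h3]
    linarith
  have pHi0 : pr (tHi0 e n) ≤ 1 / (8 * e) := cb
  have pHi : pr (tHi e n C θ) ≤ 2 / (8 * (e : ℝ)) := by
    have := pr_or_le (tHi0 e n) (fun z => decide (θ ≤ cnt (sl e n C) (blk z)))
    have h2 : pr (tHi e n C θ) = pr (fun z : Fin (rr e n * n) → Bool =>
      tHi0 e n z || decide (θ ≤ cnt (sl e n C) (blk z))) := rfl
    have h3 : 2 / (8 * (e : ℝ)) = 1 / (8 * e) + 1 / (8 * e) := by ring
    rw [h2, h3]
    linarith
  -- the fractions
  have hL : (0 : ℝ) < ys.length := by exact_mod_cast List.length_pos_iff.mpr hys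
  have hu0 : 0 < 1 / (8 * (e : ℝ)) := by positivity
  obtain ⟨u, hu⟩ : ∃ u : ℝ, u = 1 / (8 * (e : ℝ)) := ⟨_, rfl⟩
  have hu2 : 2 / (8 * (e : ℝ)) = 2 * u := by rw [hu]; ring
  rw [hu2] at pLow pHi
  rw [← hu] at pHi0 hu0 hε ⊢
  have gL := gLow
  have gH0 := gHi0
  have gH := gHi θ
  unfold Good cp at gL gH0 gH
  rw [abs_le] at gL gH0 gH
  obtain ⟨np, hnp⟩ : ∃ np : ℕ, np = ys.countP (passL e n) := ⟨_, rfl⟩
  obtain ⟨nb, hnb⟩ : ∃ nb : ℕ, nb = ys.countP (fun y => passL e n y &&
    decide (θ ≤ cnt (sl e n C) (blk (vecD e n y)))) := ⟨_, rfl⟩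
  have q1 : ys.countP (fun y => y.getD 0 false && tLow e n (vecD e n y)) ≤
      np + ys.countP (fun y => y.getD 0 false && tHi0 e n (vecD e n y)) := by
    rw [hnp]
    apply countP_le_add
    intro y _ hy
    rw [pass_iff]
    simp only [Bool.and_eq_true, Bool.not_eq_true'] at hy ⊢
    cases h : tHi0 e n (vecD e n y)
    · exact Or.inl ⟨hy.1, hy.2, rfl⟩
    · exact Or.inr ⟨hy.1, rfl⟩
  have q2 : nb + ys.countP (fun y => y.getD 0 false && tHi0 e n (vecD e n y)) ≤
      ys.countP (fun y => y.getD 0 false && tHi e n C θ (vecD e n y)) := by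
    rw [hnb]
    apply add_le_countP
    · intro y _ hy
      unfold tHi
      rw [pass_iff] at hy
      simp only [Bool.and_eq_true, Bool.not_eq_true', Bool.or_eq_true] at hy ⊢
      tauto
    · intro y _ hy
      rw [pass_iff] at hy
      simp only [Bool.and_eq_true, Bool.not_eq_true'] at hy
      have h1 := hy.1.1.2.2
      rw [hy.2.2] at h1
      exact absurd h1 (by simp)
  have q1' : (ys.countP (fun y => y.getD 0 false && tLow e n (vecD e n y)) : ℝ) ≤
      np + ys.countP (fun y => y.getD 0 false && tHi0 e n (vecD e n y)) := by exact_mod_cast q1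
  have q2' : (nb : ℝ) + ys.countP (fun y => y.getD 0 false && tHi0 e n (vecD e n y)) ≤
      ys.countP (fun y => y.getD 0 false && tHi e n C θ (vecD e n y)) := by exact_mod_cast q2
  obtain ⟨h0, hh0⟩ : ∃ h0 : ℝ, h0 =
    (ys.countP (fun y => y.getD 0 false && tHi0 e n (vecD e n y)) : ℝ) / ys.length := ⟨_, rfl⟩
  have hh0' : (ys.countP (fun y => y.getD 0 false && tHi0 e n (vecD e n y)) : ℝ) =
      h0 * ys.length := by rw [hh0]; field_simp
  have h00 : 0 ≤ h0 := by rw [hh0]; positivity
  rw [← hh0] at gH0
  rw [hh0'] at q1' q2'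
  have r1 : (1 / 2 - ε - u) * ys.length ≤
      ys.countP (fun y => y.getD 0 false && tLow e n (vecD e n y)) := by
    rw [← le_div_iff₀ hL]
    linarith [gL.1]
  have r2 : (ys.countP (fun y => y.getD 0 false && tHi e n C θ (vecD e n y)) : ℝ) ≤
      (ε + u) * ys.length := by
    rw [← div_le_iff₀ hL]
    linarith [gH.2]
  have h0A : h0 ≤ ε + u := by linarith [gH0.2]
  have h0B : 0 < 1 / 2 - ε - u - h0 := by linarith [gH0.2]
  have hAB : ε + u ≤ 1 / 2 - ε - u := by linarith
  have s1 : (1 / 2 - ε - u - h0) * ys.length ≤ np := by linarith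
  have s2 : (nb : ℝ) ≤ (ε + u - h0) * ys.length := by linarith
  have hnp0 : (0 : ℝ) < np := lt_of_lt_of_le (mul_pos h0B hL) s1
  have s3 : (nb : ℝ) / np ≤ (ε + u) / (1 / 2 - ε - u) := by
    rw [div_le_div_iff₀ hnp0 (by linarith)]
    calc (nb : ℝ) * (1 / 2 - ε - u) ≤ (ε + u - h0) * ys.length * (1 / 2 - ε - u) :=
          mul_le_mul_of_nonneg_right s2 (by linarith)
      _ ≤ (ε + u) * ((1 / 2 - ε - u - h0) * ys.length) := by
          have : 0 ≤ (ys.length : ℝ) * (h0 * ((1 / 2 - ε - u) - (ε + u))) :=
            mul_nonneg hL.le (mul_nonneg h00 (by linarith))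
          nlinarith
      _ ≤ (ε + u) * np := mul_le_mul_of_nonneg_left s1 (by linarith)
  -- the points
  have hE2 : (0 : ℝ) < e - 2 := by linarith
  have pC0 := pr_nonneg C
  have pC1 := pr_le_one C
  have hq0 : 0 ≤ pr C + 4 / ((e : ℝ) - 2) := by positivity
  have key := dL_countP (e := e) (n := n) (fun x => C (vec n x))
    (fun y => decide (θ ≤ cnt (sl e n C) (blk (vecD e n y)))) (pr C + 4 / ((e : ℝ) - 2)) hq0 ys
    (by
      intro y hp hb
      have hlt : cnt (sl e n C) (blk (vecD e n y)) < θ := by simpa using hb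
      have hlt' : (cnt (sl e n C) (blk (vecD e n y)) : ℝ) < ∑ i, pr (sl e n C i) + a := by
        rw [hθ] at hlt
        exact Nat.lt_ceil.mp hlt
      have h1 := mbL_countP e n C y
      have h2 : ((mbL e n y).take (kk e n)).countP (fun x => C (vec n x)) ≤
          (mbL e n y).countP (fun x => C (vec n x)) :=
        (List.take_sublist _ _).countP_le
      have h3 : a0 e n ≤ s0L e n y := by
        unfold passL at hp
        simp only [Bool.and_eq_true, decide_eq_true_eq] at hp
        exact hp.2.2.1
      have h1' : (s0L e n y : ℝ) + (mbL e n y).countP (fun x => C (vec n x)) =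
        cnt (sl e n C) (blk (vecD e n y)) := by exact_mod_cast h1
      have h2' : (((mbL e n y).take (kk e n)).countP (fun x => C (vec n x)) : ℝ) ≤
          (mbL e n y).countP (fun x => C (vec n x)) := by exact_mod_cast h2
      have h3' : (a0 e n : ℝ) ≤ s0L e n y := by exact_mod_cast h3
      rw [ha00] at h3'
      rw [mC] at hlt'
      have h4 : (kk e n : ℝ) * (pr C + 4 / ((e : ℝ) - 2)) =
          2 * (e : ℝ) ^ 3 * (n + 1) * pr C - 2 * a * pr C + 4 * a := by
        rw [hkk, ha]
        field_simp
      have h5 : a * pr C ≤ a := mul_le_of_le_one_right ha0.le pC1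
      rw [h4]
      linarith)
  have hl := dL_length (n := n) he ys
  rw [← hnp] at hl key
  rw [← hnb] at key
  have hl0 : 0 < (dL e n ys).length := by
    rw [hl]
    apply Nat.mul_pos
    · exact_mod_cast hkk0
    · exact_mod_cast hnp0
  refine ⟨List.length_pos_iff.mp hl0, ?_⟩
  unfold cp
  have hl' : ((dL e n ys).length : ℝ) = kk e n * np := by rw [hl]; push_cast; ring
  rw [hl']
  calc ((dL e n ys).countP (fun x => C (vec n x)) : ℝ) / (kk e n * np)
      ≤ (kk e n * ((pr C + 4 / ((e : ℝ) - 2)) * np + nb)) / (kk e n * np) :=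
        div_le_div_of_nonneg_right key (by positivity)
    _ = pr C + 4 / ((e : ℝ) - 2) + nb / np := by
        field_simp
    _ ≤ pr C + 5 / ((e : ℝ) - 2) + (ε + u) / (1 / 2 - ε - u) := by
        have : 4 / ((e : ℝ) - 2) ≤ 5 / (e - 2) := by
          apply div_le_div_of_nonneg_right _ hE2.le
          norm_num
        linarith

end Pool.Agent.W973.PrgC
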