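import Pool.Agent.H547R7.Stm

/-!
Subtask PRG-EXP: sum of the probabilities of the slices.
-/

set_option autoImplicit false

namespace Pool.Agent.W973.PrgE

open Pool.Agent.H547R7

/-- indicator -/
noncomputable def ind (b : Bool) : ℝ := if b = true then 1 else 0

theorem pr_eq {n : ℕ} (f : BF n) : pr f = (∑ x, ind (f x)) / 2 ^ n := by
  unfold pr ind
  rw [Finset.sum_boole]
  simp

theorem wt_le {n : ℕ} (x : Fin n → Bool) : wt x ≤ n := by
  unfold wt
  refine (Finset.card_filter_le _ _).trans ?_
  simp

theorem sum_slice {n : ℕ} (C : BF n) (x : Fin n → Bool) :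
    ∑ k ∈ Finset.range (n + 1), ind (slice n k C x) = wt x + ind (C x) := by
  have hw := wt_le x
  have h1 : ∀ k, ind (slice n k C x) = (if k < wt x then (1 : ℝ) else 0) +
      (if wt x = k then ind (C x) else 0) := by
    intro k
    unfold ind slice
    rcases lt_trichotomy k (wt x) with h | h | h
    · have h2 : ¬ wt x = k := by omega
      simp [h, h2]
    · have h2 : ¬ k < wt x := by omega
      simp [h]
    · have h2 : ¬ wt x = k := by omega
      have h3 : ¬ k < wt x := by omega
      simp [h2, h3]
  simp only [h1]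
  rw [Finset.sum_add_distrib, Finset.sum_ite_eq, if_pos (Finset.mem_range.mpr (by omega)),
    Finset.sum_boole]
  congr 2
  have h2 : (Finset.range (n + 1)).filter (fun k => k < wt x) = Finset.range (wt x) := by
    ext k
    simp only [Finset.mem_filter, Finset.mem_range]
    omega
  rw [h2, Finset.card_range]

theorem wt_add {n : ℕ} (x : Fin n → Bool) : wt x + wt (fun i => !x i) = n := by
  unfold wt
  have h := Finset.card_filter_add_card_filter_not (s := (Finset.univ : Finset (Fin n)))
    (fun i => x i = true)
  simpa using h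

theorem sum_wt (n : ℕ) : ∑ x : Fin n → Bool, (wt x : ℝ) = n / 2 * 2 ^ n := by
  have h1 : ∑ x : Fin n → Bool, (wt (fun i => !x i) : ℝ) = ∑ x : Fin n → Bool, (wt x : ℝ) :=
    (Equiv.piCongrRight fun _ : Fin n => Equiv.boolNot).sum_comp fun x => (wt x : ℝ)
  have h2 : ∑ x : Fin n → Bool, ((wt x : ℝ) + wt (fun i => !x i)) = n * 2 ^ n := by
    have h3 : ∀ x : Fin n → Bool, (wt x : ℝ) + wt (fun i => !x i) = n := by
      intro x
      exact_mod_cast wt_add x
    simp only [h3]
    rw [Finset.sum_const, Finset.card_univ, nsmul_eq_mul]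
    simp [mul_comm]
  rw [Finset.sum_add_distrib, h1] at h2
  linarith

theorem t_EXP : S_EXP := by
  intro n C
  simp only [pr_eq]
  rw [← Finset.sum_div, Finset.sum_comm]
  simp only [sum_slice]
  rw [Finset.sum_add_distrib, add_div, sum_wt]
  congr 1
  field_simp

end Pool.Agent.W973.PrgE
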