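import Pool.Agent.H547R7.Stm2
import Pool.Agent.H547R7.T_SLI

/-!
Subtask PRG-GAD: monotone circuits are simulated under `x₀ ∧`.
-/

set_option autoImplicit false

namespace Pool.Agent.W973.PrgG

open Pool.Agent.H547R7 Pool.Agent.H547R6

/-- the term `h` can be computed from available functions by at most `c` gates -/
def Sim (B : Set BFun) {m : ℕ} (h : (Fin m → Bool) → Bool) (c : ℕ) : Prop :=
  ∀ (N : ℕ) (l : List (BF N)) (g : Fin m → BF N), Gates B N l → (∀ j, Avail l (g j)) →
    ∃ l', Gates B N (l' ++ l) ∧ l'.length ≤ c ∧ Avail (l' ++ l) (fun x => h fun j => g j x)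

theorem Sim.many {B : Set BFun} {m k : ℕ} (h : Fin k → (Fin m → Bool) → Bool) (c : Fin k → ℕ)
    (hs : ∀ j, Sim B (h j) (c j)) (N : ℕ) (l : List (BF N)) (g : Fin m → BF N)
    (hl : Gates B N l) (hg : ∀ j, Avail l (g j)) (M : ℕ) :
    ∃ l', Gates B N (l' ++ l) ∧
      l'.length ≤ ∑ j : Fin k, (if (j : ℕ) < M then c j else 0) ∧
      ∀ j : Fin k, (j : ℕ) < M → Avail (l' ++ l) (fun x => h j fun i => g i x) := by
  induction M with
  | zero => exact ⟨[], hl, by simp, fun j hj => absurd hj (by omega)⟩
  | succ M ih =>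
    obtain ⟨l', hl', hlen, hav⟩ := ih
    by_cases hM : M < k
    · obtain ⟨l'', hl'', hlen', hav'⟩ := hs ⟨M, hM⟩ N (l' ++ l) g hl'
        fun j => SLI_avail_mono l' (hg j)
      refine ⟨l'' ++ l', by rw [List.append_assoc]; exact hl'', ?_, ?_⟩
      · have h1 : ∑ j : Fin k, (if (j : ℕ) < M + 1 then c j else 0) =
            ∑ j : Fin k, (if (j : ℕ) < M then c j else 0) + c ⟨M, hM⟩ := by
          have h2 : ∀ j : Fin k, (if (j : ℕ) < M + 1 then c j else 0) =
              (if (j : ℕ) < M then c j else 0) + (if j = ⟨M, hM⟩ then c j else 0) := by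
            intro j
            rcases lt_trichotomy (j : ℕ) M with h | h | h
            · have h3 : ¬ j = ⟨M, hM⟩ := fun e => by
                have := congrArg Fin.val e
                simp at this
                omega
              rw [if_pos (by omega), if_pos h, if_neg h3, add_zero]
            · have h3 : j = ⟨M, hM⟩ := Fin.ext h
              rw [if_pos (by omega), if_neg (by omega), if_pos h3, zero_add]
            · have h3 : ¬ j = ⟨M, hM⟩ := fun e => by
                have := congrArg Fin.val e
                simp at this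
                omega
              rw [if_neg (by omega), if_neg (by omega), if_neg h3]
          simp only [h2, Finset.sum_add_distrib, Finset.sum_ite_eq', Finset.mem_univ, if_true]
        rw [h1, List.length_append]
        omega
      · intro j hj
        rw [List.append_assoc]
        rcases Nat.lt_succ_iff_lt_or_eq.mp hj with h | h
        · exact SLI_avail_mono l'' (hav j h)
        · have h3 : j = ⟨M, hM⟩ := Fin.ext h
          rw [h3]
          exact hav'
    · refine ⟨l', hl', hlen.trans (Finset.sum_le_sum fun j _ => ?_), fun j _ => hav j ?_⟩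
      · split_ifs <;> omega
      · have := j.2
        omega

theorem sim_of_gen {B : Set BFun} {m : ℕ} {h : (Fin m → Bool) → Bool} (hh : Gen B (Fin m) h) :
    ∃ c, Sim B h c := by
  induction hh with
  | var i => exact ⟨0, fun N l g hl hg => ⟨[], hl, by simp, hg i⟩⟩
  | app k f hf g hg ih =>
    choose c hc using ih
    refine ⟨(∑ j : Fin k, c j) + 1, ?_⟩
    intro N l u hl hu
    obtain ⟨l', hl', hlen, hav⟩ := Sim.many g c hc N l u hl hu k
    have h1 : ∑ j : Fin k, (if (j : ℕ) < k then c j else 0) = ∑ j : Fin k, c j :=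
      Finset.sum_congr rfl fun j _ => if_pos j.2
    rw [h1] at hlen
    refine ⟨(fun x => f fun j => g j fun i => u i x) :: l', ?_, ?_, ?_⟩
    · exact Gates.gate (l' ++ l) k f (fun j x => g j fun i => u i x) hf
        (fun j => hav j j.2) hl'
    · rw [List.length_cons]
      omega
    · exact Or.inl (by simp)

/-- the function `x₀ ∧ f` -/
def lift {n : ℕ} (f : BF n) : BF (n + 1) := fun x => x 0 && f fun i => x i.succ

theorem bool_and (r p q : Bool) : (r && (p && q)) = ((r && p) && ((r && q) || (r && q))) := by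
  cases p <;> cases q <;> cases r <;> rfl

theorem bool_or (r p q : Bool) : (r && (p || q)) = (r && ((r && p) || (r && q))) := by
  cases p <;> cases q <;> cases r <;> rfl

theorem t_GAD : S_GAD := by
  intro B hB
  obtain ⟨c, hc⟩ := sim_of_gen hB
  have ht : ∀ (N : ℕ) (l : List (BF N)) (u v w : BF N), Gates B N l → Avail l u → Avail l v →
      Avail l w → ∃ l', Gates B N (l' ++ l) ∧ l'.length ≤ c ∧
        Avail (l' ++ l) (fun x => u x && (v x || w x)) := by
    intro N l u v w hl hu hv hw
    exact hc N l ![u, v, w] hl (by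
      intro j
      fin_cases j
      · exact hu
      · exact hv
      · exact hw)
  have hx : ∀ (n : ℕ) (l : List (BF n)) (L : List (BF (n + 1))), Gates B (n + 1) L →
      (∀ g ∈ l, Avail L (lift g)) → ∀ g, Avail l g →
      ∃ L', Gates B (n + 1) (L' ++ L) ∧ L'.length ≤ c ∧ Avail (L' ++ L) (lift g) := by
    intro n l L hL hl g hg
    rcases hg with hg | ⟨i, rfl⟩
    · exact ⟨[], hL, by simp, hl g hg⟩
    · obtain ⟨L', h1, h2, h3⟩ := ht (n + 1) L (fun x => x 0) (fun x => x i.succ)
        (fun x => x i.succ) hL (Or.inr ⟨0, rfl⟩) (Or.inr ⟨i.succ, rfl⟩) (Or.inr ⟨i.succ, rfl⟩)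
      refine ⟨L', h1, h2, ?_⟩
      have h4 : (lift fun x : Fin n → Bool => x i) =
          fun x : Fin (n + 1) → Bool => x 0 && (x i.succ || x i.succ) := by
        funext x
        simp [lift]
      rw [h4]
      exact h3
  have hm : ∀ (n : ℕ) (l : List (BF n)), Gates MB n l → ∃ L : List (BF (n + 1)),
      Gates B (n + 1) L ∧ L.length ≤ 3 * c * l.length ∧ ∀ g ∈ l, Avail L (lift g) := by
    intro n l hl
    induction hl with
    | nil => exact ⟨[], Gates.nil, by simp, by simp⟩
    | gate l k f g hf hg _ ih =>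
      obtain ⟨L, hL, hlen, hav⟩ := ih
      have step : ∀ g₀ g₁ : BF n, Avail l g₀ → Avail l g₁ → ∀ o : Bool → Bool → Bool,
          (o = (fun a b => a && b) ∨ o = fun a b => a || b) →
          ∃ L : List (BF (n + 1)), Gates B (n + 1) L ∧ L.length ≤ 3 * c * (l.length + 1) ∧
            ∀ h ∈ (fun x => o (g₀ x) (g₁ x)) :: l, Avail L (lift h) := by
        intro g₀ g₁ hg₀ hg₁ o ho
        obtain ⟨L₀, a1, a2, a3⟩ := hx n l L hL hav g₀ hg₀
        obtain ⟨L₁, b1, b2, b3⟩ := hx n l (L₀ ++ L) a1
          (fun g hg => SLI_avail_mono L₀ (hav g hg)) g₁ hg₁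
        have a4 := SLI_avail_mono L₁ a3
        have key : ∃ L₂, Gates B (n + 1) (L₂ ++ (L₁ ++ (L₀ ++ L))) ∧ L₂.length ≤ c ∧
            Avail (L₂ ++ (L₁ ++ (L₀ ++ L))) (lift fun x => o (g₀ x) (g₁ x)) := by
          rcases ho with rfl | rfl
          · obtain ⟨L₂, c1, c2, c3⟩ := ht (n + 1) _ _ _ _ b1 a4 b3 b3
            refine ⟨L₂, c1, c2, ?_⟩
            have h4 : (lift fun x : Fin n → Bool => (g₀ x && g₁ x)) =
                fun x : Fin (n + 1) → Bool => lift g₀ x && (lift g₁ x || lift g₁ x) := by
              funext x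
              show (x 0 && ((g₀ fun i => x i.succ) && (g₁ fun i => x i.succ))) =
                ((x 0 && (g₀ fun i => x i.succ)) && ((x 0 && (g₁ fun i => x i.succ)) ||
                  (x 0 && (g₁ fun i => x i.succ))))
              exact bool_and _ _ _
            show Avail _ (lift fun x : Fin n → Bool => (g₀ x && g₁ x))
            rw [h4]
            exact c3
          · obtain ⟨L₂, c1, c2, c3⟩ := ht (n + 1) _ (fun x => x 0) _ _ b1 (Or.inr ⟨0, rfl⟩) a4 b3
            refine ⟨L₂, c1, c2, ?_⟩
            have h4 : (lift fun x : Fin n → Bool => (g₀ x || g₁ x)) =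
                fun x : Fin (n + 1) → Bool => x 0 && (lift g₀ x || lift g₁ x) := by
              funext x
              show (x 0 && ((g₀ fun i => x i.succ) || (g₁ fun i => x i.succ))) =
                (x 0 && ((x 0 && (g₀ fun i => x i.succ)) || (x 0 && (g₁ fun i => x i.succ))))
              exact bool_or _ _ _
            show Avail _ (lift fun x : Fin n → Bool => (g₀ x || g₁ x))
            rw [h4]
            exact c3
        obtain ⟨L₂, c1, c2, c3⟩ := key
        refine ⟨_, c1, ?_, ?_⟩
        · rw [List.length_append, List.length_append, List.length_append, Nat.mul_add]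
          omega
        · intro h hh
          rcases List.mem_cons.mp hh with rfl | hh
          · exact c3
          · exact SLI_avail_mono L₂ (SLI_avail_mono L₁ (SLI_avail_mono L₀ (hav h hh)))
      rcases hf with h | h
      · cases h
        exact step (g 0) (g 1) (hg 0) (hg 1) _ (Or.inl rfl)
      · cases h
        exact step (g 0) (g 1) (hg 0) (hg 1) _ (Or.inr rfl)
  refine ⟨3 * c, ?_⟩
  rintro n s f ⟨l, hl, hlen, hf⟩
  obtain ⟨L, hL, hL', hav⟩ := hm n l hl
  obtain ⟨L', h1, h2, h3⟩ := hx n l L hL hav f hf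
  refine ⟨L' ++ L, h1, ?_, h3⟩
  rw [List.length_append, Nat.mul_add]
  have : 3 * c * l.length ≤ 3 * c * s := Nat.mul_le_mul_left _ hlen
  omega

end Pool.Agent.W973.PrgG
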