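import Pool.Agent.H547R7.Stm2

/-!
Subtask PRG-MOD: choice of a member of a list by a random bit string modulo the length.
-/

set_option autoImplicit false

namespace Pool.Agent.W973.PrgM

open Pool.Agent.H547R7
open Pool.Agent.NPC (valB valB_cons valB_nil)

/-- indicator -/
noncomputable def ind (b : Bool) : ℝ := if b = true then 1 else 0

theorem ind_nonneg (b : Bool) : 0 ≤ ind b := by unfold ind; split_ifs <;> norm_num

theorem ind_le (b : Bool) : ind b ≤ 1 := by unfold ind; split_ifs <;> norm_num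

theorem sum_two (f : ℕ → ℝ) (M : ℕ) :
    ∑ w ∈ Finset.range (2 * M), f w = ∑ v ∈ Finset.range M, (f (1 + 2 * v) + f (0 + 2 * v)) := by
  induction M with
  | zero => simp
  | succ M ih =>
    rw [show 2 * (M + 1) = 2 * M + 1 + 1 by ring, Finset.sum_range_succ, Finset.sum_range_succ,
      Finset.sum_range_succ, ih, zero_add, add_comm 1 (2 * M)]
    ring

theorem sum_val (d : ℕ) (f : ℕ → ℝ) :
    ∑ s : Fin d → Bool, f (valB (List.ofFn s)) = ∑ v ∈ Finset.range (2 ^ d), f v := by
  induction d generalizing f with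
  | zero => simp
  | succ d ih =>
    rw [← (Fin.consEquiv fun _ : Fin (d + 1) => Bool).sum_comp, Fintype.sum_prod_type,
      Fintype.sum_bool, pow_succ, mul_comm, sum_two, Finset.sum_add_distrib]
    congr 1
    · rw [← ih fun v => f (1 + 2 * v)]
      apply Finset.sum_congr rfl
      intro s _
      simp [Fin.consEquiv, List.ofFn_succ]
    · rw [← ih fun v => f (0 + 2 * v)]
      apply Finset.sum_congr rfl
      intro s _
      simp [Fin.consEquiv, List.ofFn_succ]

theorem sum_per (L q : ℕ) (f : ℕ → ℝ) :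
    ∑ v ∈ Finset.range (q * L), f (v % L) = q * ∑ v ∈ Finset.range L, f v := by
  induction q with
  | zero => simp
  | succ q ih =>
    rw [Nat.succ_mul, Finset.sum_range_add, ih]
    have h : ∀ v ∈ Finset.range L, f ((q * L + v) % L) = f v := by
      intro v hv
      rw [Nat.mul_add_mod_self_right, Nat.mod_eq_of_lt (Finset.mem_range.mp hv)]
    rw [Finset.sum_congr rfl h]
    push_cast
    ring

theorem countP_eq {α : Type} (x₀ : α) (D : List α) (p : α → Bool) :
    (D.countP p : ℝ) = ∑ v ∈ Finset.range D.length, ind (p (D.getD v x₀)) := by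
  induction D with
  | nil => simp
  | cons a D ih =>
    rw [List.countP_cons, List.length_cons, Finset.sum_range_succ']
    push_cast
    rw [ih]
    simp [ind]

theorem t_MOD : S_MOD := by
  intro α x₀ D p d hD
  have hL : 0 < D.length := List.length_pos_iff.mpr hD
  obtain ⟨L, hLe⟩ : ∃ L, L = D.length := ⟨_, rfl⟩
  obtain ⟨f, hf⟩ : ∃ f : ℕ → ℝ, f = fun v => ind (p (D.getD v x₀)) := ⟨_, rfl⟩
  have hf0 : ∀ v, 0 ≤ f v := by intro v; rw [hf]; exact ind_nonneg _
  have hf1 : ∀ v, f v ≤ 1 := by intro v; rw [hf]; exact ind_le _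
  have h1 : pr (fun s : Fin d → Bool => p (D.getD (valB (List.ofFn s) % D.length) x₀)) =
      (∑ v ∈ Finset.range (2 ^ d), f (v % L)) / 2 ^ d := by
    rw [← sum_val d fun v => f (v % L), hf, hLe]
    unfold pr ind
    rw [Finset.sum_boole]
    simp
  have h2 : cp D p = (∑ v ∈ Finset.range L, f v) / L := by
    unfold cp
    rw [countP_eq x₀ D p, hf, hLe]
  rw [h1, h2, ← hLe]
  rw [← hLe] at hL
  obtain ⟨c, hc⟩ : ∃ c, c = ∑ v ∈ Finset.range L, f v := ⟨_, rfl⟩
  have hc0 : 0 ≤ c := by rw [hc]; exact Finset.sum_nonneg fun v _ => hf0 v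
  have hcL : c ≤ L := by
    rw [hc]
    refine (Finset.sum_le_sum fun v _ => hf1 v).trans ?_
    simp
  rw [← hc]
  obtain ⟨q, r, hqr, hr⟩ : ∃ q r, 2 ^ d = q * L + r ∧ r < L :=
    ⟨2 ^ d / L, 2 ^ d % L, by rw [mul_comm]; exact (Nat.div_add_mod _ _).symm, Nat.mod_lt _ hL⟩
  have h3 : ∑ v ∈ Finset.range (2 ^ d), f (v % L) =
      q * c + ∑ v ∈ Finset.range r, f ((q * L + v) % L) := by
    rw [hqr, Finset.sum_range_add, sum_per, hc]
  obtain ⟨t, ht⟩ : ∃ t, t = ∑ v ∈ Finset.range r, f ((q * L + v) % L) := ⟨_, rfl⟩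
  have ht0 : 0 ≤ t := by rw [ht]; exact Finset.sum_nonneg fun v _ => hf0 _
  have htr : t ≤ r := by
    rw [ht]
    refine (Finset.sum_le_sum fun v _ => hf1 _).trans ?_
    simp
  rw [h3, ← ht]
  have hN : (2 : ℝ) ^ d = q * L + r := by exact_mod_cast hqr
  have hN0 : (0 : ℝ) < 2 ^ d := by positivity
  have hL0 : (0 : ℝ) < L := by exact_mod_cast hL
  have hr0 : (0 : ℝ) ≤ r := by positivity
  have hrL : (r : ℝ) ≤ L := by exact_mod_cast hr.le
  have h4 : (q * c + t) / 2 ^ d - c / L = (L * t - c * r) / (2 ^ d * L) := by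
    field_simp
    rw [hN]
    ring
  rw [h4, abs_div, abs_of_pos (mul_pos hN0 hL0), div_le_div_iff₀ (mul_pos hN0 hL0) hN0]
  have h5 : |L * t - c * r| ≤ L * L := by
    rw [abs_le]
    constructor
    · nlinarith [mul_nonneg hL0.le ht0, mul_le_mul hcL hrL hr0 hL0.le]
    · nlinarith [mul_nonneg hc0 hr0, mul_le_mul_of_nonneg_left (htr.trans hrL) hL0.le]
  calc |L * t - c * r| * 2 ^ d ≤ (L * L) * 2 ^ d := mul_le_mul_of_nonneg_right h5 hN0.le
    _ = L * (2 ^ d * L) := by ring

end Pool.Agent.W973.PrgM
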