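import Pool.Agent.H547R7.Stm

/-!
Subtask PRG-XOR: the sum of two independent copies of a generator squares the error.
-/

set_option autoImplicit false

namespace Pool.Agent.W973.Prg

open Pool.Agent.H547R7

/-- average -/
noncomputable def avg {X : Type} [Fintype X] (F : X → ℝ) : ℝ := (∑ x, F x) / Fintype.card X

theorem pr_eq_avg {X : Type} [Fintype X] (p : X → Bool) :
    pr p = avg fun x => if p x = true then (1 : ℝ) else 0 := by
  unfold pr avg
  rw [Finset.sum_boole]

theorem avg_add {X : Type} [Fintype X] (F F' : X → ℝ) :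
    avg (fun x => F x + F' x) = avg F + avg F' := by
  unfold avg
  rw [Finset.sum_add_distrib, add_div]

theorem avg_const {X : Type} [Fintype X] [Nonempty X] (c : ℝ) : avg (fun _ : X => c) = c := by
  unfold avg
  rw [Finset.sum_const, Finset.card_univ, nsmul_eq_mul]
  have : (Fintype.card X : ℝ) ≠ 0 := by positivity
  field_simp

theorem avg_sum {X : Type} [Fintype X] {ι : Type} (s : Finset ι) (F : ι → X → ℝ) :
    avg (fun x => ∑ i ∈ s, F i x) = ∑ i ∈ s, avg (F i) := by
  unfold avg
  rw [Finset.sum_comm, Finset.sum_div]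

theorem avg_mul {X : Type} [Fintype X] (F : X → ℝ) (c : ℝ) :
    avg (fun x => c * F x) = c * avg F := by
  unfold avg
  rw [← Finset.mul_sum, mul_div_assoc]

theorem avg_div {X : Type} [Fintype X] (F : X → ℝ) (c : ℝ) :
    avg (fun x => F x / c) = avg F / c := by
  unfold avg
  rw [← Finset.sum_div, div_right_comm]

theorem avg_le {X : Type} [Fintype X] {F F' : X → ℝ} (h : ∀ x, F x ≤ F' x) : avg F ≤ avg F' := by
  unfold avg
  exact div_le_div_of_nonneg_right (Finset.sum_le_sum fun x _ => h x) (by positivity)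

theorem avg_sub_abs {X : Type} [Fintype X] [Nonempty X] {F F' : X → ℝ} {δ : ℝ}
    (h : ∀ x, |F x - F' x| ≤ δ) : |avg F - avg F'| ≤ δ := by
  have h1 : avg F ≤ avg fun x => F' x + δ := avg_le fun x => by linarith [(abs_le.1 (h x)).2]
  have h2 : avg F' ≤ avg fun x => F x + δ := avg_le fun x => by linarith [(abs_le.1 (h x)).1]
  rw [avg_add, avg_const] at h1 h2
  rw [abs_le]
  constructor <;> linarith

theorem avg_prod {X Y : Type} [Fintype X] [Fintype Y] (F : X × Y → ℝ) :
    avg F = avg fun y => avg fun x => F (x, y) := by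
  unfold avg
  rw [← Finset.sum_div, Fintype.card_prod, Fintype.sum_prod_type_right, div_div]
  push_cast
  rfl

theorem avg_comm {X Y : Type} [Fintype X] [Fintype Y] (F : X → Y → ℝ) :
    (avg fun y => avg fun x => F x y) = avg fun x => avg fun y => F x y := by
  unfold avg
  rw [← Finset.sum_div, ← Finset.sum_div, Finset.sum_comm, div_right_comm]

theorem avg_equiv {X Y : Type} [Fintype X] [Fintype Y] (e : X ≃ Y) (F : Y → ℝ) :
    avg (fun x => F (e x)) = avg F := by
  unfold avg
  rw [Equiv.sum_comp e F, Fintype.card_congr e]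

/-- the average of an integer-valued function in terms of thresholds -/
theorem avg_nat {X : Type} [Fintype X] [Nonempty X] (N : X → ℕ) (a b : ℕ) (ha : ∀ x, a ≤ N x)
    (hb : ∀ x, N x ≤ b) :
    avg (fun x => (N x : ℝ)) = a + ∑ θ ∈ Finset.Ico a b, pr fun x => decide (θ + 1 ≤ N x) := by
  have h1 : ∀ x, (N x : ℝ) = a + ∑ θ ∈ Finset.Ico a b,
      (if decide (θ + 1 ≤ N x) = true then (1 : ℝ) else 0) := by
    intro x
    rw [Finset.sum_boole]
    have h2 : (Finset.Ico a b).filter (fun θ => decide (θ + 1 ≤ N x) = true) =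
        Finset.Ico a (N x) := by
      ext θ
      simp only [Finset.mem_filter, Finset.mem_Ico, decide_eq_true_eq]
      have := hb x
      constructor
      · rintro ⟨⟨h3, h4⟩, h5⟩; exact ⟨h3, by omega⟩
      · rintro ⟨h3, h4⟩; exact ⟨⟨h3, by omega⟩, by omega⟩
    rw [h2, Nat.card_Ico, Nat.cast_sub (ha x)]
    ring
  rw [show (fun x => (N x : ℝ)) = fun x => (a : ℝ) + ∑ θ ∈ Finset.Ico a b,
      (if decide (θ + 1 ≤ N x) = true then (1 : ℝ) else 0) from funext h1]
  rw [avg_add, avg_const, avg_sum]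
  congr 1
  exact Finset.sum_congr rfl fun θ _ => (pr_eq_avg _).symm

theorem vx_vx {n : ℕ} (x y : Fin n → Bool) : vx x (vx x y) = y := by
  ext i
  simp [vx]

theorem t_XOR : S_XOR := by
  intro Ω _ _ n G C T s ε δ hT hε hε1 hδ H1 H2 H3
  set N : (Fin n → Bool) → ℕ := fun y =>
    (Finset.univ.filter fun i => C (vx (G (s i)) y) = true).card with hN
  have hT0 : (0 : ℝ) < T := by exact_mod_cast hT
  -- range of `N`
  obtain ⟨y₀, -, hy₀⟩ := Finset.exists_min_image (Finset.univ : Finset (Fin n → Bool)) N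
    ⟨fun _ => false, Finset.mem_univ _⟩
  obtain ⟨y₁, -, hy₁⟩ := Finset.exists_max_image (Finset.univ : Finset (Fin n → Bool)) N
    ⟨fun _ => false, Finset.mem_univ _⟩
  have hlo : ∀ y, N y₀ ≤ N y := fun y => hy₀ y (Finset.mem_univ _)
  have hhi : ∀ y, N y ≤ N y₁ := fun y => hy₁ y (Finset.mem_univ _)
  have hNp : ∀ y, |(N y : ℝ) / T - pr C| ≤ ε + δ := by
    intro y
    have h1 := H1 y
    have h2 := H3 y
    have h3 : (N y : ℝ) / T - pr C = ((N y : ℝ) / T - pr (fun w => C (vx (G w) y))) +
      (pr (fun w => C (vx (G w) y)) - pr C) := by ring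
    rw [h3]
    exact (abs_add_le _ _).trans (by linarith)
  have hrange : ((N y₁ : ℝ) - N y₀) / T ≤ 2 * (ε + δ) := by
    have h1 := (abs_le.1 (hNp y₁)).2
    have h2 := (abs_le.1 (hNp y₀)).1
    rw [sub_div]
    linarith
  -- the two averages of `N`
  have hA := avg_nat (fun w => N (G w)) (N y₀) (N y₁) (fun w => hlo _) (fun w => hhi _)
  have hB := avg_nat N (N y₀) (N y₁) hlo hhi
  have hAB : |avg (fun w => (N (G w) : ℝ)) - avg (fun y => (N y : ℝ))| ≤
      ((N y₁ : ℝ) - N y₀) * ε := by
    rw [hA, hB]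
    have h1 : ∀ a b c : ℝ, (a + b) - (a + c) = b - c := fun a b c => by ring
    rw [h1, ← Finset.sum_sub_distrib]
    refine (Finset.abs_sum_le_sum_abs _ _).trans ?_
    refine (Finset.sum_le_sum fun θ _ => H2 (θ + 1)).trans ?_
    rw [Finset.sum_const, Nat.card_Ico, nsmul_eq_mul, Nat.cast_sub (hlo y₁)]
  have hAB' : |avg (fun w => (N (G w) : ℝ) / T) - avg (fun y => (N y : ℝ) / T)| ≤
      2 * (ε + δ) * ε := by
    rw [avg_div, avg_div, ← sub_div, abs_div, abs_of_pos hT0, div_le_iff₀ hT0]
    refine hAB.trans ?_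
    rw [div_le_iff₀ hT0] at hrange
    nlinarith
  -- the two probabilities
  have hP : pr (fun w : Ω × Ω => C (vx (G w.1) (G w.2))) =
      avg fun w => pr fun w' => C (vx (G w') (G w)) := by
    rw [pr_eq_avg, avg_prod]
    congr 1
    funext w
    rw [pr_eq_avg]
  have hP1 : |avg (fun w => (N (G w) : ℝ) / T) - avg (fun w => pr fun w' => C (vx (G w') (G w)))| ≤
      δ := avg_sub_abs fun w => H1 (G w)
  have hQ : (avg fun y => pr fun w => C (vx (G w) y)) = pr C := by
    have h1 : (fun y => pr fun w => C (vx (G w) y)) =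
        fun y => avg fun w => if C (vx (G w) y) = true then (1 : ℝ) else 0 :=
      funext fun y => pr_eq_avg _
    rw [h1, avg_comm]
    have h2 : ∀ w, (avg fun y => if C (vx (G w) y) = true then (1 : ℝ) else 0) = pr C := by
      intro w
      let e : (Fin n → Bool) ≃ (Fin n → Bool) := ⟨vx (G w), vx (G w), vx_vx _, vx_vx _⟩
      rw [pr_eq_avg]
      exact avg_equiv e fun y => if C y = true then (1 : ℝ) else 0
    simp only [h2]
    exact avg_const _
  have hQ1 : |avg (fun y => (N y : ℝ) / T) - pr C| ≤ δ := by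
    rw [← hQ]
    exact avg_sub_abs fun y => H1 y
  rw [hP]
  have h1 := abs_le.1 hAB'
  have h2 := abs_le.1 hP1
  have h3 := abs_le.1 hQ1
  rw [abs_le]
  constructor <;> nlinarith

end Pool.Agent.W973.Prg
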