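import Mathlib

/-!
Subtask EGS-R, part 1: abstract linear algebra.
-/

open scoped InnerProductSpace

namespace Pool.Agent.W973.EGSR

theorem rayleigh_skew {W : Type*} [NormedAddCommGroup W] [InnerProductSpace ℝ W]
    [FiniteDimensional ℝ W] {m : ℕ}
    (A : Fin m → W →ₗ[ℝ] W) (hA : ∀ i u v, ⟪A i u, v⟫_ℝ = -⟪u, A i v⟫_ℝ) (e : W)
    (hAe : ∀ i, A i e = 0) (hker : ∀ u, (∀ i, A i u = 0) → ∃ c : ℝ, u = c • e)
    (F : W) (hF : ⟪F, e⟫_ℝ = 0) (hF0 : F ≠ 0) :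
    ∃ (lam : ℝ) (u : W), 0 < lam ∧ u ≠ 0 ∧ -∑ i, A i (A i u) = lam • u ∧
      lam * ⟪F, F⟫_ℝ ≤ ∑ i, ⟪A i F, A i F⟫_ℝ := by
  let T : W →ₗ[ℝ] W := -∑ i, (A i) ∘ₗ (A i)
  have hT : ∀ u, T u = -∑ i, A i (A i u) := fun u => by simp [T]
  have hTs : ∀ u v, ⟪T u, v⟫_ℝ = ∑ i, ⟪A i u, A i v⟫_ℝ := by
    intro u v
    rw [hT, inner_neg_left, sum_inner]
    rw [← Finset.sum_neg_distrib]
    refine Finset.sum_congr rfl fun i _ => ?_
    rw [hA, neg_neg]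
  let W₀ : Submodule ℝ W := (ℝ ∙ e)ᗮ
  have hW₀ : ∀ u ∈ W₀, T u ∈ W₀ := by
    intro u hu
    rw [Submodule.mem_orthogonal_singleton_iff_inner_left, hTs]
    refine Finset.sum_eq_zero fun i _ => ?_
    rw [hAe, inner_zero_right]
  let T₀ : W₀ →ₗ[ℝ] W₀ := T.restrict hW₀
  have hT₀ : ∀ u : W₀, (T₀ u : W) = T u := fun u => rfl
  have hsym : T₀.IsSymmetric := by
    intro u v
    rw [Submodule.coe_inner, Submodule.coe_inner, hT₀, hT₀, hTs, real_inner_comm, hTs]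
    refine Finset.sum_congr rfl fun i _ => ?_
    rw [real_inner_comm]
  have hFW : F ∈ W₀ := by
    rw [Submodule.mem_orthogonal_singleton_iff_inner_left]
    exact hF
  let F₀ : W₀ := ⟨F, hFW⟩
  have hF₀ : F₀ ≠ 0 := fun h => hF0 (congrArg Subtype.val h)
  have : Nontrivial W₀ := ⟨F₀, 0, hF₀⟩
  have hev := hsym.hasEigenvalue_iInf_of_finiteDimensional
  set lam : ℝ := ⨅ x : { x : W₀ // x ≠ 0 }, RCLike.re ⟪T₀ x, x⟫_ℝ / ‖(x : W₀)‖ ^ 2 with hlam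
  obtain ⟨u, hu⟩ := hev.exists_hasEigenvector
  have hu1 : T₀ u = lam • u := hu.apply_eq_smul
  have hu0 : u ≠ 0 := hu.2
  have hu0' : (u : W) ≠ 0 := fun h => hu0 (Subtype.ext h)
  have hu2 : T (u : W) = lam • (u : W) := by
    rw [← hT₀, hu1]; rfl
  have hnn : ∀ v : W, 0 ≤ ⟪v, v⟫_ℝ := fun v => real_inner_self_nonneg
  have hupos : 0 < ⟪(u : W), (u : W)⟫_ℝ := real_inner_self_pos.2 hu0'
  have hq : lam * ⟪(u : W), (u : W)⟫_ℝ = ∑ i, ⟪A i u, A i u⟫_ℝ := by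
    rw [← hTs, hu2, real_inner_smul_left]
  have hlam0 : 0 ≤ lam := by
    by_contra hneg
    push Not at hneg
    have h1 : 0 ≤ ∑ i, ⟪A i u, A i u⟫_ℝ := Finset.sum_nonneg fun i _ => hnn _
    nlinarith
  have hlampos : 0 < lam := by
    rcases hlam0.eq_or_lt with h | h
    · exfalso
      rw [← h, zero_mul] at hq
      have h1 : ∀ i, A i (u : W) = 0 := by
        intro i
        have h2 := (Finset.sum_eq_zero_iff_of_nonneg (fun i _ => hnn (A i (u : W)))).1 hq.symm i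
          (Finset.mem_univ i)
        exact inner_self_eq_zero.1 h2
      obtain ⟨c, hc⟩ := hker _ h1
      have h3 : ⟪(u : W), e⟫_ℝ = 0 :=
        Submodule.mem_orthogonal_singleton_iff_inner_left.1 u.2
      have h4 : ⟪(u : W), (u : W)⟫_ℝ = 0 := by
        nth_rewrite 2 [hc]
        rw [inner_smul_right, h3, mul_zero]
      rw [h4] at hupos
      exact lt_irrefl _ hupos
    · exact h
  refine ⟨lam, u, hlampos, hu0', ?_, ?_⟩
  · rw [← hT, hu2]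
  · have hbdd : BddBelow (Set.range fun x : { x : W₀ // x ≠ 0 } =>
        RCLike.re ⟪T₀ x, x⟫_ℝ / ‖(x : W₀)‖ ^ 2) := by
      refine ⟨0, ?_⟩
      rintro _ ⟨x, rfl⟩
      have h1 : ⟪T₀ x, (x : W₀)⟫_ℝ = ∑ i, ⟪A i (x : W₀), A i (x : W₀)⟫_ℝ := by
        rw [Submodule.coe_inner, hT₀, hTs]
      show (0 : ℝ) ≤ ⟪T₀ x, (x : W₀)⟫_ℝ / ‖(x : W₀)‖ ^ 2
      rw [h1]
      exact div_nonneg (Finset.sum_nonneg fun i _ => hnn _) (by positivity)
    have h2 := ciInf_le hbdd ⟨F₀, hF₀⟩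
    rw [← hlam] at h2
    have h3 : ⟪T₀ F₀, F₀⟫_ℝ = ∑ i, ⟪A i F, A i F⟫_ℝ := by
      rw [Submodule.coe_inner, hT₀, hTs]
    have h4 : ‖F₀‖ ^ 2 = ⟪F, F⟫_ℝ := by
      rw [← real_inner_self_eq_norm_sq, Submodule.coe_inner]
    have h5 : lam ≤ ⟪T₀ F₀, F₀⟫_ℝ / ‖F₀‖ ^ 2 := h2
    rw [h3, h4] at h5
    have h6 : 0 < ⟪F, F⟫_ℝ := real_inner_self_pos.2 hF0
    rwa [le_div_iff₀ h6] at h5

/-- the same for a positive definite form on a real vector space -/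
theorem rayleigh_skew_form {W : Type*} [AddCommGroup W] [Module ℝ W] [FiniteDimensional ℝ W]
    (B : W →ₗ[ℝ] W →ₗ[ℝ] ℝ) (hsymm : ∀ u v, B u v = B v u) (hnonneg : ∀ u, 0 ≤ B u u)
    (hdef : ∀ u, B u u = 0 → u = 0) {m : ℕ}
    (A : Fin m → W →ₗ[ℝ] W) (hA : ∀ i u v, B (A i u) v = -B u (A i v)) (e : W)
    (hAe : ∀ i, A i e = 0) (hker : ∀ u, (∀ i, A i u = 0) → ∃ c : ℝ, u = c • e)
    (F : W) (hF : B F e = 0) (hF0 : F ≠ 0) :
    ∃ (lam : ℝ) (u : W), 0 < lam ∧ u ≠ 0 ∧ -∑ i, A i (A i u) = lam • u ∧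
      lam * B F F ≤ ∑ i, B (A i F) (A i F) := by
  let cd : InnerProductSpace.Core ℝ W :=
    { inner := fun u v => B u v
      conj_inner_symm := fun u v => by simp [hsymm u v]
      re_inner_nonneg := fun u => by simpa using hnonneg u
      add_left := fun u v w => by simp
      smul_left := fun u v r => by simp
      definite := fun u hu => hdef u hu }
  let : NormedAddCommGroup W := cd.toNormedAddCommGroup
  let : InnerProductSpace ℝ W := InnerProductSpace.ofCore cd.toCore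
  exact rayleigh_skew A hA e hAe hker F hF hF0

theorem exists_repr {W : Type*} [AddCommGroup W] [Module ℝ W] [FiniteDimensional ℝ W]
    (B : W →ₗ[ℝ] W →ₗ[ℝ] ℝ) (hdef : ∀ u, B u u = 0 → u = 0) (l : W →ₗ[ℝ] ℝ) :
    ∃ F : W, ∀ u, B F u = l u := by
  have hinj : Function.Injective B := by
    rw [← LinearMap.ker_eq_bot, LinearMap.ker_eq_bot']
    intro u hu
    exact hdef u (by rw [hu]; rfl)
  have hsurj : Function.Surjective B :=
    (LinearMap.injective_iff_surjective_of_finrank_eq_finrank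
      (f := B) (Subspace.dual_finrank_eq (K := ℝ) (V := W)).symm).1 hinj
  obtain ⟨F, hF⟩ := hsurj l
  exact ⟨F, fun u => by rw [hF]⟩

end Pool.Agent.W973.EGSR
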