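import Pool.Agent.W973.EGSR1
import Pool.Agent.W544.EG.Stubs
import Pool.Agent.Helper472.Lat_TTL
import Pool.Agent.Helper472.Lat_CST1
import Pool.Agent.Helper472.Lat_CST2

/-!
Subtask EGS-R, part 2: finite-dimensional right-invariant spaces of smooth functions.
-/

open Matrix MeasureTheory Filter Topology
open scoped Matrix.Norms.Frobenius ContDiff
open Pool.Agent.W544.EG

namespace Pool.Agent.W973.EGSR

variable {N : ℕ} {G : Subgroup (unitaryGroup (Fin N) ℂ)}

/-- matrix of a group element -/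
abbrev mt (x : G) : Mat N := ((x : unitaryGroup (Fin N) ℂ) : Mat N)

theorem mt_mul (x y : G) : mt (x * y) = mt x * mt y := rfl

theorem mt_one : mt (1 : G) = 1 := rfl

theorem continuous_mt : Continuous (mt : G → Mat N) :=
  continuous_subtype_val.comp continuous_subtype_val

theorem mt_injective : Function.Injective (mt : G → Mat N) :=
  Subtype.val_injective.comp Subtype.val_injective

/-- finite-dimensional right-invariant spaces of smooth functions -/
structure Nice (E : Submodule ℝ (G → ℝ)) : Prop where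
  fin : E.FG
  inv : ∀ u ∈ E, ∀ y : G, (fun x => u (x * y)) ∈ E
  smooth : ∀ u ∈ E, ∃ F : Mat N → ℝ, ContDiff ℝ ∞ F ∧ ∀ x : G, u x = F (mt x)

theorem Nice.sup {E E' : Submodule ℝ (G → ℝ)} (h : Nice E) (h' : Nice E') : Nice (E ⊔ E') where
  fin := h.fin.sup h'.fin
  inv u hu y := by
    obtain ⟨a, ha, b, hb, rfl⟩ := Submodule.mem_sup.1 hu
    exact Submodule.mem_sup.2 ⟨_, h.inv a ha y, _, h'.inv b hb y, rfl⟩
  smooth u hu := by
    obtain ⟨a, ha, b, hb, rfl⟩ := Submodule.mem_sup.1 hu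
    obtain ⟨F, hF, hF'⟩ := h.smooth a ha
    obtain ⟨F', hF1, hF1'⟩ := h'.smooth b hb
    exact ⟨fun x => F x + F' x, hF.add hF1, fun x => by
      rw [Pi.add_apply, hF', hF1']⟩

theorem Nice.mul {E E' : Submodule ℝ (G → ℝ)} (h : Nice E) (h' : Nice E') : Nice (E * E') where
  fin := h.fin.mul h'.fin
  inv u hu y := by
    refine Submodule.mul_induction_on (C := fun u => (fun x => u (x * y)) ∈ E * E') hu ?_ ?_
    · intro a ha b hb
      exact Submodule.mul_mem_mul (h.inv a ha y) (h'.inv b hb y)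
    · intro a b ha hb
      exact Submodule.add_mem _ ha hb
  smooth u hu := by
    refine Submodule.mul_induction_on
      (C := fun u => ∃ F : Mat N → ℝ, ContDiff ℝ ∞ F ∧ ∀ x : G, u x = F (mt x)) hu ?_ ?_
    · intro a ha b hb
      obtain ⟨F, hF, hF'⟩ := h.smooth a ha
      obtain ⟨F', hF1, hF1'⟩ := h'.smooth b hb
      exact ⟨fun x => F x * F' x, hF.mul hF1, fun x => by
        rw [Pi.mul_apply, hF', hF1']⟩
    · rintro a b ⟨F, hF, hF'⟩ ⟨F', hF1, hF1'⟩
      exact ⟨fun x => F x + F' x, hF.add hF1, fun x => by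
        rw [Pi.add_apply, hF', hF1']⟩

theorem nice_one : Nice (Submodule.span ℝ {(1 : G → ℝ)}) where
  fin := Submodule.fg_span_singleton _
  inv u hu y := by
    obtain ⟨c, rfl⟩ := Submodule.mem_span_singleton.1 hu
    exact Submodule.mem_span_singleton.2 ⟨c, by ext x; simp⟩
  smooth u hu := by
    obtain ⟨c, rfl⟩ := Submodule.mem_span_singleton.1 hu
    exact ⟨fun _ => c, contDiff_const, fun x => by simp⟩

/-- restrictions of linear functionals -/
noncomputable def resLin : (Mat N →ₗ[ℝ] ℝ) →ₗ[ℝ] (G → ℝ) where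
  toFun l := fun x => l (mt x)
  map_add' _ _ := rfl
  map_smul' _ _ := rfl

theorem nice_lin : Nice (LinearMap.range (resLin (G := G))) where
  fin := Module.Finite.iff_fg.1 inferInstance
  inv u hu y := by
    obtain ⟨l, rfl⟩ := hu
    exact ⟨l ∘ₗ LinearMap.mulRight ℝ (mt y), rfl⟩
  smooth u hu := by
    obtain ⟨l, rfl⟩ := hu
    exact ⟨fun x => l x, (LinearMap.toContinuousLinearMap l).contDiff, fun x => rfl⟩

theorem Nice.continuous {E : Submodule ℝ (G → ℝ)} (h : Nice E) {u : G → ℝ} (hu : u ∈ E) :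
    Continuous u := by
  obtain ⟨F, hF, hF'⟩ := h.smooth u hu
  have : u = fun x => F (mt x) := funext hF'
  rw [this]
  exact hF.continuous.comp continuous_mt

/-- the algebra of nice functions -/
def niceAlg (G : Subgroup (unitaryGroup (Fin N) ℂ)) : Subalgebra ℝ C(G, ℝ) where
  carrier := {h | ∃ E : Submodule ℝ (G → ℝ), Nice E ∧ (h : G → ℝ) ∈ E}
  mul_mem' := by
    rintro a b ⟨E, hE, ha⟩ ⟨E', hE', hb⟩
    exact ⟨E * E', hE.mul hE', Submodule.mul_mem_mul ha hb⟩
  add_mem' := by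
    rintro a b ⟨E, hE, ha⟩ ⟨E', hE', hb⟩
    exact ⟨E ⊔ E', hE.sup hE', Submodule.add_mem_sup ha hb⟩
  algebraMap_mem' r := ⟨_, nice_one, Submodule.mem_span_singleton.2 ⟨r, by ext x; simp⟩⟩

theorem niceAlg_sep : (niceAlg G).SeparatesPoints := by
  intro x y hxy
  have h1 : mt x ≠ mt y := fun h => hxy (mt_injective h)
  obtain ⟨i, j, hij⟩ : ∃ i j, mt x i j ≠ mt y i j := by
    by_contra hcon
    push Not at hcon
    exact h1 (by ext i j; exact hcon i j)
  have key : ∀ l : Mat N →ₗ[ℝ] ℝ, l (mt x) ≠ l (mt y) → ∃ f ∈ (fun f : C(G, ℝ) => (f : G → ℝ)) ''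
      (niceAlg G : Set C(G, ℝ)), f x ≠ f y := by
    intro l hl
    have hc : Continuous (fun x : G => l (mt x)) := nice_lin.continuous ⟨l, rfl⟩
    refine ⟨fun x => l (mt x), ⟨⟨_, hc⟩, ⟨_, nice_lin, ⟨l, rfl⟩⟩, rfl⟩, hl⟩
  let lre : Mat N →ₗ[ℝ] ℝ := Complex.reLm ∘ₗ (Matrix.entryLinearMap ℝ ℂ i j)
  let lim : Mat N →ₗ[ℝ] ℝ := Complex.imLm ∘ₗ (Matrix.entryLinearMap ℝ ℂ i j)
  have hre : ∀ M, lre M = (M i j).re := fun M => rfl
  have him : ∀ M, lim M = (M i j).im := fun M => rfl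
  by_cases h : (mt x i j).re = (mt y i j).re
  · refine key lim ?_
    rw [him, him]
    intro h2
    exact hij (Complex.ext h h2)
  · refine key lre ?_
    rw [hre, hre]
    exact h

/-- one-parameter group -/
structure OPG (X : Mat N) (γ : ℝ → G) : Prop where
  exp : ∀ t, mt (γ t) = NormedSpace.exp (t • X)

theorem exists_opg {X : Mat N} (hX : X ∈ LieAlg G) : ∃ γ : ℝ → G, OPG X γ := by
  choose u hu hu' using hX
  exact ⟨fun t => ⟨u t, hu t⟩, ⟨hu'⟩⟩

namespace OPG

variable {X : Mat N} {γ : ℝ → G} (h : OPG X γ)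

include h

theorem zero : γ 0 = 1 := mt_injective (by rw [h.exp, zero_smul, NormedSpace.exp_zero]; rfl)

theorem add (s t : ℝ) : γ (s + t) = γ s * γ t := mt_injective (by
  rw [mt_mul, h.exp, h.exp, h.exp, add_smul]
  exact NormedSpace.exp_add_of_commute
    (((Commute.refl X).smul_left s).smul_right t))

theorem hasDerivAt_mt (x : G) (t : ℝ) :
    HasDerivAt (fun t => mt (x * γ t)) (mt (x * γ t) * X) t := by
  have h1 : (fun t => mt (x * γ t)) = fun t => mt x * NormedSpace.exp (t • X) :=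
    funext fun t => by rw [mt_mul, h.exp]
  rw [h1, mt_mul, h.exp, mul_assoc]
  exact (hasDerivAt_exp_smul_const X t).const_mul (mt x)

theorem hasDerivAt_comp {F : Mat N → ℝ} (hF : ContDiff ℝ ∞ F) (x : G) (t : ℝ) :
    HasDerivAt (fun t => F (mt (x * γ t))) (fderiv ℝ F (mt (x * γ t)) (mt (x * γ t) * X)) t :=
  (hF.differentiable (by simp)).differentiableAt.hasFDerivAt.comp_hasDerivAt t
    (h.hasDerivAt_mt x t)

end OPG

/-- derivative along the one-parameter group -/
noncomputable def dX (γ : ℝ → G) (u : G → ℝ) (x : G) : ℝ := deriv (fun t => u (x * γ t)) 0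

section

variable {E : Submodule ℝ (G → ℝ)} (hE : Nice E) {X : Mat N} {γ : ℝ → G} (h : OPG X γ)

include hE h

theorem dX_spec {u : G → ℝ} (hu : u ∈ E) (x : G) (t : ℝ) :
    HasDerivAt (fun t => u (x * γ t)) (dX γ u (x * γ t)) t := by
  obtain ⟨F, hF, hF'⟩ := hE.smooth u hu
  have h0 : ∀ x t, HasDerivAt (fun t => u (x * γ t))
      (fderiv ℝ F (mt (x * γ t)) (mt (x * γ t) * X)) t := by
    intro x t
    have h1 : (fun t => u (x * γ t)) = fun t => F (mt (x * γ t)) := funext fun t => hF' _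
    rw [h1]
    exact h.hasDerivAt_comp hF x t
  have h2 : dX γ u (x * γ t) = fderiv ℝ F (mt (x * γ t)) (mt (x * γ t) * X) := by
    unfold dX
    rw [(h0 (x * γ t) 0).deriv, h.zero, mul_one]
  rw [h2]
  exact h0 x t

omit hE in
theorem dX_formula {u : G → ℝ} {F : Mat N → ℝ} (hF : ContDiff ℝ ∞ F)
    (hF' : ∀ x : G, u x = F (mt x)) (x : G) : dX γ u x = fderiv ℝ F (mt x) (mt x * X) := by
  have h1 : (fun t => u (x * γ t)) = fun t => F (mt (x * γ t)) := funext fun t => hF' _
  have h2 := h.hasDerivAt_comp hF x 0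
  unfold dX
  rw [h1, h2.deriv, h.zero, mul_one]

theorem dX_tendsto {u : G → ℝ} (hu : u ∈ E) :
    Tendsto (fun t : ℝ => (t⁻¹ • ((fun x => u (x * γ t)) - u) : G → ℝ)) (𝓝[≠] 0)
      (𝓝 (dX γ u)) := by
  rw [tendsto_pi_nhds]
  intro x
  have h1 := dX_spec hE h hu x 0
  rw [h.zero, mul_one, hasDerivAt_iff_tendsto_slope_zero] at h1
  simpa [h.zero] using h1

theorem dX_mem {u : G → ℝ} (hu : u ∈ E) : dX γ u ∈ E := by
  have : FiniteDimensional ℝ E := Module.Finite.iff_fg.2 hE.fin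
  have hcl : IsClosed (E : Set (G → ℝ)) := Submodule.closed_of_finiteDimensional E
  refine hcl.mem_of_tendsto (dX_tendsto hE h hu) (Eventually.of_forall fun t => ?_)
  exact E.smul_mem _ (E.sub_mem (hE.inv u hu _) hu)

/-- the derivative as a linear map of `E` -/
noncomputable def AX : E →ₗ[ℝ] E where
  toFun u := ⟨dX γ u, dX_mem hE h u.2⟩
  map_add' u v := by
    apply Subtype.ext
    ext x
    have h1 := dX_spec hE h u.2 x 0
    have h2 := dX_spec hE h v.2 x 0
    rw [h.zero, mul_one] at h1 h2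
    exact (h1.add h2).deriv
  map_smul' r u := by
    apply Subtype.ext
    ext x
    have h1 := dX_spec hE h u.2 x 0
    rw [h.zero, mul_one] at h1
    exact (h1.const_smul r).deriv

end

end Pool.Agent.W973.EGSR
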