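import Pool.Agent.W973.EGSR2

/-!
Subtask EGS-R, part 3: integration, and the proof of `S_R`.
-/

open Matrix MeasureTheory Filter Topology
open scoped Matrix.Norms.Frobenius ContDiff
open Pool.Agent.W544.EG

namespace Pool.Agent.W973.EGSR

variable {N : ℕ} {G : Subgroup (unitaryGroup (Fin N) ℂ)}

section Integral

variable [MeasurableSpace G] [BorelSpace G] (μ : Measure G) [IsProbabilityMeasure μ]
  [CompactSpace G]

theorem integrable_cont {u : G → ℝ} (hu : Continuous u) : Integrable u μ :=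
  hu.integrable_of_hasCompactSupport (HasCompactSupport.of_compactSpace u)

theorem int_add {u v : G → ℝ} (hu : Continuous u) (hv : Continuous v) :
    ∫ x, (u x + v x) ∂μ = ∫ x, u x ∂μ + ∫ x, v x ∂μ :=
  integral_add (integrable_cont μ hu) (integrable_cont μ hv)

theorem int_sub {u v : G → ℝ} (hu : Continuous u) (hv : Continuous v) :
    ∫ x, (u x - v x) ∂μ = ∫ x, u x ∂μ - ∫ x, v x ∂μ :=
  integral_sub (integrable_cont μ hu) (integrable_cont μ hv)

theorem cmul {u v : G → ℝ} (hu : Continuous u) (hv : Continuous v) :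
    Continuous fun x => u x * v x := hu.mul hv

variable {E : Submodule ℝ (G → ℝ)} (hE : Nice E)

/-- integration against a continuous function -/
noncomputable def intL {f : G → ℝ} (hf : Continuous f) : E →ₗ[ℝ] ℝ where
  toFun u := ∫ x, f x * (u : G → ℝ) x ∂μ
  map_add' u v := by
    rw [← int_add μ (cmul hf (hE.continuous u.2)) (cmul hf (hE.continuous v.2))]
    refine integral_congr_ae (Eventually.of_forall fun x => ?_)
    show f x * ((u : G → ℝ) x + (v : G → ℝ) x) = _
    ring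
  map_smul' r u := by
    rw [RingHom.id_apply, smul_eq_mul, ← integral_const_mul]
    refine integral_congr_ae (Eventually.of_forall fun x => ?_)
    show f x * (r * (u : G → ℝ) x) = _
    ring

/-- the inner product -/
noncomputable def form : E →ₗ[ℝ] E →ₗ[ℝ] ℝ where
  toFun u := intL μ hE (hE.continuous u.2)
  map_add' u v := by
    ext w
    show ∫ x, ((u : G → ℝ) x + (v : G → ℝ) x) * (w : G → ℝ) x ∂μ =
      ∫ x, (u : G → ℝ) x * (w : G → ℝ) x ∂μ + ∫ x, (v : G → ℝ) x * (w : G → ℝ) x ∂μ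
    rw [← int_add μ (cmul (hE.continuous u.2) (hE.continuous w.2))
      (cmul (hE.continuous v.2) (hE.continuous w.2))]
    refine integral_congr_ae (Eventually.of_forall fun x => ?_)
    show ((u : G → ℝ) x + (v : G → ℝ) x) * (w : G → ℝ) x = _
    ring
  map_smul' r u := by
    ext w
    show ∫ x, (r * (u : G → ℝ) x) * (w : G → ℝ) x ∂μ =
      r * ∫ x, (u : G → ℝ) x * (w : G → ℝ) x ∂μ
    rw [← integral_const_mul]
    refine integral_congr_ae (Eventually.of_forall fun x => ?_)
    show (r * (u : G → ℝ) x) * (w : G → ℝ) x = _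
    ring

theorem form_apply (u v : E) : form μ hE u v = ∫ x, (u : G → ℝ) x * (v : G → ℝ) x ∂μ := rfl

theorem intL_apply {f : G → ℝ} (hf : Continuous f) (u : E) :
    intL μ hE hf u = ∫ x, f x * (u : G → ℝ) x ∂μ := rfl

theorem form_symm (u v : E) : form μ hE u v = form μ hE v u := by
  rw [form_apply, form_apply]
  refine integral_congr_ae (Eventually.of_forall fun x => mul_comm _ _)

theorem form_nonneg (u : E) : 0 ≤ form μ hE u u := by
  rw [form_apply]
  exact integral_nonneg fun x => mul_self_nonneg _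

theorem form_def [μ.IsOpenPosMeasure] (u : E) (hu : form μ hE u u = 0) : u = 0 := by
  rw [form_apply] at hu
  have hc := (hE.continuous u.2).mul (hE.continuous u.2)
  rw [integral_eq_zero_iff_of_nonneg (fun x => mul_self_nonneg _) (integrable_cont μ hc)] at hu
  have h1 : (fun x => (u : G → ℝ) x * (u : G → ℝ) x) = fun _ => 0 :=
    (hc.ae_eq_iff_eq μ continuous_const).1 hu
  apply Subtype.ext
  ext x
  exact mul_self_eq_zero.1 (congrFun h1 x)

variable [μ.IsMulRightInvariant]

include hE in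
theorem int_dX {X : Mat N} {γ : ℝ → G} (h : OPG X γ) {w : G → ℝ} (hw : w ∈ E) :
    ∫ x, dX γ w x ∂μ = 0 := by
  have : FiniteDimensional ℝ E := Module.Finite.iff_fg.2 hE.fin
  let I : E →ₗ[ℝ] ℝ := intL μ hE (f := fun _ => 1) continuous_const
  have hI : ∀ u : E, I u = ∫ x, (u : G → ℝ) x ∂μ := fun u => by
    show ∫ x, 1 * (u : G → ℝ) x ∂μ = _
    simp only [one_mul]
  have hIc : Continuous I := I.continuous_of_finiteDimensional
  let q : ℝ → E := fun t => ⟨t⁻¹ • ((fun x => w (x * γ t)) - w),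
    E.smul_mem _ (E.sub_mem (hE.inv w hw _) hw)⟩
  have hq : Tendsto q (𝓝[≠] 0) (𝓝 ⟨dX γ w, dX_mem hE h hw⟩) :=
    tendsto_subtype_rng.2 (dX_tendsto hE h hw)
  have h1 := (hIc.tendsto _).comp hq
  have h2 : ∀ t, I (q t) = 0 := by
    intro t
    rw [hI]
    show ∫ x, t⁻¹ * (w (x * γ t) - w x) ∂μ = 0
    rw [integral_const_mul, int_sub μ (hE.continuous (hE.inv w hw (γ t))) (hE.continuous hw),
      integral_mul_right_eq_self (μ := μ) w (γ t), sub_self, mul_zero]
  have h3 : Tendsto (I ∘ q) (𝓝[≠] 0) (𝓝 0) := by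
    have : I ∘ q = fun _ => 0 := funext h2
    rw [this]
    exact tendsto_const_nhds
  have h4 := tendsto_nhds_unique h1 h3
  rw [hI] at h4
  exact h4

theorem form_skew {X : Mat N} {γ : ℝ → G} (h : OPG X γ) (u v : E) :
    form μ hE (AX hE h u) v = - form μ hE u (AX hE h v) := by
  have h1 : (u : G → ℝ) * (v : G → ℝ) ∈ E * E := Submodule.mul_mem_mul u.2 v.2
  have h2 := int_dX μ (hE.mul hE) h h1
  have h3 : ∀ x, dX γ ((u : G → ℝ) * (v : G → ℝ)) x =
      dX γ u x * (v : G → ℝ) x + (u : G → ℝ) x * dX γ v x := by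
    intro x
    have a1 := dX_spec hE h u.2 x 0
    have a2 := dX_spec hE h v.2 x 0
    rw [h.zero, mul_one] at a1 a2
    have a3 := (a1.mul a2).deriv
    rw [h.zero, mul_one] at a3
    exact a3
  simp only [h3] at h2
  rw [int_add μ (cmul (hE.continuous (dX_mem hE h u.2)) (hE.continuous v.2))
    (cmul (hE.continuous u.2) (hE.continuous (dX_mem hE h v.2)))] at h2
  have h4 : form μ hE (AX hE h u) v = ∫ x, dX γ u x * (v : G → ℝ) x ∂μ := rfl
  have h5 : form μ hE u (AX hE h v) = ∫ x, (u : G → ℝ) x * dX γ v x ∂μ := rfl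
  rw [h4, h5]
  linarith

/-- the derivative of the projection of a function which is Lipschitz in the direction `X` -/
theorem form_proj_le {X : Mat N} {γ : ℝ → G} (h : OPG X γ) {f : G → ℝ} (hf : Continuous f)
    (hlip : ∀ (x : G) (t : ℝ), |f (x * γ t) - f x| ≤ |t|) (F : E)
    (hF : ∀ u : E, form μ hE F u = intL μ hE hf u) :
    form μ hE (AX hE h F) (AX hE h F) ≤ 1 := by
  have : FiniteDimensional ℝ E := Module.Finite.iff_fg.2 hE.fin
  have hinvγ : ∀ t, γ (-t) * γ t = 1 := fun t => by rw [← h.add]; simp [h.zero]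
  have hinvγ' : ∀ t, γ t * γ (-t) = 1 := fun t => by rw [← h.add]; simp [h.zero]
  -- translates
  have htr : ∀ (u : E) (t : ℝ), ∫ x, (F : G → ℝ) (x * γ t) * (u : G → ℝ) x ∂μ =
      ∫ x, f (x * γ t) * (u : G → ℝ) x ∂μ := by
    intro u t
    have hu' : (fun x => (u : G → ℝ) (x * γ (-t))) ∈ E := hE.inv u u.2 _
    have h1 := hF ⟨_, hu'⟩
    rw [form_apply, intL_apply] at h1
    have h2 : ∀ φ : G → ℝ, ∫ x, φ x * (u : G → ℝ) (x * γ (-t)) ∂μ =
        ∫ x, φ (x * γ t) * (u : G → ℝ) x ∂μ := by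
      intro φ
      rw [← integral_mul_right_eq_self (μ := μ) (fun x => φ x * (u : G → ℝ) (x * γ (-t))) (γ t)]
      refine integral_congr_ae (Eventually.of_forall fun x => ?_)
      show φ (x * γ t) * (u : G → ℝ) (x * γ t * γ (-t)) = _
      rw [mul_assoc x, hinvγ', mul_one]
    have h3 : ∫ x, (F : G → ℝ) x * (u : G → ℝ) (x * γ (-t)) ∂μ =
      ∫ x, f x * (u : G → ℝ) (x * γ (-t)) ∂μ := h1
    rw [h2, h2] at h3
    exact h3
  set w := AX hE h F with hw
  -- bound of the functional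
  have hbound : form μ hE w w ≤ ∫ x, |(w : G → ℝ) x| ∂μ := by
    let I : E →ₗ[ℝ] ℝ := intL μ hE (hE.continuous w.2)
    have hIc : Continuous I := I.continuous_of_finiteDimensional
    let q : ℝ → E := fun t => ⟨t⁻¹ • ((fun x => (F : G → ℝ) (x * γ t)) - F),
      E.smul_mem _ (E.sub_mem (hE.inv F F.2 _) F.2)⟩
    have hq : Tendsto q (𝓝[≠] 0) (𝓝 w) := tendsto_subtype_rng.2 (dX_tendsto hE h F.2)
    have h1 : Tendsto (fun t => I (q t)) (𝓝[≠] 0) (𝓝 (I w)) := (hIc.tendsto _).comp hq
    have h2 : I w = form μ hE w w := rfl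
    rw [← h2]
    refine le_of_tendsto h1 ?_
    filter_upwards [self_mem_nhdsWithin] with t ht
    have ht0 : t ≠ 0 := ht
    have hcF : Continuous (F : G → ℝ) := hE.continuous F.2
    have hcw : Continuous (w : G → ℝ) := hE.continuous w.2
    have hcFt : Continuous (fun x => (F : G → ℝ) (x * γ t)) := hE.continuous (hE.inv F F.2 _)
    have hcft : Continuous (fun x => f (x * γ t)) := hf.comp (continuous_id.mul continuous_const)
    have h3 : I (q t) = t⁻¹ * ∫ x, (f (x * γ t) - f x) * (w : G → ℝ) x ∂μ := by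
      have e1 : I (q t) = ∫ x, (w : G → ℝ) x * (t⁻¹ * ((F : G → ℝ) (x * γ t) - (F : G → ℝ) x)) ∂μ :=
        rfl
      have e2 : I (q t) = t⁻¹ * (∫ x, (F : G → ℝ) (x * γ t) * (w : G → ℝ) x ∂μ -
          ∫ x, (F : G → ℝ) x * (w : G → ℝ) x ∂μ) := by
        rw [e1, ← int_sub μ (cmul hcFt hcw) (cmul hcF hcw), ← integral_const_mul]
        refine integral_congr_ae (Eventually.of_forall fun x => ?_)
        show (w : G → ℝ) x * (t⁻¹ * ((F : G → ℝ) (x * γ t) - (F : G → ℝ) x)) =
          t⁻¹ * ((F : G → ℝ) (x * γ t) * (w : G → ℝ) x - (F : G → ℝ) x * (w : G → ℝ) x)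
        ring
      have e3 : ∫ x, (F : G → ℝ) x * (w : G → ℝ) x ∂μ = ∫ x, f x * (w : G → ℝ) x ∂μ := hF w
      rw [e2, htr, e3, ← int_sub μ (cmul hcft hcw) (cmul hf hcw)]
      congr 1
      refine integral_congr_ae (Eventually.of_forall fun x => ?_)
      show f (x * γ t) * (w : G → ℝ) x - f x * (w : G → ℝ) x = _
      ring
    rw [h3, ← integral_const_mul]
    refine integral_mono (integrable_cont μ (continuous_const.mul ((hcft.sub hf).mul hcw)))
      (integrable_cont μ hcw.abs) fun x => ?_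
    show t⁻¹ * ((f (x * γ t) - f x) * (w : G → ℝ) x) ≤ |(w : G → ℝ) x|
    refine (le_abs_self _).trans ?_
    rw [abs_mul, abs_mul, abs_inv]
    have h5 := hlip x t
    have h6 : 0 < |t| := abs_pos.2 ht0
    calc |t|⁻¹ * (|f (x * γ t) - f x| * |(w : G → ℝ) x|)
        ≤ |t|⁻¹ * (|t| * |(w : G → ℝ) x|) := by gcongr
      _ = |(w : G → ℝ) x| := by rw [inv_mul_cancel_left₀ h6.ne']
  have hle : ∫ x, |(w : G → ℝ) x| ∂μ ≤ ∫ x, (((w : G → ℝ) x * (w : G → ℝ) x) + 1) / 2 ∂μ := by
    have hcw : Continuous (w : G → ℝ) := hE.continuous w.2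
    refine integral_mono (integrable_cont μ hcw.abs)
      (integrable_cont μ (((hcw.mul hcw).add continuous_const).div_const 2)) fun x => ?_
    show |(w : G → ℝ) x| ≤ (((w : G → ℝ) x * (w : G → ℝ) x) + 1) / 2
    nlinarith [sq_nonneg (|(w : G → ℝ) x| - 1), abs_mul_abs_self ((w : G → ℝ) x)]
  have heq : ∫ x, (((w : G → ℝ) x * (w : G → ℝ) x) + 1) / 2 ∂μ = (form μ hE w w + 1) / 2 := by
    have hcw : Continuous (w : G → ℝ) := hE.continuous w.2
    rw [integral_div, int_add μ (cmul hcw hcw) continuous_const, form_apply]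
    simp
  rw [heq] at hle
  linarith

end Integral

end Pool.Agent.W973.EGSR
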