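import Mathlib
import Pool.Agent.W757.RD.StG
import Pool.Agent.W40.RQAF
import Pool.Agent.H790R3.RB.TPQ

/-! Uniform gain (RE-UG), part 1: the differentiated equation and continuity. -/

set_option autoImplicit false

open Topology Filter Metric Set MeasureTheory Polynomial
open Pool.Agent.H790R3.RB (CV hF cr ND wr rt pol)
open Pool.Agent.W757.QR (nu de fx fr d1 d2 wn hv hd RM pre)
open Pool.Agent.W757.RD

namespace Pool.Agent.W973.UG

variable {d : ℕ}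

/-- numerator of the infinitesimal perturbation -/
noncomputable def EN (x ξ : CV d) : ℂ[X] := nu ξ * de x - nu x * de ξ

theorem et_eq (x ξ : CV d) : et x ξ = hv (de x) (EN x ξ) := by
  funext z
  unfold et hv EN
  rw [eval_sub, eval_mul, eval_mul]

theorem hv_deriv {Q H : ℂ[X]} {z : ℂ} (hz : Q.eval z ≠ 0) :
    HasDerivAt (hv Q H) (hd Q H z) z := by
  have h1 := (H.hasDerivAt z).div ((Q.hasDerivAt z).pow 2) (pow_ne_zero 2 hz)
  have e : hd Q H z = ((derivative H).eval z * Q.eval z ^ 2 -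
      H.eval z * (((2 : ℕ) : ℂ) * Q.eval z ^ (2 - 1) * (derivative Q).eval z)) /
      (Q.eval z ^ 2) ^ 2 := by
    unfold hd
    push_cast
    field_simp
  rw [e]
  exact h1

theorem d1_eq (P Q : ℂ[X]) : d1 P Q = hv Q (wn P Q) := rfl

theorem d2_eq (P Q : ℂ[X]) : d2 P Q = hd Q (wn P Q) := rfl

theorem fx_deriv {x : CV d} {z : ℂ} (hz : (de x).eval z ≠ 0) :
    HasDerivAt (fx x) (d1 (nu x) (de x) z) z :=
  (Pool.Agent.W40.RQAF.has_deriv (P := nu x) hz).hasDerivAt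

/-- The differentiated equation. -/
theorem diff_rel {β : ℝ} {x ξ : CV d} {W : Set ℂ} {v : ℂ → ℂ} (hW : IsOpen W)
    (hv' : DifferentiableOn ℂ v W)
    (hrel : ∀ z ∈ W, (de x).eval z ≠ 0 → fx x z ∈ W →
      v (fx x z) - d1 (nu x) (de x) z * v z = et x ξ z) {z : ℂ} (hz : z ∈ W)
    (hQ : (de x).eval z ≠ 0) (hf : fx x z ∈ W) :
    chi β x z * v z = d1 (nu x) (de x) z * (Dv β v (fx x z) - Dv β v z) -
      (d1 (nu x) (de x) z * gg β (fx x z) * et x ξ z + deriv (et x ξ) z) := by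
  have h0 := hrel z hz hQ hf
  have hev : ∀ᶠ w in 𝓝 z, v (fx x w) - d1 (nu x) (de x) w * v w = et x ξ w := by
    have h1 : ∀ᶠ w in 𝓝 z, w ∈ W := hW.mem_nhds hz
    have h2 : ∀ᶠ w in 𝓝 z, (de x).eval w ≠ 0 := (de x).continuous.continuousAt.eventually_ne hQ
    have h3 : ∀ᶠ w in 𝓝 z, fx x w ∈ W := (fx_deriv hQ).continuousAt (hW.mem_nhds hf)
    filter_upwards [h1, h2, h3] with w k1 k2 k3
    exact hrel w k1 k2 k3
  have hvz : HasDerivAt v (deriv v z) z := (hv'.differentiableAt (hW.mem_nhds hz)).hasDerivAt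
  have hvf : HasDerivAt v (deriv v (fx x z)) (fx x z) :=
    (hv'.differentiableAt (hW.mem_nhds hf)).hasDerivAt
  have hd1 : HasDerivAt (d1 (nu x) (de x)) (d2 (nu x) (de x) z) z := hv_deriv hQ
  have hL := (hvf.comp z (fx_deriv hQ)).sub (hd1.mul hvz)
  have hR : HasDerivAt (et x ξ) (deriv (et x ξ) z) z := by
    rw [et_eq]
    exact (hv_deriv hQ).differentiableAt.hasDerivAt
  have hL' : HasDerivAt (et x ξ) (deriv v (fx x z) * d1 (nu x) (de x) z -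
      (d2 (nu x) (de x) z * v z + d1 (nu x) (de x) z * deriv v z)) z :=
    hL.congr_of_eventuallyEq (hev.mono fun w hw => hw.symm)
  have h1 := hL'.unique hR
  unfold chi Dv
  linear_combination -(d1 (nu x) (de x) z * gg β (fx x z)) * h0 - h1

/-! ### continuity -/

/-- the values of the iterated derivatives of the numerator and the denominator -/
noncomputable def pv (k : ℕ) (i : Fin 2) (q : CV d × ℂ) : ℂ :=
  (derivative^[k] (pol q.1 i)).eval q.2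

theorem pv_cont (k : ℕ) (i : Fin 2) : Continuous (pv (d := d) k i) := by
  have e : pv (d := d) k i = fun q : CV d × ℂ => ∑ j : Fin (d + 1), q.1 (i, j) *
      (derivative^[k] (X ^ (j : ℕ) : ℂ[X])).eval q.2 := by
    funext q
    unfold pv pol
    rw [Polynomial.iterate_derivative_sum, eval_finsetSum]
    refine Finset.sum_congr rfl fun j _ => ?_
    rw [← C_mul_X_pow_eq_monomial, iterate_derivative_C_mul, eval_mul, eval_C]
  rw [e]
  refine continuous_finsetSum _ fun j _ => ?_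
  have h1 : Continuous fun q : CV d × ℂ => q.1 (i, j) := by fun_prop
  exact h1.mul ((derivative^[k] (X ^ (j : ℕ) : ℂ[X])).continuous.comp continuous_snd)

section seq

variable {x : ℕ → CV d} {x₀ : CV d} {w : ℕ → ℂ} {w₀ : ℂ}

theorem pv_tend (hx : Tendsto x atTop (𝓝 x₀)) (hw : Tendsto w atTop (𝓝 w₀)) (k : ℕ) (i : Fin 2) :
    Tendsto (fun n => (derivative^[k] (pol (x n) i)).eval (w n)) atTop
      (𝓝 ((derivative^[k] (pol x₀ i)).eval w₀)) :=
  ((pv_cont (d := d) k i).tendsto (x₀, w₀)).comp (hx.prodMk_nhds hw)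

theorem nu_tend (hx : Tendsto x atTop (𝓝 x₀)) (hw : Tendsto w atTop (𝓝 w₀)) :
    Tendsto (fun n => (nu (x n)).eval (w n)) atTop (𝓝 ((nu x₀).eval w₀)) := pv_tend hx hw 0 0

theorem de_tend (hx : Tendsto x atTop (𝓝 x₀)) (hw : Tendsto w atTop (𝓝 w₀)) :
    Tendsto (fun n => (de (x n)).eval (w n)) atTop (𝓝 ((de x₀).eval w₀)) := pv_tend hx hw 0 1

theorem nu1_tend (hx : Tendsto x atTop (𝓝 x₀)) (hw : Tendsto w atTop (𝓝 w₀)) :
    Tendsto (fun n => (derivative (nu (x n))).eval (w n)) atTop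
      (𝓝 ((derivative (nu x₀)).eval w₀)) := pv_tend hx hw 1 0

theorem de1_tend (hx : Tendsto x atTop (𝓝 x₀)) (hw : Tendsto w atTop (𝓝 w₀)) :
    Tendsto (fun n => (derivative (de (x n))).eval (w n)) atTop
      (𝓝 ((derivative (de x₀)).eval w₀)) := pv_tend hx hw 1 1

theorem nu2_tend (hx : Tendsto x atTop (𝓝 x₀)) (hw : Tendsto w atTop (𝓝 w₀)) :
    Tendsto (fun n => (derivative (derivative (nu (x n)))).eval (w n)) atTop
      (𝓝 ((derivative (derivative (nu x₀))).eval w₀)) := pv_tend hx hw 2 0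

theorem de2_tend (hx : Tendsto x atTop (𝓝 x₀)) (hw : Tendsto w atTop (𝓝 w₀)) :
    Tendsto (fun n => (derivative (derivative (de (x n)))).eval (w n)) atTop
      (𝓝 ((derivative (derivative (de x₀))).eval w₀)) := pv_tend hx hw 2 1

theorem fx_tend (hx : Tendsto x atTop (𝓝 x₀)) (hw : Tendsto w atTop (𝓝 w₀))
    (hQ : (de x₀).eval w₀ ≠ 0) :
    Tendsto (fun n => fx (x n) (w n)) atTop (𝓝 (fx x₀ w₀)) :=
  (nu_tend hx hw).div (de_tend hx hw) hQ

theorem wn_tend (hx : Tendsto x atTop (𝓝 x₀)) (hw : Tendsto w atTop (𝓝 w₀)) :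
    Tendsto (fun n => (wn (nu (x n)) (de (x n))).eval (w n)) atTop
      (𝓝 ((wn (nu x₀) (de x₀)).eval w₀)) := by
  unfold wn
  simp only [eval_sub, eval_mul]
  exact ((nu1_tend hx hw).mul (de_tend hx hw)).sub ((nu_tend hx hw).mul (de1_tend hx hw))

theorem wn1_tend (hx : Tendsto x atTop (𝓝 x₀)) (hw : Tendsto w atTop (𝓝 w₀)) :
    Tendsto (fun n => (derivative (wn (nu (x n)) (de (x n)))).eval (w n)) atTop
      (𝓝 ((derivative (wn (nu x₀) (de x₀))).eval w₀)) := by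
  unfold wn
  simp only [derivative_sub, derivative_mul, eval_sub, eval_mul, eval_add]
  exact (((nu2_tend hx hw).mul (de_tend hx hw)).add ((nu1_tend hx hw).mul (de1_tend hx hw))).sub
    (((nu1_tend hx hw).mul (de1_tend hx hw)).add ((nu_tend hx hw).mul (de2_tend hx hw)))

theorem d1_tend (hx : Tendsto x atTop (𝓝 x₀)) (hw : Tendsto w atTop (𝓝 w₀))
    (hQ : (de x₀).eval w₀ ≠ 0) :
    Tendsto (fun n => d1 (nu (x n)) (de (x n)) (w n)) atTop (𝓝 (d1 (nu x₀) (de x₀) w₀)) :=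
  (wn_tend hx hw).div ((de_tend hx hw).pow 2) (pow_ne_zero 2 hQ)

theorem d2_tend (hx : Tendsto x atTop (𝓝 x₀)) (hw : Tendsto w atTop (𝓝 w₀))
    (hQ : (de x₀).eval w₀ ≠ 0) :
    Tendsto (fun n => d2 (nu (x n)) (de (x n)) (w n)) atTop (𝓝 (d2 (nu x₀) (de x₀) w₀)) := by
  unfold d2
  exact (((wn1_tend hx hw).mul (de_tend hx hw)).sub
    (((wn_tend hx hw).const_mul 2).mul (de1_tend hx hw))).div ((de_tend hx hw).pow 3)
    (pow_ne_zero 3 hQ)

theorem gg_tend {β : ℝ} (hw : Tendsto w atTop (𝓝 w₀)) (h0 : w₀ ≠ 0) (h1 : w₀ ≠ 1) :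
    Tendsto (fun n => gg β (w n)) atTop (𝓝 (gg β w₀)) := by
  unfold gg
  exact ((tendsto_const_nhds.div hw h0).neg).sub
    (tendsto_const_nhds.div (hw.sub_const 1) (sub_ne_zero.2 h1))

variable {ξ : ℕ → CV d} {ξ₀ : CV d}

theorem et_tend (hx : Tendsto x atTop (𝓝 x₀)) (hξ : Tendsto ξ atTop (𝓝 ξ₀))
    (hw : Tendsto w atTop (𝓝 w₀)) (hQ : (de x₀).eval w₀ ≠ 0) :
    Tendsto (fun n => et (x n) (ξ n) (w n)) atTop (𝓝 (et x₀ ξ₀ w₀)) := by
  unfold et
  exact (((nu_tend hξ hw).mul (de_tend hx hw)).sub ((nu_tend hx hw).mul (de_tend hξ hw))).div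
    ((de_tend hx hw).pow 2) (pow_ne_zero 2 hQ)

theorem det_tend (hx : Tendsto x atTop (𝓝 x₀)) (hξ : Tendsto ξ atTop (𝓝 ξ₀))
    (hw : Tendsto w atTop (𝓝 w₀)) (hQ : (de x₀).eval w₀ ≠ 0) :
    Tendsto (fun n => deriv (et (x n) (ξ n)) (w n)) atTop (𝓝 (deriv (et x₀ ξ₀) w₀)) := by
  have key : ∀ (x ξ : CV d) (w : ℂ), (de x).eval w ≠ 0 → deriv (et x ξ) w =
      (((derivative (nu ξ)).eval w * (de x).eval w + (nu ξ).eval w * (derivative (de x)).eval w -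
        ((derivative (nu x)).eval w * (de ξ).eval w + (nu x).eval w * (derivative (de ξ)).eval w)) *
        (de x).eval w - 2 * ((nu ξ).eval w * (de x).eval w - (nu x).eval w * (de ξ).eval w) *
        (derivative (de x)).eval w) / (de x).eval w ^ 3 := by
    intro x ξ w hQ
    rw [et_eq, (hv_deriv hQ).deriv]
    unfold hd EN
    simp only [derivative_sub, derivative_mul, eval_sub, eval_mul, eval_add]
  rw [key x₀ ξ₀ w₀ hQ]
  have hev : ∀ᶠ n in atTop, (de (x n)).eval (w n) ≠ 0 := (de_tend hx hw).eventually_ne hQ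
  refine Tendsto.congr' (hev.mono fun n hn => (key (x n) (ξ n) (w n) hn).symm) ?_
  exact ((((((nu1_tend hξ hw).mul (de_tend hx hw)).add ((nu_tend hξ hw).mul (de1_tend hx hw))).sub
    (((nu1_tend hx hw).mul (de_tend hξ hw)).add ((nu_tend hx hw).mul (de1_tend hξ hw)))).mul
    (de_tend hx hw)).sub (((((nu_tend hξ hw).mul (de_tend hx hw)).sub
      ((nu_tend hx hw).mul (de_tend hξ hw))).const_mul 2).mul (de1_tend hx hw))).div
    ((de_tend hx hw).pow 3) (pow_ne_zero 3 hQ)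

theorem chi_tend {β : ℝ} (hx : Tendsto x atTop (𝓝 x₀)) (hw : Tendsto w atTop (𝓝 w₀))
    (hQ : (de x₀).eval w₀ ≠ 0) (h0 : w₀ ≠ 0) (h1 : w₀ ≠ 1) (hf0 : fx x₀ w₀ ≠ 0)
    (hf1 : fx x₀ w₀ ≠ 1) :
    Tendsto (fun n => chi β (x n) (w n)) atTop (𝓝 (chi β x₀ w₀)) := by
  unfold chi
  exact ((d2_tend hx hw hQ).add (((d1_tend hx hw hQ).pow 2).mul
    (gg_tend (fx_tend hx hw hQ) hf0 hf1))).sub ((d1_tend hx hw hQ).mul (gg_tend hw h0 h1))

end seq

/-- The limit of the vector fields. -/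
theorem v_tend {β : ℝ} {x : ℕ → CV d} {x₀ : CV d} {ξ : ℕ → CV d} {ξ₀ : CV d} {w : ℕ → ℂ} {w₀ : ℂ}
    {W : ℕ → Set ℂ} {v : ℕ → ℂ → ℂ} (hx : Tendsto x atTop (𝓝 x₀))
    (hξ : Tendsto ξ atTop (𝓝 ξ₀)) (hw : Tendsto w atTop (𝓝 w₀))
    (hQ : (de x₀).eval w₀ ≠ 0) (h0 : w₀ ≠ 0) (h1 : w₀ ≠ 1) (hf0 : fx x₀ w₀ ≠ 0)
    (hf1 : fx x₀ w₀ ≠ 1) (hchi : chi β x₀ w₀ ≠ 0) (hW : ∀ n, IsOpen (W n))
    (hv' : ∀ n, DifferentiableOn ℂ (v n) (W n))
    (hrel : ∀ n, ∀ z ∈ W n, (de (x n)).eval z ≠ 0 → fx (x n) z ∈ W n →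
      v n (fx (x n) z) - d1 (nu (x n)) (de (x n)) z * v n z = et (x n) (ξ n) z)
    (hwW : ∀ᶠ n in atTop, w n ∈ W n) (hfW : ∀ᶠ n in atTop, fx (x n) (w n) ∈ W n)
    (hD0 : Tendsto (fun n => Dv β (v n) (w n)) atTop (𝓝 0))
    (hD1 : Tendsto (fun n => Dv β (v n) (fx (x n) (w n))) atTop (𝓝 0)) :
    Tendsto (fun n => v n (w n)) atTop (𝓝 (uu β x₀ ξ₀ w₀)) := by
  have hc := chi_tend (β := β) hx hw hQ h0 h1 hf0 hf1
  have h2 : Tendsto (fun n => (d1 (nu (x n)) (de (x n)) (w n) *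
      (Dv β (v n) (fx (x n) (w n)) - Dv β (v n) (w n)) -
      (d1 (nu (x n)) (de (x n)) (w n) * gg β (fx (x n) (w n)) * et (x n) (ξ n) (w n) +
        deriv (et (x n) (ξ n)) (w n))) / chi β (x n) (w n)) atTop
      (𝓝 ((d1 (nu x₀) (de x₀) w₀ * (0 - 0) -
      (d1 (nu x₀) (de x₀) w₀ * gg β (fx x₀ w₀) * et x₀ ξ₀ w₀ +
        deriv (et x₀ ξ₀) w₀)) / chi β x₀ w₀)) :=
    (((d1_tend hx hw hQ).mul (hD1.sub hD0)).sub ((((d1_tend hx hw hQ).mul
      (gg_tend (fx_tend hx hw hQ) hf0 hf1)).mul (et_tend hx hξ hw hQ)).add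
      (det_tend hx hξ hw hQ))).div hc hchi
  have e : uu β x₀ ξ₀ w₀ = (d1 (nu x₀) (de x₀) w₀ * (0 - 0) -
      (d1 (nu x₀) (de x₀) w₀ * gg β (fx x₀ w₀) * et x₀ ξ₀ w₀ +
        deriv (et x₀ ξ₀) w₀)) / chi β x₀ w₀ := by
    unfold uu
    ring
  rw [e]
  refine Tendsto.congr' ?_ h2
  have hQe : ∀ᶠ n in atTop, (de (x n)).eval (w n) ≠ 0 := (de_tend hx hw).eventually_ne hQ
  have hce : ∀ᶠ n in atTop, chi β (x n) (w n) ≠ 0 := hc.eventually_ne hchi
  filter_upwards [hwW, hfW, hQe, hce] with n k1 k2 k3 k4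
  rw [← diff_rel (β := β) (hW n) (hv' n) (hrel n) k1 k3 k2]
  field_simp

end Pool.Agent.W973.UG
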