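import Pool.Agent.W973.UG1

/-! Uniform gain (RE-UG), part 2: measure theoretic tools. -/

set_option autoImplicit false

open Topology Filter Metric Set MeasureTheory Polynomial
open Pool.Agent.H790R3.RB (CV hF cr ND wr rt pol)
open Pool.Agent.W757.QR (nu de fx fr d1 d2 wn hv hd RM pre)
open Pool.Agent.W757.RD
open Pool.Agent.W40.RQAF (fr_meas d1_meas wn_ne Q_ne af_mem)

namespace Pool.Agent.W973.UG

variable {d : ℕ}

theorem rm_of {x : CV d} (hd : 2 ≤ d) (hx : ND x) : RM d (nu x) (de x) := by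
  have h := Pool.Agent.H790R3.RB.PQ.part1 (by omega : 1 ≤ d) x hx
  exact ⟨hd, h.1, h.2⟩

theorem fx_meas (x : CV d) : Measurable (fx x) := fr_meas _ _

/-- The push-forward inequality. -/
theorem push {x : CV d} (hR : RM d (nu x) (de x)) {φ : ℂ → ENNReal} (hφ : Measurable φ) :
    ∫⁻ z, φ (fx x z) * ENNReal.ofReal (‖d1 (nu x) (de x) z‖ ^ 2) ≤ d * ∫⁻ z, φ z := by
  have h := Pool.Agent.W40.RQAF.task d (nu x) (de x) (fun z => φ (fx x z)) univ hR
    (hφ.comp (fx_meas x)) MeasurableSet.univ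
  have hS : MeasurableSet {z : ℂ | (de x).eval z ≠ 0 ∧ fr (nu x) (de x) z ∈ (univ : Set ℂ)} :=
    Pool.Agent.W40.RQAF.set_meas MeasurableSet.univ
  have e1 : ∫⁻ z in {z : ℂ | (de x).eval z ≠ 0 ∧ fr (nu x) (de x) z ∈ (univ : Set ℂ)},
      φ (fx x z) * ENNReal.ofReal (‖d1 (nu x) (de x) z‖ ^ 2) =
      ∫⁻ z, φ (fx x z) * ENNReal.ofReal (‖d1 (nu x) (de x) z‖ ^ 2) := by
    rw [← lintegral_indicator hS]
    apply lintegral_congr
    intro z
    by_cases hz : z ∈ {z : ℂ | (de x).eval z ≠ 0 ∧ fr (nu x) (de x) z ∈ (univ : Set ℂ)}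
    · rw [indicator_of_mem hz]
    · rw [indicator_of_notMem hz]
      have h0 : (de x).eval z = 0 := by
        by_contra hne
        exact hz ⟨hne, mem_univ _⟩
      have h1 : d1 (nu x) (de x) z = 0 := by
        unfold d1
        rw [h0]
        simp
      rw [h1]
      simp
  rw [← e1, ← h, Measure.restrict_univ, ← lintegral_const_mul' _ _ (ENNReal.natCast_ne_top d)]
  apply lintegral_mono
  intro w
  have h2 : ∑ ζ ∈ pre (nu x) (de x) w, φ (fx x ζ) = ∑ ζ ∈ pre (nu x) (de x) w, φ w := by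
    refine Finset.sum_congr rfl fun ζ hζ => ?_
    have := ((af_mem hR w ζ).1 hζ).2
    change φ (fr (nu x) (de x) ζ) = _
    rw [this]
  change ∑ ζ ∈ pre (nu x) (de x) w, φ (fx x ζ) ≤ d * φ w
  rw [h2, Finset.sum_const, nsmul_eq_mul]
  gcongr
  unfold pre
  refine (Multiset.toFinset_card_le _).trans ((card_roots' _).trans ?_)
  refine (natDegree_sub_le _ _).trans ?_
  rw [max_le_iff]
  constructor
  · exact (le_max_left _ _).trans hR.2.2.le
  · exact (natDegree_C_mul_le _ _).trans ((le_max_right _ _).trans hR.2.2.le)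

theorem d1_zero_finite {x : CV d} (hR : RM d (nu x) (de x)) :
    {z : ℂ | d1 (nu x) (de x) z = 0}.Finite := by
  have h1 := ((wn (nu x) (de x)).roots.toFinset ∪ (de x).roots.toFinset).finite_toSet
  refine h1.subset ?_
  intro z hz
  rw [Finset.coe_union, mem_union, Finset.mem_coe, Finset.mem_coe, Multiset.mem_toFinset,
    Multiset.mem_toFinset, mem_roots (wn_ne hR), mem_roots (Q_ne hR)]
  have hz' : (wn (nu x) (de x)).eval z / (de x).eval z ^ 2 = 0 := hz
  rw [div_eq_zero_iff] at hz'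
  rcases hz' with h | h
  · exact Or.inl h
  · exact Or.inr (by simpa using h)

/-- Preimages of null sets are null sets. -/
theorem null_pre {x : CV d} (hR : RM d (nu x) (de x)) {E : Set ℂ} (hE : volume E = 0) :
    volume (fx x ⁻¹' E) = 0 := by
  obtain ⟨E', hEE', hE'm, hE'0⟩ := exists_measurable_superset_of_null hE
  have h1 := push hR (φ := E'.indicator 1) (measurable_one.indicator hE'm)
  have hm : Measurable (fun z => E'.indicator (1 : ℂ → ENNReal) (fx x z) *
      ENNReal.ofReal (‖d1 (nu x) (de x) z‖ ^ 2)) :=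
    ((measurable_one.indicator hE'm).comp (fx_meas x)).mul
      ((d1_meas _ _).norm.pow_const 2).ennreal_ofReal
  rw [lintegral_indicator_one hE'm, hE'0, mul_zero, nonpos_iff_eq_zero,
    lintegral_eq_zero_iff hm] at h1
  have h2 : ∀ᵐ z : ℂ, d1 (nu x) (de x) z ≠ 0 := by
    rw [ae_iff]
    simp only [ne_eq, not_not]
    exact (d1_zero_finite hR).measure_zero _
  have h3 : ∀ᵐ z : ℂ, z ∉ fx x ⁻¹' E := by
    filter_upwards [h1, h2] with z k1 k2 hz
    have k3 : E'.indicator (1 : ℂ → ENNReal) (fx x z) *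
        ENNReal.ofReal (‖d1 (nu x) (de x) z‖ ^ 2) = 0 := k1
    rw [indicator_of_mem (hEE' hz), Pi.one_apply, one_mul, ENNReal.ofReal_eq_zero] at k3
    have := norm_pos_iff.2 k2
    have : 0 < ‖d1 (nu x) (de x) z‖ ^ 2 := by positivity
    linarith
  rw [ae_iff] at h3
  simp only [not_not] at h3
  exact h3

/-- Almost every point is mapped to a point with an almost sure property. -/
theorem ae_pre {x : CV d} (hR : RM d (nu x) (de x)) {p : ℂ → Prop} (h : ∀ᵐ z : ℂ, p z) :
    ∀ᵐ z : ℂ, p (fx x z) := by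
  rw [ae_iff] at h ⊢
  exact null_pre hR h

/-- Functions with summable integrals tend to zero almost everywhere. -/
theorem ae_tend_zero {F : ℕ → ℂ → ENNReal} (hF : ∀ n, Measurable (F n)) {C : ENNReal}
    (hC : C ≠ ⊤) (h : ∀ n, ∫⁻ z, F n z ≤ C * ENNReal.ofReal ((1 / 2) ^ n)) :
    ∀ᵐ z : ℂ, Tendsto (fun n => F n z) atTop (𝓝 0) := by
  have h1 : ∑' n : ℕ, C * ENNReal.ofReal ((1 / 2) ^ n) ≠ ⊤ := by
    rw [ENNReal.tsum_mul_left]
    refine ENNReal.mul_ne_top hC ?_
    rw [← ENNReal.ofReal_tsum_of_nonneg (fun n => by positivity) summable_geometric_two]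
    exact ENNReal.ofReal_ne_top
  have h2 : ∫⁻ z, ∑' n, F n z ≠ ⊤ := by
    rw [lintegral_tsum fun n => (hF n).aemeasurable]
    exact ((ENNReal.tsum_le_tsum h).trans_lt (lt_top_iff_ne_top.2 h1)).ne
  filter_upwards [ae_lt_top (Measurable.tsum hF) h2] with z hz
  exact ENNReal.tendsto_atTop_zero_of_tsum_ne_top hz.ne

theorem rho_meas (β : ℝ) : Measurable (rho β) := by
  unfold rho
  exact (measurable_norm.pow_const _).mul ((measurable_id.sub_const 1).norm.pow_const _)

theorem rho_nonneg (β : ℝ) (z : ℂ) : 0 ≤ rho β z := by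
  unfold rho
  positivity

theorem rho_pos (β : ℝ) {z : ℂ} (h0 : z ≠ 0) (h1 : z ≠ 1) : 0 < rho β z := by
  unfold rho
  have := norm_pos_iff.2 h0
  have := norm_pos_iff.2 (sub_ne_zero.2 h1)
  positivity

theorem rho_tend (β : ℝ) {w : ℕ → ℂ} {w₀ : ℂ} (hw : Tendsto w atTop (𝓝 w₀)) (h0 : w₀ ≠ 0)
    (h1 : w₀ ≠ 1) : Tendsto (fun n => rho β (w n)) atTop (𝓝 (rho β w₀)) := by
  unfold rho
  exact (hw.norm.rpow_const (Or.inl (norm_ne_zero_iff.2 h0))).mul
    ((hw.sub_const 1).norm.rpow_const (Or.inl (norm_ne_zero_iff.2 (sub_ne_zero.2 h1))))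

/-- Cancellation of a factor with a positive limit. -/
theorem aux_zero {a b : ℕ → ℝ} {b₀ : ℝ} {F : ℕ → ENNReal} (ha : ∀ n, 0 ≤ a n) (hb : ∀ n, 0 ≤ b n)
    (hbt : Tendsto b atTop (𝓝 b₀)) (hb₀ : 0 < b₀) (hF : Tendsto F atTop (𝓝 0))
    (he : ∀ᶠ n in atTop, F n = ENNReal.ofReal (a n * b n)) : Tendsto a atTop (𝓝 0) := by
  have h1 : Tendsto (fun n => (F n).toReal) atTop (𝓝 0) := by
    have := (ENNReal.tendsto_toReal ENNReal.zero_ne_top).comp hF
    rw [ENNReal.toReal_zero] at this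
    exact this
  have h2 : Tendsto (fun n => (F n).toReal / b n) atTop (𝓝 (0 / b₀)) := h1.div hbt hb₀.ne'
  rw [zero_div] at h2
  refine h2.congr' ?_
  filter_upwards [he, hbt.eventually_ne hb₀.ne'] with n k1 k2
  rw [k1, ENNReal.toReal_ofReal (mul_nonneg (ha n) (hb n))]
  field_simp

/-- Norms. -/
theorem sq_zero {a : ℕ → ℂ} (h : Tendsto (fun n => ‖a n‖ ^ 2) atTop (𝓝 0)) :
    Tendsto a atTop (𝓝 0) := by
  rw [tendsto_zero_iff_norm_tendsto_zero]
  have h1 := h.sqrt
  rw [Real.sqrt_zero] at h1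
  refine h1.congr fun n => ?_
  exact Real.sqrt_sq (norm_nonneg _)

theorem gg_meas (β : ℝ) : Measurable (gg β) := by
  unfold gg
  exact ((measurable_const.div measurable_id).neg).sub
    (measurable_const.div (measurable_id.sub_const 1))

/-- the square norm of the covariant derivative on `K` -/
noncomputable def phi (β : ℝ) (K : Set ℂ) (v : ℂ → ℂ) (z : ℂ) : ENNReal :=
  K.indicator (fun z => ENNReal.ofReal (‖Dv β v z‖ ^ 2)) z

theorem phi_meas {β : ℝ} {W K : Set ℂ} {v : ℂ → ℂ} (hW : IsOpen W) (hK : MeasurableSet K)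
    (hKW : K ⊆ W) (hv : DifferentiableOn ℂ v W) : Measurable (phi β K v) := by
  have h1 : Measurable (W.indicator v) := by
    classical
    have := ContinuousOn.measurable_piecewise (f := v) (g := fun _ => (0 : ℂ)) (s := W)
      hv.continuousOn continuousOn_const hW.measurableSet
    exact this
  have h2 : Measurable (fun z => ENNReal.ofReal (‖deriv v z + gg β z * W.indicator v z‖ ^ 2)) :=
    (((measurable_deriv v).add ((gg_meas β).mul h1)).norm.pow_const 2).ennreal_ofReal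
  have e : phi β K v = K.indicator (fun z =>
      ENNReal.ofReal (‖deriv v z + gg β z * W.indicator v z‖ ^ 2)) := by
    funext z
    unfold phi
    by_cases hz : z ∈ K
    · rw [indicator_of_mem hz, indicator_of_mem hz, indicator_of_mem (hKW hz)]
      rfl
    · rw [indicator_of_notMem hz, indicator_of_notMem hz]
  rw [e]
  exact h2.indicator hK

theorem phi_int {β : ℝ} {W K : Set ℂ} {v : ℂ → ℂ} (hW : IsOpen W) (hK : MeasurableSet K)
    (hKW : K ⊆ W) (hv : DifferentiableOn ℂ v W) :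
    ∫⁻ z in K, ENNReal.ofReal (‖Dv β v z‖ ^ 2) ∂mu β =
      ∫⁻ z, phi β K v z * ENNReal.ofReal (rho β z) := by
  rw [← lintegral_indicator hK]
  unfold mu
  have h := lintegral_withDensity_eq_lintegral_mul volume
    ((rho_meas β).ennreal_ofReal) (phi_meas (β := β) hW hK hKW hv)
  refine Eq.trans ?_ (h.trans ?_)
  · rfl
  · apply lintegral_congr
    intro z
    rw [Pi.mul_apply, mul_comm]

end Pool.Agent.W973.UG
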