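import Pool.Agent.W973.UG2

/-! Uniform gain (RE-UG), part 3: the limit of a sequence of almost equivariant vector fields. -/

set_option autoImplicit false

open Topology Filter Metric Set MeasureTheory Polynomial
open Pool.Agent.H790R3.RB (CV hF cr ND wr rt pol)
open Pool.Agent.W757.QR (nu de fx fr d1 d2 wn hv hd RM pre)
open Pool.Agent.W757.RD
open Pool.Agent.W40.RQAF (fr_meas d1_meas wn_ne Q_ne af_mem)

namespace Pool.Agent.W973.UG

variable {d : ℕ}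

theorem phi_mem {β : ℝ} {K : Set ℂ} {v : ℂ → ℂ} {z : ℂ} (h : z ∈ K) :
    phi β K v z = ENNReal.ofReal (‖Dv β v z‖ ^ 2) := indicator_of_mem h _

/-- The relation for the limits. -/
theorem limit_rel {β : ℝ} (hMU : ∀ E : Set ℂ, volume E = 0 ↔ mu β E = 0)
    (hd : 2 ≤ d) {x : ℕ → CV d} {x₀ : CV d} (hx₀ : ND x₀) (hND : ∀ n, ND (x n))
    (hx : Tendsto x atTop (𝓝 x₀)) {ξ : ℕ → CV d} {ξ₀ : CV d} (hξ : Tendsto ξ atTop (𝓝 ξ₀))
    (hchi : {z : ℂ | chi β x₀ z = 0}.Finite) {W K : ℕ → Set ℂ} {v : ℕ → ℂ → ℂ}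
    (hW : ∀ n, IsOpen (W n)) (hKm : ∀ n, MeasurableSet (K n)) (hKW : ∀ n, K n ⊆ W n)
    (hmu : ∀ n, mu β (K n)ᶜ ≤ ENNReal.ofReal ((1 / 2) ^ n))
    (hv : ∀ n, DifferentiableOn ℂ (v n) (W n))
    (hfK : ∀ n, ∀ᵐ z : ℂ, z ∈ K n → fx (x n) z ∈ K n)
    (hrel : ∀ n, ∀ z ∈ W n, (de (x n)).eval z ≠ 0 → fx (x n) z ∈ W n →
      v n (fx (x n) z) - d1 (nu (x n)) (de (x n)) z * v n z = et (x n) (ξ n) z)
    (hint : ∀ n, ∫⁻ z in K n, ENNReal.ofReal (‖Dv β (v n) z‖ ^ 2) ∂mu β ≤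
      ENNReal.ofReal ((1 / 2) ^ n)) :
    ∀ᵐ z : ℂ, et x₀ ξ₀ z = uu β x₀ ξ₀ (fx x₀ z) -
      d1 (nu x₀) (de x₀) z * uu β x₀ ξ₀ z := by
  have hR₀ := rm_of hd hx₀
  have hR := fun n => rm_of hd (hND n)
  -- the functions
  let J : ℕ → ℂ → ENNReal := fun n z => ENNReal.ofReal (‖d1 (nu (x n)) (de (x n)) z‖ ^ 2)
  have hJm : ∀ n, Measurable (J n) := fun n => ((d1_meas _ _).norm.pow_const 2).ennreal_ofReal
  let F : ℕ → ℂ → ENNReal := fun n z => phi β (K n) (v n) z * ENNReal.ofReal (rho β z)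
  have hFm : ∀ n, Measurable (F n) := fun n =>
    (phi_meas (hW n) (hKm n) (hKW n) (hv n)).mul (rho_meas β).ennreal_ofReal
  let G : ℕ → ℂ → ENNReal := fun n z => F n (fx (x n) z) * J n z
  have hGm : ∀ n, Measurable (G n) := fun n => ((hFm n).comp (fx_meas _)).mul (hJm n)
  let H : ℕ → ℂ → ENNReal := fun n z => G n (fx (x n) z) * J n z
  have hHm : ∀ n, Measurable (H n) := fun n => ((hGm n).comp (fx_meas _)).mul (hJm n)
  have hF1 : ∀ n, ∫⁻ z, F n z ≤ ENNReal.ofReal ((1 / 2) ^ n) := by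
    intro n
    have h1 := hint n
    rw [phi_int (hW n) (hKm n) (hKW n) (hv n)] at h1
    exact h1
  have hG1 : ∀ n, ∫⁻ z, G n z ≤ d * ENNReal.ofReal ((1 / 2) ^ n) := by
    intro n
    refine (push (hR n) (hFm n)).trans ?_
    gcongr
    exact hF1 n
  have hH1 : ∀ n, ∫⁻ z, H n z ≤ (d * d) * ENNReal.ofReal ((1 / 2) ^ n) := by
    intro n
    refine (push (hR n) (hGm n)).trans ?_
    rw [mul_assoc]
    gcongr
    exact hG1 n
  have aF : ∀ᵐ z : ℂ, Tendsto (fun n => F n z) atTop (𝓝 0) :=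
    ae_tend_zero hFm (C := 1) ENNReal.one_ne_top (fun n => by rw [one_mul]; exact hF1 n)
  have aG : ∀ᵐ z : ℂ, Tendsto (fun n => G n z) atTop (𝓝 0) :=
    ae_tend_zero hGm (ENNReal.natCast_ne_top d) hG1
  have aH : ∀ᵐ z : ℂ, Tendsto (fun n => H n z) atTop (𝓝 0) :=
    ae_tend_zero hHm (ENNReal.mul_ne_top (ENNReal.natCast_ne_top d) (ENNReal.natCast_ne_top d)) hH1
  -- the points are in `K n` for large `n`
  have aK : ∀ᵐ z : ℂ, ∀ᶠ n in atTop, z ∈ K n := by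
    have h1 : ∑' n : ℕ, mu β (K n)ᶜ ≠ ⊤ := by
      have h2 : ∑' n : ℕ, ENNReal.ofReal ((1 / 2) ^ n) ≠ ⊤ := by
        rw [← ENNReal.ofReal_tsum_of_nonneg (fun n => by positivity) summable_geometric_two]
        exact ENNReal.ofReal_ne_top
      exact ((ENNReal.tsum_le_tsum hmu).trans_lt (lt_top_iff_ne_top.2 h2)).ne
    have h3 := ae_eventually_notMem h1
    rw [ae_iff] at h3 ⊢
    rw [hMU]
    convert h3 using 3
    simp
  have aK1 : ∀ᵐ z : ℂ, ∀ n, z ∈ K n → fx (x n) z ∈ K n := ae_all_iff.2 hfK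
  have aK2 : ∀ᵐ z : ℂ, ∀ n, fx (x n) z ∈ K n → fx (x n) (fx (x n) z) ∈ K n :=
    ae_all_iff.2 fun n => ae_pre (hR n) (hfK n)
  -- generic points
  let B : Set ℂ := {z : ℂ | z = 0 ∨ z = 1 ∨ (de x₀).eval z = 0 ∨ d1 (nu x₀) (de x₀) z = 0 ∨
    chi β x₀ z = 0}
  have hB : B.Finite := by
    have h1 : ({z : ℂ | (de x₀).eval z = 0}).Finite := by
      refine (de x₀).roots.toFinset.finite_toSet.subset ?_
      intro z hz
      rw [Finset.mem_coe, Multiset.mem_toFinset, mem_roots (Q_ne hR₀)]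
      exact hz
    have h2 := (((finite_singleton (0 : ℂ)).union (finite_singleton (1 : ℂ))).union h1).union
      ((d1_zero_finite hR₀).union hchi)
    refine h2.subset ?_
    rintro z (h | h | h | h | h)
    · exact Or.inl (Or.inl (Or.inl h))
    · exact Or.inl (Or.inl (Or.inr h))
    · exact Or.inl (Or.inr h)
    · exact Or.inr (Or.inl h)
    · exact Or.inr (Or.inr h)
  have aB : ∀ᵐ z : ℂ, z ∉ B := by
    rw [ae_iff]
    simp only [not_not]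
    exact hB.measure_zero _
  have aB1 : ∀ᵐ z : ℂ, fx x₀ z ∉ B := ae_pre hR₀ aB
  have aB2 : ∀ᵐ z : ℂ, fx x₀ (fx x₀ z) ∉ B := ae_pre hR₀ aB1
  filter_upwards [aF, aG, aH, aK, aK1, aK2, aB, aB1, aB2] with z zF zG zH zK zK1 zK2 b0 b1 b2
  have g0 : z ≠ 0 ∧ z ≠ 1 ∧ (de x₀).eval z ≠ 0 ∧ d1 (nu x₀) (de x₀) z ≠ 0 ∧ chi β x₀ z ≠ 0 :=
    ⟨fun h => b0 (Or.inl h), fun h => b0 (Or.inr (Or.inl h)),
      fun h => b0 (Or.inr (Or.inr (Or.inl h))),
      fun h => b0 (Or.inr (Or.inr (Or.inr (Or.inl h)))),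
      fun h => b0 (Or.inr (Or.inr (Or.inr (Or.inr h))))⟩
  have g1 : fx x₀ z ≠ 0 ∧ fx x₀ z ≠ 1 ∧ (de x₀).eval (fx x₀ z) ≠ 0 ∧
      d1 (nu x₀) (de x₀) (fx x₀ z) ≠ 0 ∧ chi β x₀ (fx x₀ z) ≠ 0 :=
    ⟨fun h => b1 (Or.inl h), fun h => b1 (Or.inr (Or.inl h)),
      fun h => b1 (Or.inr (Or.inr (Or.inl h))),
      fun h => b1 (Or.inr (Or.inr (Or.inr (Or.inl h)))),
      fun h => b1 (Or.inr (Or.inr (Or.inr (Or.inr h))))⟩
  have g2 : fx x₀ (fx x₀ z) ≠ 0 ∧ fx x₀ (fx x₀ z) ≠ 1 :=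
    ⟨fun h => b2 (Or.inl h), fun h => b2 (Or.inr (Or.inl h))⟩
  -- the orbits
  have w0 : Tendsto (fun _ : ℕ => z) atTop (𝓝 z) := tendsto_const_nhds
  have w1 : Tendsto (fun n => fx (x n) z) atTop (𝓝 (fx x₀ z)) := fx_tend hx w0 g0.2.2.1
  have w2 : Tendsto (fun n => fx (x n) (fx (x n) z)) atTop (𝓝 (fx x₀ (fx x₀ z))) :=
    fx_tend hx w1 g1.2.2.1
  have k1 : ∀ᶠ n in atTop, fx (x n) z ∈ K n := zK.mono fun n hn => zK1 n hn
  have k2 : ∀ᶠ n in atTop, fx (x n) (fx (x n) z) ∈ K n := k1.mono fun n hn => zK2 n hn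
  -- the covariant derivatives tend to zero
  have e0 : Tendsto (fun n => Dv β (v n) z) atTop (𝓝 0) := by
    refine sq_zero (aux_zero (b := fun _ => rho β z) (b₀ := rho β z) (F := fun n => F n z)
      (fun n => by positivity) (fun n => rho_nonneg β z) tendsto_const_nhds
      (rho_pos β g0.1 g0.2.1) zF ?_)
    filter_upwards [zK] with n hn
    change phi β (K n) (v n) z * ENNReal.ofReal (rho β z) = _
    rw [phi_mem hn, ENNReal.ofReal_mul (by positivity)]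
  have e1 : Tendsto (fun n => Dv β (v n) (fx (x n) z)) atTop (𝓝 0) := by
    refine sq_zero (aux_zero (b := fun n => rho β (fx (x n) z) *
      ‖d1 (nu (x n)) (de (x n)) z‖ ^ 2) (b₀ := rho β (fx x₀ z) * ‖d1 (nu x₀) (de x₀) z‖ ^ 2)
      (F := fun n => G n z)
      (fun n => by positivity) (fun n => mul_nonneg (rho_nonneg β _) (by positivity))
      ((rho_tend β w1 g1.1 g1.2.1).mul ((d1_tend hx w0 g0.2.2.1).norm.pow 2))
      (mul_pos (rho_pos β g1.1 g1.2.1) (pow_pos (norm_pos_iff.2 g0.2.2.2.1) 2)) zG ?_)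
    filter_upwards [k1] with n hn
    change phi β (K n) (v n) (fx (x n) z) * ENNReal.ofReal (rho β (fx (x n) z)) *
      ENNReal.ofReal (‖d1 (nu (x n)) (de (x n)) z‖ ^ 2) = _
    rw [phi_mem hn, ENNReal.ofReal_mul (by positivity), ENNReal.ofReal_mul (rho_nonneg β _),
      mul_assoc]
  have e2 : Tendsto (fun n => Dv β (v n) (fx (x n) (fx (x n) z))) atTop (𝓝 0) := by
    refine sq_zero (aux_zero (b := fun n => rho β (fx (x n) (fx (x n) z)) *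
      (‖d1 (nu (x n)) (de (x n)) (fx (x n) z)‖ ^ 2 * ‖d1 (nu (x n)) (de (x n)) z‖ ^ 2))
      (b₀ := rho β (fx x₀ (fx x₀ z)) * (‖d1 (nu x₀) (de x₀) (fx x₀ z)‖ ^ 2 *
        ‖d1 (nu x₀) (de x₀) z‖ ^ 2))
      (F := fun n => H n z)
      (fun n => by positivity) (fun n => mul_nonneg (rho_nonneg β _) (by positivity))
      ((rho_tend β w2 g2.1 g2.2).mul (((d1_tend hx w1 g1.2.2.1).norm.pow 2).mul
        ((d1_tend hx w0 g0.2.2.1).norm.pow 2)))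
      (mul_pos (rho_pos β g2.1 g2.2) (mul_pos (pow_pos (norm_pos_iff.2 g1.2.2.2.1) 2)
        (pow_pos (norm_pos_iff.2 g0.2.2.2.1) 2))) zH ?_)
    filter_upwards [k2] with n hn
    change phi β (K n) (v n) (fx (x n) (fx (x n) z)) *
      ENNReal.ofReal (rho β (fx (x n) (fx (x n) z))) *
      ENNReal.ofReal (‖d1 (nu (x n)) (de (x n)) (fx (x n) z)‖ ^ 2) *
      ENNReal.ofReal (‖d1 (nu (x n)) (de (x n)) z‖ ^ 2) = _
    rw [phi_mem hn, ENNReal.ofReal_mul (by positivity), ENNReal.ofReal_mul (rho_nonneg β _),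
      ENNReal.ofReal_mul (by positivity), mul_assoc, mul_assoc]
  -- the vector fields converge
  have v0 : Tendsto (fun n => v n z) atTop (𝓝 (uu β x₀ ξ₀ z)) :=
    v_tend hx hξ w0 g0.2.2.1 g0.1 g0.2.1 g1.1 g1.2.1 g0.2.2.2.2 hW hv hrel
      (zK.mono fun n hn => hKW n hn) (k1.mono fun n hn => hKW n hn) e0 e1
  have v1 : Tendsto (fun n => v n (fx (x n) z)) atTop (𝓝 (uu β x₀ ξ₀ (fx x₀ z))) :=
    v_tend hx hξ w1 g1.2.2.1 g1.1 g1.2.1 g2.1 g2.2 g1.2.2.2.2 hW hv hrel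
      (k1.mono fun n hn => hKW n hn) (k2.mono fun n hn => hKW n hn) e1 e2
  have hL : Tendsto (fun n => v n (fx (x n) z) - d1 (nu (x n)) (de (x n)) z * v n z) atTop
      (𝓝 (uu β x₀ ξ₀ (fx x₀ z) - d1 (nu x₀) (de x₀) z * uu β x₀ ξ₀ z)) :=
    v1.sub ((d1_tend hx w0 g0.2.2.1).mul v0)
  have hRt : Tendsto (fun n => et (x n) (ξ n) z) atTop (𝓝 (et x₀ ξ₀ z)) :=
    et_tend hx hξ w0 g0.2.2.1
  refine tendsto_nhds_unique hRt (hL.congr' ?_)
  filter_upwards [zK, k1, (de_tend hx w0).eventually_ne g0.2.2.1] with n m1 m2 m3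
  exact hrel n z (hKW n m1) m3 (hKW n m2)

end Pool.Agent.W973.UG
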